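import Pool.Agent.Lib.MP_1a1aec_lc.Final

/-!
The truth lemma fails for the two atomic formulas `v₀ = v₁` and `v₀ ∈ v₁` (helper10).

`DS` is the set of the canonical names of the hereditarily finite sets, `dub` a name for the set
`X` of all pairs `{a, b}` of two different hereditarily finite sets. The elements of the value of
`sig` are pairs `{a, b}` of hereditarily finite sets, so `sig ∪ dub` and `dub` have the same value
if and only if the value of `sig` is a subset of `X`.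
-/

open FirstOrder FirstOrder.Language

namespace Pool.Agent.Lib.MP_1a1aec_lc

/-- The name for `{a} ∪ b`, if `σ` names `a` and `τ` names `b`. -/
def nins (σ τ : ZFSet.{0}) : ZFSet.{0} := insert (ZFSet.pair σ one) τ

theorem AbsF.nins {n : ℕ} {f g : (Fin n → ZFSet.{0}) → ZFSet.{0}} (hf : AbsF f)
    (hg : AbsF g) : AbsF (fun v => nins (f v) (g v)) :=
  AbsF.ins (AbsF.opair hf AbsF.cOne) hg

theorem val_union {G : Set ZFSet.{0}} (σ τ : ZFSet.{0}) :
    val G (σ ∪ τ) = val G σ ∪ val G τ := by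
  ext u
  rw [ZFSet.mem_union, mem_val, mem_val, mem_val]
  constructor
  · rintro ⟨ρ, p, hp, h, hu⟩
    rcases ZFSet.mem_union.1 h with h | h
    · exact Or.inl ⟨ρ, p, hp, h, hu⟩
    · exact Or.inr ⟨ρ, p, hp, h, hu⟩
  · rintro (⟨ρ, p, hp, h, hu⟩ | ⟨ρ, p, hp, h, hu⟩)
    · exact ⟨ρ, p, hp, ZFSet.mem_union.2 (Or.inl h), hu⟩
    · exact ⟨ρ, p, hp, ZFSet.mem_union.2 (Or.inr h), hu⟩

theorem val_nins {G : Set ZFSet.{0}} (hG : one ∈ G) (σ τ : ZFSet.{0}) :
    val G (nins σ τ) = insert (val G σ) (val G τ) := by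
  ext u
  rw [mem_val, ZFSet.mem_insert_iff, mem_val]
  constructor
  · rintro ⟨ρ, p, hp, h, hu⟩
    rcases ZFSet.mem_insert_iff.1 h with h | h
    · exact Or.inl (by rw [← hu, (ZFSet.pair_inj.1 h).1])
    · exact Or.inr ⟨ρ, p, hp, h, hu⟩
  · rintro (rfl | ⟨ρ, p, hp, h, hu⟩)
    · exact ⟨σ, one, hG, ZFSet.mem_insert_iff.2 (Or.inl rfl), rfl⟩
    · exact ⟨ρ, p, hp, ZFSet.mem_insert_iff.2 (Or.inr h), hu⟩

/-- One step of the recursion for the canonical names of the hereditarily finite sets. -/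
noncomputable def dstep (X : ZFSet.{0}) : ZFSet.{0} :=
  X ∪ ZFSet.sUnion (im X (fun σ => im X (fun τ => nins σ τ)))

theorem mem_dstep {X z : ZFSet.{0}} :
    z ∈ dstep X ↔ z ∈ X ∨ ∃ σ ∈ X, ∃ τ ∈ X, nins σ τ = z := by
  rw [dstep, ZFSet.mem_union, ZFSet.mem_sUnion]
  constructor
  · rintro (h | ⟨w, hw, hz⟩)
    · exact Or.inl h
    · obtain ⟨σ, hσ, rfl⟩ := mem_im.1 hw
      obtain ⟨τ, hτ, rfl⟩ := mem_im.1 hz
      exact Or.inr ⟨σ, hσ, τ, hτ, rfl⟩
  · rintro (h | ⟨σ, hσ, τ, hτ, rfl⟩)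
    · exact Or.inl h
    · exact Or.inr ⟨_, mem_im.2 ⟨σ, hσ, rfl⟩, mem_im.2 ⟨τ, hτ, rfl⟩⟩

theorem AbsF.dstep1 : AbsF (fun v : Fin 1 → ZFSet.{0} => dstep (v 0)) := by
  unfold dstep
  refine AbsF.union (AbsF.proj 0) (AbsF.sUnion ?_)
  refine AbsF.img (h := fun v σ => im (v 0) (fun τ => Pool.Agent.Lib.MP_1a1aec_lc.nins σ τ))
    (AbsF.proj 0) ?_
  refine AbsF.img (h := fun v τ => Pool.Agent.Lib.MP_1a1aec_lc.nins (v 0) τ)
    (AbsF.proj (Fin.succ 0)) ?_
  exact AbsF.nins (AbsF.proj _) (AbsF.proj _)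

/-- Canonical names of hereditarily finite sets, level by level. -/
noncomputable def DD : ℕ → ZFSet.{0}
  | 0 => {∅}
  | n + 1 => dstep (DD n)

/-- The set of the canonical names of the hereditarily finite sets. -/
noncomputable def DS : ZFSet.{0} := ZFSet.sUnion (im om (fun n => seqF DD n))

theorem mem_DS {z : ZFSet.{0}} : z ∈ DS ↔ ∃ n, z ∈ DD n := by
  rw [DS, ZFSet.mem_sUnion]
  constructor
  · rintro ⟨w, hw, hz⟩
    obtain ⟨n', hn', rfl⟩ := mem_im.1 hw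
    obtain ⟨n, rfl⟩ := mem_om.1 hn'
    rw [seqF_nat] at hz
    exact ⟨n, hz⟩
  · rintro ⟨n, hn⟩
    exact ⟨_, mem_im.2 ⟨nat n, nat_mem_om n, rfl⟩, by rw [seqF_nat]; exact hn⟩

theorem AbsF.cDS {n : ℕ} : AbsF (fun _ : Fin n → ZFSet.{0} => DS) := by
  unfold DS
  refine AbsF.sUnion (AbsF.img (h := fun _ n => seqF DD n) AbsF.cOm ?_)
  exact AbsF.seq (A := DD) (h := dstep) (fun _ => rfl) (AbsF.sing AbsF.cEmpty) AbsF.dstep1
    (AbsF.proj 0)

theorem DD_mono {m n : ℕ} (h : m ≤ n) {z : ZFSet.{0}} (hz : z ∈ DD m) : z ∈ DD n := by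
  induction n, h using Nat.le_induction with
  | base => exact hz
  | succ n _ ih => exact mem_dstep.2 (Or.inl ih)

theorem empty_mem_DS : (∅ : ZFSet.{0}) ∈ DS := mem_DS.2 ⟨0, by simp [DD]⟩

theorem nins_mem_DS {σ τ : ZFSet.{0}} (hσ : σ ∈ DS) (hτ : τ ∈ DS) : nins σ τ ∈ DS := by
  obtain ⟨m, hm⟩ := mem_DS.1 hσ
  obtain ⟨n, hn⟩ := mem_DS.1 hτ
  refine mem_DS.2 ⟨max m n + 1, ?_⟩
  exact mem_dstep.2 (Or.inr ⟨σ, DD_mono (le_max_left m n) hm, τ, DD_mono (le_max_right m n) hn,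
    rfl⟩)

theorem DS_elem {σ : ZFSet.{0}} (hσ : σ ∈ DS) :
    ∀ z ∈ σ, ∃ τ ∈ DS, z = ZFSet.pair τ one := by
  obtain ⟨n, hn⟩ := mem_DS.1 hσ
  clear hσ
  induction n generalizing σ with
  | zero =>
    intro z hz
    rw [DD, ZFSet.mem_singleton] at hn
    rw [hn] at hz
    exact absurd hz (ZFSet.notMem_empty z)
  | succ n ih =>
    rcases mem_dstep.1 hn with h | ⟨τ, hτ, τ', hτ', rfl⟩
    · exact ih h
    · intro z hz
      rcases ZFSet.mem_insert_iff.1 hz with h | h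
      · exact ⟨τ, mem_DS.2 ⟨n, hτ⟩, h⟩
      · exact ih hτ' z h

theorem isName_DS {P : Set ZFSet.{0}} (h1 : one ∈ P) : ∀ σ ∈ DS, IsName P σ := by
  have key : ∀ α : Ordinal.{0}, ∀ σ ∈ DS, σ.rank = α → IsName P σ := by
    intro α
    induction α using WellFoundedLT.induction with
    | _ α ih =>
      intro σ hσ hα
      rw [isName_iff]
      intro z hz
      obtain ⟨τ, hτ, rfl⟩ := DS_elem hσ z hz
      exact ⟨τ, one, rfl, h1, ih τ.rank (hα ▸ rank_fst_lt hz) τ hτ rfl⟩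
  exact fun σ hσ => key _ σ hσ rfl

theorem val_inj_DS {G : Set ZFSet.{0}} (hG : one ∈ G) : ∀ σ ∈ DS, ∀ τ ∈ DS,
    val G σ = val G τ → σ = τ := by
  have key : ∀ α : Ordinal.{0}, ∀ σ ∈ DS, σ.rank = α → ∀ τ ∈ DS, val G σ = val G τ → σ = τ := by
    intro α
    induction α using WellFoundedLT.induction with
    | _ α ih =>
      intro σ hσ hα τ hτ h
      ext z
      constructor
      · intro hz
        obtain ⟨ρ, hρ, rfl⟩ := DS_elem hσ z hz
        have h1 : val G ρ ∈ val G τ := by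
          rw [← h]
          exact mem_val.2 ⟨ρ, one, hG, hz, rfl⟩
        obtain ⟨ρ', p, -, h2, h3⟩ := mem_val.1 h1
        obtain ⟨ρ'', hρ'', h4⟩ := DS_elem hτ _ h2
        obtain ⟨rfl, rfl⟩ := ZFSet.pair_inj.1 h4
        have h5 := ih ρ.rank (hα ▸ rank_fst_lt hz) ρ hρ rfl ρ' hρ'' h3.symm
        rw [h5]
        exact h2
      · intro hz
        obtain ⟨ρ, hρ, rfl⟩ := DS_elem hτ z hz
        have h1 : val G ρ ∈ val G σ := by
          rw [h]
          exact mem_val.2 ⟨ρ, one, hG, hz, rfl⟩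
        obtain ⟨ρ', p, -, h2, h3⟩ := mem_val.1 h1
        obtain ⟨ρ'', hρ'', h4⟩ := DS_elem hσ _ h2
        obtain ⟨rfl, rfl⟩ := ZFSet.pair_inj.1 h4
        have h5 := ih ρ'.rank (hα ▸ rank_fst_lt h2) ρ' hρ'' rfl ρ hρ h3
        rw [← h5]
        exact h2
  exact fun σ hσ => key _ σ hσ rfl

/-! ### The values of the canonical names: hereditarily finite sets -/

/-- `x` is the value of a canonical name. -/
def HF (G : Set ZFSet.{0}) (x : ZFSet.{0}) : Prop := ∃ σ ∈ DS, val G σ = x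

theorem HF_empty {G : Set ZFSet.{0}} : HF G ∅ := by
  refine ⟨∅, empty_mem_DS, ?_⟩
  ext u
  rw [mem_val]
  simp

theorem HF_insert {G : Set ZFSet.{0}} (hG : one ∈ G) {x y : ZFSet.{0}} (hx : HF G x)
    (hy : HF G y) : HF G (insert x y) := by
  obtain ⟨σ, hσ, rfl⟩ := hx
  obtain ⟨τ, hτ, rfl⟩ := hy
  exact ⟨nins σ τ, nins_mem_DS hσ hτ, val_nins hG σ τ⟩

theorem HF_singleton {G : Set ZFSet.{0}} (hG : one ∈ G) {x : ZFSet.{0}} (hx : HF G x) :
    HF G {x} := by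
  have h := HF_insert hG hx (HF_empty (G := G))
  have h2 : (insert x ∅ : ZFSet.{0}) = {x} := by
    ext z
    simp
  rwa [h2] at h

theorem HF_pair {G : Set ZFSet.{0}} (hG : one ∈ G) {x y : ZFSet.{0}} (hx : HF G x)
    (hy : HF G y) : HF G (ZFSet.pair x y) := by
  have h1 : HF G ({x, y} : ZFSet.{0}) := HF_insert hG hx (HF_singleton hG hy)
  exact HF_insert hG (HF_singleton hG hx) (HF_singleton hG h1)

theorem HF_finite {G : Set ZFSet.{0}} (hG : one ∈ G) (S : Set ZFSet.{0}) (hS : S.Finite) :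
    (∀ u ∈ S, HF G u) → ∃ x, HF G x ∧ ∀ u, u ∈ x ↔ u ∈ S := by
  induction S, hS using Set.Finite.induction_on with
  | empty => exact fun _ => ⟨∅, HF_empty, fun u => by simp⟩
  | @insert a S _ _ ih =>
    intro h
    obtain ⟨x, hx, hx'⟩ := ih (fun u hu => h u (Set.mem_insert_of_mem _ hu))
    refine ⟨insert a x, HF_insert hG (h a (Set.mem_insert a S)) hx, fun u => ?_⟩
    rw [ZFSet.mem_insert_iff, hx', Set.mem_insert_iff]

theorem HF_of_finite {G : Set ZFSet.{0}} (hG : one ∈ G) {x : ZFSet.{0}} (S : Set ZFSet.{0})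
    (hS : S.Finite) (hxS : ∀ u ∈ x, u ∈ S) (h : ∀ u ∈ x, HF G u) : HF G x := by
  obtain ⟨y, hy, hy'⟩ := HF_finite hG {u | u ∈ x} (hS.subset hxS) h
  have hxy : y = x := by
    ext u
    exact hy' u
  rw [← hxy]
  exact hy

theorem HF_zn {G : Set ZFSet.{0}} (hG : one ∈ G) (n : ℕ) : HF G (zn n) := by
  induction n with
  | zero => exact HF_empty
  | succ n ih => exact HF_singleton hG ih

variable {M : Set ZFSet.{0}}

theorem HF_TL [Countable M] {G : Set ZFSet.{0}} (hG : one ∈ G) (m : ℕ) :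
    ∀ (k : ℕ) (x : ℕ → M), HF G (TL M m k x) := by
  induction m with
  | zero =>
    intro k x
    have hfin : (Set.range (fun p : Fin k × Fin k =>
        ZFSet.pair (zn p.1) (zn p.2))).Finite := Set.finite_range _
    refine HF_of_finite hG _ hfin ?_ ?_
    · intro u hu
      rw [TL, ZFSet.mem_range] at hu
      obtain ⟨⟨p, h1, h2, h3⟩, rfl⟩ := hu
      exact ⟨(⟨p.1, h1⟩, ⟨p.2, h2⟩), rfl⟩
    · intro u hu
      rw [TL, ZFSet.mem_range] at hu
      obtain ⟨⟨p, h1, h2, h3⟩, rfl⟩ := hu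
      exact HF_pair hG (HF_zn hG _) (HF_zn hG _)
  | succ m ih =>
    intro k x
    refine HF_of_finite hG _ (TL_finite (M := M) m (k + 1)) ?_ ?_
    · intro u hu
      obtain ⟨z, rfl⟩ := mem_TL_succ.1 hu
      exact ⟨_, rfl⟩
    · intro u hu
      obtain ⟨z, rfl⟩ := mem_TL_succ.1 hu
      exact ih _ _

theorem HF_nA [Countable M] {G : Set ZFSet.{0}} {F : ℕ → M} (hF : Branch G F) (N₀ n : ℕ) :
    HF G (val G (nA N₀ (nat n))) := by
  have hone : one ∈ G := (hF.sc F 0).2 (fun i hi => absurd hi (Nat.not_lt_zero i))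
  refine HF_of_finite hone _ (TL_finite (M := M) (n + N₀) (n + 1)) ?_ ?_
  · intro u hu
    obtain ⟨z, -, rfl⟩ := (mem_val_nA hF N₀ n).1 hu
    exact ⟨_, rfl⟩
  · intro u hu
    obtain ⟨z, -, rfl⟩ := (mem_val_nA hF N₀ n).1 hu
    exact HF_TL hone _ _ _

theorem HF_nB [Countable M] {G : Set ZFSet.{0}} {F : ℕ → M} (hF : Branch G F) (N₀ n : ℕ) :
    HF G (val G (nB N₀ (nat n))) := by
  have hone : one ∈ G := (hF.sc F 0).2 (fun i hi => absurd hi (Nat.not_lt_zero i))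
  refine HF_of_finite hone _ (TL_finite (M := M) (n + N₀) (n + 1)) ?_ ?_
  · intro u hu
    obtain ⟨z, rfl⟩ := (mem_val_nB hF N₀ n).1 hu
    exact ⟨_, rfl⟩
  · intro u hu
    obtain ⟨z, rfl⟩ := (mem_val_nB hF N₀ n).1 hu
    exact HF_TL hone _ _ _

/-! ### The name for the set of all doubletons of hereditarily finite sets -/

/-- The name for the set of all `{a, b}` with `a ≠ b` hereditarily finite. -/
noncomputable def dub : ZFSet.{0} :=
  ZFSet.sUnion (im DS (fun σ => im (ZFSet.sep (fun τ => τ ≠ σ) DS)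
    (fun τ => ZFSet.pair (nup σ τ) one)))

theorem mem_dub {z : ZFSet.{0}} :
    z ∈ dub ↔ ∃ σ ∈ DS, ∃ τ ∈ DS, τ ≠ σ ∧ ZFSet.pair (nup σ τ) one = z := by
  rw [dub, ZFSet.mem_sUnion]
  constructor
  · rintro ⟨w, hw, hz⟩
    obtain ⟨σ, hσ, rfl⟩ := mem_im.1 hw
    obtain ⟨τ, hτ, rfl⟩ := mem_im.1 hz
    obtain ⟨h1, h2⟩ := ZFSet.mem_sep.1 hτ
    exact ⟨σ, hσ, τ, h1, h2, rfl⟩
  · rintro ⟨σ, hσ, τ, hτ, hne, rfl⟩
    exact ⟨_, mem_im.2 ⟨σ, hσ, rfl⟩, mem_im.2 ⟨τ, ZFSet.mem_sep.2 ⟨hτ, hne⟩, rfl⟩⟩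

theorem AbsF.cDub {n : ℕ} : AbsF (fun _ : Fin n → ZFSet.{0} => dub) := by
  unfold dub
  refine AbsF.sUnion (AbsF.img (h := fun _ σ => im (ZFSet.sep (fun τ => τ ≠ σ) DS)
    (fun τ => ZFSet.pair (Pool.Agent.Lib.MP_1a1aec_lc.nup σ τ) one)) AbsF.cDS ?_)
  refine AbsF.img (f := fun v => ZFSet.sep (fun τ => τ ≠ v 0) DS)
    (h := fun v τ => ZFSet.pair (Pool.Agent.Lib.MP_1a1aec_lc.nup (v 0) τ) one) ?_ ?_
  · refine AbsF.sep (R := fun v τ => τ ≠ v 0) AbsF.cDS ?_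
    exact (AbsP.eq (AbsF.proj 0) (AbsF.proj _)).not
  · exact AbsF.opair (AbsF.nup (AbsF.proj _) (AbsF.proj _)) AbsF.cOne

theorem isName_dub {P : Set ZFSet.{0}} (h1 : one ∈ P) : IsName P dub := by
  rw [isName_iff]
  intro z hz
  obtain ⟨σ, hσ, τ, hτ, -, rfl⟩ := mem_dub.1 hz
  exact ⟨_, _, rfl, h1, IsName.up h1 (isName_DS h1 σ hσ) (isName_DS h1 τ hτ)⟩

theorem mem_val_dub {G : Set ZFSet.{0}} (hG : one ∈ G) {u : ZFSet.{0}} :
    u ∈ val G dub ↔ ∃ a b, HF G a ∧ HF G b ∧ a ≠ b ∧ u = {a, b} := by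
  rw [mem_val]
  constructor
  · rintro ⟨ρ, p, -, h, rfl⟩
    obtain ⟨σ, hσ, τ, hτ, hne, h2⟩ := mem_dub.1 h
    obtain ⟨rfl, -⟩ := ZFSet.pair_inj.1 h2
    refine ⟨val G σ, val G τ, ⟨σ, hσ, rfl⟩, ⟨τ, hτ, rfl⟩, ?_, val_nup hG σ τ⟩
    intro heq
    exact hne (val_inj_DS hG σ hσ τ hτ heq).symm
  · rintro ⟨a, b, ⟨σ, hσ, rfl⟩, ⟨τ, hτ, rfl⟩, hne, rfl⟩
    refine ⟨nup σ τ, one, hG, mem_dub.2 ⟨σ, hσ, τ, hτ, ?_, rfl⟩, val_nup hG σ τ⟩
    rintro rfl
    exact hne rfl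

/-- The left name. -/
noncomputable def sigD : ZFSet.{0} := sig N0 ∪ dub

/-- A name for the singleton of the value of `dub`. -/
noncomputable def sdub : ZFSet.{0} := nup dub dub

theorem dub_mem (hM : TM M) : dub ∈ M :=
  (AbsF.cDub (n := 0)).closed M hM (fun i => i.elim0) (fun i => i.elim0)

theorem sigD_mem (hM : TM M) : sigD ∈ M :=
  (AbsF.union (AbsF.cSig N0) AbsF.cDub).closed M hM (fun i => i.elim0) (fun i => i.elim0)

theorem sdub_mem (hM : TM M) : sdub ∈ M :=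
  (AbsF.nup (AbsF.cDub (n := 0)) AbsF.cDub).closed M hM (fun i => i.elim0) (fun i => i.elim0)

theorem one_mem_P (hM : TM M) : one ∈ Q.P M :=
  sc_mem_P hM (fun _ => ⟨∅, hM.empty_mem⟩) 0

theorem isName_sigD (hM : TM M) : IsName (Q.P M) sigD := by
  rw [isName_iff]
  intro z hz
  rcases ZFSet.mem_union.1 hz with h | h
  · exact isName_iff.1 (isName_sig hM N0) z h
  · exact isName_iff.1 (isName_dub (one_mem_P hM)) z h

theorem isName_sdub (hM : TM M) : IsName (Q.P M) sdub :=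
  IsName.up (one_mem_P hM) (isName_dub (one_mem_P hM)) (isName_dub (one_mem_P hM))

/-- The values of the two names are equal if and only if no initial segment is bad. -/
theorem val_eq_iff [Countable M] {G : Set ZFSet.{0}} {F : ℕ → M} (hF : Branch G F) :
    val G sigD = val G dub ↔ ∀ n, ¬ Bad N0 F n := by
  have hone : one ∈ G := (hF.sc F 0).2 (fun i hi => absurd hi (Nat.not_lt_zero i))
  rw [sigD, val_union]
  constructor
  · intro h n hbad
    have hz : val G (nup (nA N0 (nat n)) (nB N0 (nat n))) ∈ val G (sig N0) :=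
      mem_val.2 ⟨_, one, hone, mem_im.2 ⟨nat n, nat_mem_om n, rfl⟩, rfl⟩
    have hz' : val G (nup (nA N0 (nat n)) (nB N0 (nat n))) ∈ val G dub := by
      rw [← h]
      exact ZFSet.mem_union.2 (Or.inl hz)
    rw [val_nup hone, (val_nA_eq_iff hF N0 n).2 hbad] at hz'
    obtain ⟨a, b, -, -, hab, h2⟩ := (mem_val_dub hone).1 hz'
    have ha : a ∈ ({val G (nB N0 (nat n)), val G (nB N0 (nat n))} : ZFSet.{0}) := by
      rw [h2]
      exact ZFSet.mem_pair.2 (Or.inl rfl)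
    have hb : b ∈ ({val G (nB N0 (nat n)), val G (nB N0 (nat n))} : ZFSet.{0}) := by
      rw [h2]
      exact ZFSet.mem_pair.2 (Or.inr rfl)
    rw [ZFSet.mem_pair, or_self] at ha hb
    exact hab (ha.trans hb.symm)
  · intro h
    ext u
    rw [ZFSet.mem_union]
    refine ⟨?_, Or.inr⟩
    rintro (hu | hu)
    · obtain ⟨τ, p, -, h1, rfl⟩ := mem_val.1 hu
      obtain ⟨n', hn', h3⟩ := mem_im.1 h1
      obtain ⟨n, rfl⟩ := mem_om.1 hn'
      obtain ⟨rfl, rfl⟩ := ZFSet.pair_inj.1 h3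
      rw [mem_val_dub hone]
      refine ⟨_, _, HF_nA hF N0 n, HF_nB hF N0 n, ?_, val_nup hone _ _⟩
      intro heq
      exact h n ((val_nA_eq_iff hF N0 n).1 heq)
    · exact hu

/-- The formula `v₀ = v₁`. -/
def eqF : LSet.Formula (Fin 2) := Term.equal (Term.var 0) (Term.var 1)

/-- The formula `v₀ ∈ v₁`. -/
def memF : LSet.Formula (Fin 2) := Relations.formula₂ memR (Term.var 0) (Term.var 1)

/-- The general scheme: a formula that says that no initial segment of the branch is bad. -/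
theorem truthLemma_fails_of {n : ℕ} {M : Set ZFSet.{0}} (hM : IsCTM M)
    (ψ : LSet.Formula (Fin n)) (σ : Fin n → Q.Name M)
    (hψ : ∀ [Countable M] (G : Set ZFSet.{0}) (F : ℕ → M), Branch G F →
      (Q.Holds M G ψ σ ↔ ∀ n, ¬ Bad N0 F n)) : ¬ Q.TruthLemma M ψ := by
  have : Countable M := hM.countable
  have hTM := hM.tm
  intro hTL
  let e : M := ⟨∅, hTM.empty_mem⟩
  -- the good generic filter
  obtain ⟨G, hG, -, hGgood⟩ := exists_generic hM Good
    (fun x k hx D hD hDP hDd => good_extend hTM x k hx D hD hDP hDd) (fun _ => e) 0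
    (fun n hn => absurd hn (Nat.not_lt_zero n))
  obtain ⟨F, hF⟩ := exists_branch hTM hG
  have hFgood : ∀ n, ¬ Bad N0 F n := by
    intro n
    obtain ⟨y, l, hl, hy, hyG⟩ := hGgood (n + 1)
    have hyF := (hF.sc y l).1 hyG
    rw [← bad_congr (x := y) (fun i hi => hyF i (by omega))]
    exact hy n (by omega)
  obtain ⟨p, hpG, hp⟩ := hTL σ G hG ((hψ G F hF).2 hFgood)
  -- a bad extension of `p`
  obtain ⟨r, hr, h1, h2⟩ := hG.directed p hpG _ ((hF.sc F 0).2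
    (fun i hi => absurd hi (Nat.not_lt_zero i)))
  obtain ⟨y, l, rfl, -, -⟩ := below_sc hTM (hG.subset hr) h2
  obtain ⟨c, hc⟩ := exists_bad hTM N0 y l
  obtain ⟨G', hG', hq, -⟩ := exists_generic hM (fun _ _ => True)
    (by
      intro x k _ D _ hDP hDd
      obtain ⟨d, hd, hd'⟩ := hDd _ (sc_mem_P hTM x (k + 1))
      obtain ⟨z, m, rfl, hm, hz⟩ := below_sc hTM (hDP hd) hd'
      exact ⟨z, m, by omega, fun i hi => hz i (by omega), trivial, hd⟩)
    (Function.update y l c) (l + 1) trivial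
  have hpG' : p ∈ G' := by
    refine hG'.upward _ hq p (hG.subset hpG) ?_
    refine (isPartialOrder hTM).trans _ (sc_mem_P hTM _ _) _ (sc_mem_P hTM y l) _
      (hG.subset hpG) ?_ h1
    refine (le_sc_sc hTM).2 ⟨by omega, fun i hi => ?_⟩
    rw [Function.update_of_ne (by omega)]
  obtain ⟨F', hF'⟩ := exists_branch hTM hG'
  have h3 := (hψ G' F' hF').1 (hp G' hG' hpG') l
  have h4 := (hF'.sc _ _).1 hq
  rw [← bad_congr (x := Function.update y l c) (fun i hi => h4 i (by omega))] at h3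
  exact h3 hc

/-- The truth lemma fails for `v₀ = v₁`. -/
theorem truthLemma_eq_fails {M : Set ZFSet.{0}} (hM : IsCTM M) : ¬ Q.TruthLemma M eqF := by
  refine truthLemma_fails_of hM eqF
    ![⟨sigD, sigD_mem hM.tm, isName_sigD hM.tm⟩,
      ⟨dub, dub_mem hM.tm, isName_dub (one_mem_P hM.tm)⟩] ?_
  intro _ G F hF
  rw [← val_eq_iff hF]
  unfold Notion.Holds eqF
  rw [Formula.realize_equal]
  exact Subtype.ext_iff

/-- The truth lemma fails for `v₀ ∈ v₁`. -/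
theorem truthLemma_mem_fails {M : Set ZFSet.{0}} (hM : IsCTM M) : ¬ Q.TruthLemma M memF := by
  refine truthLemma_fails_of hM memF
    ![⟨sigD, sigD_mem hM.tm, isName_sigD hM.tm⟩, ⟨sdub, sdub_mem hM.tm, isName_sdub hM.tm⟩] ?_
  intro _ G F hF
  have hone : one ∈ G := (hF.sc F 0).2 (fun i hi => absurd hi (Nat.not_lt_zero i))
  rw [← val_eq_iff hF]
  unfold Notion.Holds memF
  rw [Formula.realize_rel₂, relMap_memR]
  show val G sigD ∈ val G sdub ↔ _
  rw [sdub, val_nup hone, ZFSet.mem_pair, or_self]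

end Pool.Agent.Lib.MP_1a1aec_lc
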