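import Pool.Agent.Lib.MP_1a1aec_lc.Defs

/-!
A small calculus of absolute relations and functions for transitive models of ZFC.
-/

open FirstOrder FirstOrder.Language

namespace Pool.Agent.Lib.MP_1a1aec_lc

/-- `M` is a transitive model of ZFC. -/
structure TM (M : Set ZFSet.{0}) : Prop where
  trans : ∀ x ∈ M, ∀ y ∈ x, y ∈ M
  zfc : ModelsZFC M

theorem IsCTM.tm {M : Set ZFSet.{0}} (h : IsCTM M) : TM M := ⟨h.transitive, h.zfc⟩

/-- Relations with a uniform (parameter free) first-order definition, absolute for transitive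
models of ZFC. -/
def AbsP {n : ℕ} (R : (Fin n → ZFSet.{0}) → Prop) : Prop :=
  ∃ φ : LSet.Formula (Fin n), ∀ M : Set ZFSet.{0}, TM M → ∀ v : Fin n → M,
    φ.Realize v ↔ R (fun i => (v i).1)

/-- Functions which have an absolute graph and under which transitive models are closed. -/
structure AbsF {n : ℕ} (f : (Fin n → ZFSet.{0}) → ZFSet.{0}) : Prop where
  closed : ∀ M : Set ZFSet.{0}, TM M → ∀ v : Fin n → ZFSet.{0}, (∀ i, v i ∈ M) → f v ∈ M
  graph : AbsP (fun w : Fin (n + 1) → ZFSet.{0} => w 0 = f (fun i => w i.succ))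

theorem AbsP.congr {n : ℕ} {R S : (Fin n → ZFSet.{0}) → Prop} (h : AbsP R)
    (hRS : ∀ v, S v ↔ R v) : AbsP S := by
  obtain ⟨φ, hφ⟩ := h
  exact ⟨φ, fun M hM v => (hφ M hM v).trans (hRS _).symm⟩

/-- The membership symbol. -/
def memR : LSet.Relations 2 := MemSymb.mem

theorem relMap_memR {N : Set ZFSet.{0}} (v : Fin 2 → N) :
    Structure.RelMap memR v ↔ (v 0).1 ∈ (v 1).1 := Iff.rfl

theorem AbsP.memVar {n : ℕ} (i j : Fin n) : AbsP (fun v : Fin n → ZFSet.{0} => v i ∈ v j) := by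
  refine ⟨Relations.formula₂ memR (Term.var i) (Term.var j), ?_⟩
  intro M _ v
  rw [Formula.realize_rel₂, relMap_memR]
  rfl

theorem AbsP.eqVar {n : ℕ} (i j : Fin n) : AbsP (fun v : Fin n → ZFSet.{0} => v i = v j) := by
  refine ⟨Term.equal (Term.var i) (Term.var j), ?_⟩
  intro M _ v
  rw [Formula.realize_equal]
  exact Subtype.ext_iff

theorem AbsP.not {n : ℕ} {R : (Fin n → ZFSet.{0}) → Prop} (h : AbsP R) :
    AbsP (fun v => ¬ R v) := by
  obtain ⟨φ, hφ⟩ := h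
  exact ⟨∼φ, fun M hM v => by rw [Formula.realize_not, hφ M hM]⟩

theorem AbsP.and {n : ℕ} {R S : (Fin n → ZFSet.{0}) → Prop} (h : AbsP R) (h' : AbsP S) :
    AbsP (fun v => R v ∧ S v) := by
  obtain ⟨φ, hφ⟩ := h
  obtain ⟨ψ, hψ⟩ := h'
  exact ⟨φ ⊓ ψ, fun M hM v => by rw [Formula.realize_inf, hφ M hM, hψ M hM]⟩

theorem AbsP.or {n : ℕ} {R S : (Fin n → ZFSet.{0}) → Prop} (h : AbsP R) (h' : AbsP S) :
    AbsP (fun v => R v ∨ S v) := by
  obtain ⟨φ, hφ⟩ := h
  obtain ⟨ψ, hψ⟩ := h'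
  exact ⟨φ ⊔ ψ, fun M hM v => by rw [Formula.realize_sup, hφ M hM, hψ M hM]⟩

theorem AbsP.imp {n : ℕ} {R S : (Fin n → ZFSet.{0}) → Prop} (h : AbsP R) (h' : AbsP S) :
    AbsP (fun v => R v → S v) := by
  obtain ⟨φ, hφ⟩ := h
  obtain ⟨ψ, hψ⟩ := h'
  exact ⟨φ.imp ψ, fun M hM v => by rw [Formula.realize_imp, hφ M hM, hψ M hM]⟩

theorem AbsP.iff {n : ℕ} {R S : (Fin n → ZFSet.{0}) → Prop} (h : AbsP R) (h' : AbsP S) :
    AbsP (fun v => R v ↔ S v) := by
  obtain ⟨φ, hφ⟩ := h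
  obtain ⟨ψ, hψ⟩ := h'
  exact ⟨φ.iff ψ, fun M hM v => by rw [Formula.realize_iff, hφ M hM, hψ M hM]⟩

theorem AbsP.true {n : ℕ} : AbsP (fun _ : Fin n → ZFSet.{0} => True) :=
  ⟨⊤, fun M _ v => by simp [Formula.Realize]⟩

/-- Renaming of variables. -/
theorem AbsP.reindex {m n : ℕ} {R : (Fin m → ZFSet.{0}) → Prop} (h : AbsP R)
    (g : Fin m → Fin n) : AbsP (fun v : Fin n → ZFSet.{0} => R (fun i => v (g i))) := by
  obtain ⟨φ, hφ⟩ := h
  exact ⟨φ.relabel g, fun M hM v => by rw [Formula.realize_relabel, hφ M hM]; rfl⟩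

/-- Unbounded existential quantifier over the model. -/
theorem exists_formula {n : ℕ} (φ : LSet.Formula (Fin (n + 1))) :
    ∃ ψ : LSet.Formula (Fin n), ∀ (M : Set ZFSet.{0}) (v : Fin n → M),
      ψ.Realize v ↔ ∃ a : M, φ.Realize (Fin.cons a v) := by
  refine ⟨(φ.relabel (Fin.cases (Sum.inr 0) Sum.inl : Fin (n + 1) → Fin n ⊕ Fin 1)).iExs (Fin 1),
    ?_⟩
  intro M v
  rw [Formula.realize_iExs]
  have key : ∀ i : Fin 1 → M,
      (Sum.elim v i ∘ (Fin.cases (Sum.inr 0) Sum.inl : Fin (n + 1) → Fin n ⊕ Fin 1)) =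
        Fin.cons (i 0) v := by
    intro i
    funext j
    refine Fin.cases ?_ (fun k => ?_) j <;> simp
  constructor
  · rintro ⟨i, hi⟩
    rw [Formula.realize_relabel, key] at hi
    exact ⟨i 0, hi⟩
  · rintro ⟨a, ha⟩
    refine ⟨fun _ => a, ?_⟩
    rw [Formula.realize_relabel, key]
    exact ha

theorem consval {n : ℕ} {M : Set ZFSet.{0}} (a : M) (v : Fin n → M) :
    (fun i => ((Fin.cons a v : Fin (n + 1) → M) i).1) =
      (Fin.cons a.1 (fun i => (v i).1) : Fin (n + 1) → ZFSet.{0}) := by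
  funext j
  refine Fin.cases ?_ (fun k => ?_) j <;> simp

/-- Existential quantification when witnesses can be found inside transitive models. -/
theorem AbsP.exM {n : ℕ} {R : (Fin n → ZFSet.{0}) → ZFSet.{0} → Prop}
    (h : AbsP (fun w : Fin (n + 1) → ZFSet.{0} => R (fun i => w i.succ) (w 0)))
    (hc : ∀ M : Set ZFSet.{0}, TM M → ∀ v : Fin n → ZFSet.{0}, (∀ i, v i ∈ M) →
      ∀ z, R v z → ∃ z' ∈ M, R v z') :
    AbsP (fun v => ∃ z, R v z) := by
  obtain ⟨φ, hφ⟩ := h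
  obtain ⟨ψ, hψ⟩ := exists_formula φ
  refine ⟨ψ, fun M hM v => ?_⟩
  rw [hψ]
  constructor
  · rintro ⟨a, ha⟩
    rw [hφ M hM] at ha
    exact ⟨a.1, by simpa using ha⟩
  · rintro ⟨z, hz⟩
    obtain ⟨z', hz', h'⟩ := hc M hM _ (fun i => (v i).2) z hz
    refine ⟨⟨z', hz'⟩, ?_⟩
    rw [hφ M hM]
    simpa using h'

/-- Composition with an absolute function. -/
theorem AbsP.subst {n : ℕ} {R : (Fin n → ZFSet.{0}) → ZFSet.{0} → Prop}
    {f : (Fin n → ZFSet.{0}) → ZFSet.{0}} (hf : AbsF f)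
    (h : AbsP (fun w : Fin (n + 1) → ZFSet.{0} => R (fun i => w i.succ) (w 0))) :
    AbsP (fun v => R v (f v)) := by
  have h1 : AbsP (fun v : Fin n → ZFSet.{0} => ∃ z, z = f v ∧ R v z) := by
    refine AbsP.exM (R := fun v z => z = f v ∧ R v z) (AbsP.and hf.graph h) ?_
    rintro M hM v hv z ⟨rfl, hz⟩
    exact ⟨_, hf.closed M hM v hv, rfl, hz⟩
  refine h1.congr (fun v => ?_)
  constructor
  · intro h; exact ⟨_, rfl, h⟩
  · rintro ⟨z, rfl, h⟩; exact h

theorem AbsF.proj {n : ℕ} (i : Fin n) : AbsF (fun v : Fin n → ZFSet.{0} => v i) :=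
  ⟨fun _ _ _ hv => hv i, AbsP.eqVar 0 i.succ⟩

theorem AbsF.reindex {m n : ℕ} {f : (Fin m → ZFSet.{0}) → ZFSet.{0}} (h : AbsF f)
    (g : Fin m → Fin n) : AbsF (fun v : Fin n → ZFSet.{0} => f (fun i => v (g i))) := by
  refine ⟨fun M hM v hv => h.closed M hM _ (fun i => hv (g i)), ?_⟩
  have := h.graph.reindex (Fin.cases 0 (fun i => (g i).succ) : Fin (m + 1) → Fin (n + 1))
  simpa using this

/-- Weakening: a function of the old variables is a function of more variables. -/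
theorem AbsF.weak {n : ℕ} {f : (Fin n → ZFSet.{0}) → ZFSet.{0}} (h : AbsF f) :
    AbsF (fun w : Fin (n + 1) → ZFSet.{0} => f (fun i => w i.succ)) :=
  h.reindex Fin.succ

theorem AbsP.weak {n : ℕ} {R : (Fin n → ZFSet.{0}) → Prop} (h : AbsP R) :
    AbsP (fun w : Fin (n + 1) → ZFSet.{0} => R (fun i => w i.succ)) :=
  h.reindex Fin.succ

theorem AbsP.mem {n : ℕ} {f g : (Fin n → ZFSet.{0}) → ZFSet.{0}} (hf : AbsF f) (hg : AbsF g) :
    AbsP (fun v => f v ∈ g v) := by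
  refine AbsP.subst (R := fun v z => z ∈ g v) hf ?_
  refine AbsP.subst (R := fun w z => w 0 ∈ z) hg.weak ?_
  exact AbsP.memVar (Fin.succ 0) 0

theorem AbsP.eq {n : ℕ} {f g : (Fin n → ZFSet.{0}) → ZFSet.{0}} (hf : AbsF f) (hg : AbsF g) :
    AbsP (fun v => f v = g v) := by
  refine AbsP.subst (R := fun v z => z = g v) hf ?_
  refine AbsP.subst (R := fun w z => w 0 = z) hg.weak ?_
  exact AbsP.eqVar (Fin.succ 0) 0

/-- Bounded existential quantifier. -/
theorem AbsP.bex {n : ℕ} {f : (Fin n → ZFSet.{0}) → ZFSet.{0}}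
    {R : (Fin n → ZFSet.{0}) → ZFSet.{0} → Prop} (hf : AbsF f)
    (h : AbsP (fun w : Fin (n + 1) → ZFSet.{0} => R (fun i => w i.succ) (w 0))) :
    AbsP (fun v => ∃ z ∈ f v, R v z) := by
  refine AbsP.exM (R := fun v z => z ∈ f v ∧ R v z)
    (AbsP.and (AbsP.mem (AbsF.proj 0) hf.weak) h) ?_
  rintro M hM v hv z ⟨hz, hR⟩
  exact ⟨z, hM.trans _ (hf.closed M hM v hv) z hz, hz, hR⟩

/-- Bounded universal quantifier. -/
theorem AbsP.ball {n : ℕ} {f : (Fin n → ZFSet.{0}) → ZFSet.{0}}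
    {R : (Fin n → ZFSet.{0}) → ZFSet.{0} → Prop} (hf : AbsF f)
    (h : AbsP (fun w : Fin (n + 1) → ZFSet.{0} => R (fun i => w i.succ) (w 0))) :
    AbsP (fun v => ∀ z ∈ f v, R v z) := by
  refine (AbsP.bex (R := fun v z => ¬ R v z) hf h.not).not.congr (fun v => ?_)
  push Not
  rfl

/-- A function whose membership relation is absolute and under which transitive models are
closed is absolute. -/
theorem AbsF.of_mem {n : ℕ} {f : (Fin n → ZFSet.{0}) → ZFSet.{0}}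
    (hc : ∀ M : Set ZFSet.{0}, TM M → ∀ v : Fin n → ZFSet.{0}, (∀ i, v i ∈ M) → f v ∈ M)
    (h : AbsP (fun w : Fin (n + 1) → ZFSet.{0} => w 0 ∈ f (fun i => w i.succ))) : AbsF f := by
  refine ⟨hc, ?_⟩
  have h0 : AbsP (fun w : Fin (n + 1) → ZFSet.{0} =>
      ∃ z, ¬ (z ∈ w 0 ↔ z ∈ f (fun i => w i.succ))) := by
    refine AbsP.exM (R := fun w z => ¬ (z ∈ w 0 ↔ z ∈ f (fun i => w i.succ))) ?_ ?_
    · refine (AbsP.iff (AbsP.memVar 0 (Fin.succ 0)) ?_).not
      exact (h.reindex (Fin.cases 0 (fun i => i.succ.succ) : Fin (n + 1) → Fin (n + 2)))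
    · intro M hM v hv z hz
      refine ⟨z, ?_, hz⟩
      by_cases h1 : z ∈ v 0
      · exact hM.trans _ (hv 0) z h1
      · have h2 : z ∈ f (fun i => v i.succ) := by
          by_contra h2
          exact hz ⟨fun h => absurd h h1, fun h => absurd h h2⟩
        exact hM.trans _ (hc M hM _ (fun i => hv i.succ)) z h2
  refine h0.not.congr (fun w => ?_)
  constructor
  · intro h; rw [h]; simp
  · intro h
    push Not at h
    exact ZFSet.ext h

end Pool.Agent.Lib.MP_1a1aec_lc
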