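import Pool.Agent.Lib.MP_1a1aec_lc.Calc

/-!
Absolute functions: pairs, unions, separation, replacement, natural numbers.
-/

open FirstOrder FirstOrder.Language

namespace Pool.Agent.Lib.MP_1a1aec_lc

/-- `{F z : z ∈ A}` -/
noncomputable def im (A : ZFSet.{0}) (F : ZFSet.{0} → ZFSet.{0}) : ZFSet.{0} :=
  ZFSet.range (fun z : {z // z ∈ A} => F z.1)

@[simp] theorem mem_im {A : ZFSet.{0}} {F : ZFSet.{0} → ZFSet.{0}} {u : ZFSet.{0}} :
    u ∈ im A F ↔ ∃ z ∈ A, F z = u := by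
  simp [im]

theorem TM.mem_of_ext {M : Set ZFSet.{0}} (hM : TM M) {t : ZFSet.{0}} (ht : ∀ w ∈ t, w ∈ M)
    (h : ∃ z : M, ∀ w : M, w.1 ∈ z.1 ↔ w.1 ∈ t) : t ∈ M := by
  obtain ⟨z, hz⟩ := h
  have : z.1 = t := by
    ext w
    constructor
    · intro hw; exact (hz ⟨w, hM.trans _ z.2 _ hw⟩).1 hw
    · intro hw; exact (hz ⟨w, ht _ hw⟩).2 hw
  rw [← this]
  exact z.2

theorem TM.empty_mem {M : Set ZFSet.{0}} (hM : TM M) : (∅ : ZFSet.{0}) ∈ M := by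
  obtain ⟨x, ⟨e, he, -⟩, -⟩ := hM.zfc.infinity
  refine hM.mem_of_ext (by simp) ⟨e, fun w => ?_⟩
  simp [he w]

theorem TM.upair_mem {M : Set ZFSet.{0}} (hM : TM M) {x y : ZFSet.{0}} (hx : x ∈ M)
    (hy : y ∈ M) : ({x, y} : ZFSet.{0}) ∈ M := by
  refine hM.mem_of_ext ?_ ?_
  · intro w hw
    rcases ZFSet.mem_pair.1 hw with rfl | rfl <;> assumption
  · obtain ⟨z, hz⟩ := hM.zfc.pairing ⟨x, hx⟩ ⟨y, hy⟩
    exact ⟨z, fun w => by rw [hz, ZFSet.mem_pair, Subtype.ext_iff, Subtype.ext_iff]⟩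

theorem TM.sUnion_mem {M : Set ZFSet.{0}} (hM : TM M) {x : ZFSet.{0}} (hx : x ∈ M) :
    (ZFSet.sUnion x) ∈ M := by
  refine hM.mem_of_ext ?_ ?_
  · intro w hw
    obtain ⟨y, hy, hwy⟩ := ZFSet.mem_sUnion.1 hw
    exact hM.trans _ (hM.trans _ hx _ hy) _ hwy
  · obtain ⟨z, hz⟩ := hM.zfc.union ⟨x, hx⟩
    refine ⟨z, fun w => ?_⟩
    rw [hz, ZFSet.mem_sUnion]
    constructor
    · rintro ⟨y, h1, h2⟩; exact ⟨y.1, h1, h2⟩
    · rintro ⟨y, h1, h2⟩; exact ⟨⟨y, hM.trans _ hx _ h1⟩, h1, h2⟩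

theorem AbsF.cEmpty {n : ℕ} : AbsF (fun _ : Fin n → ZFSet.{0} => (∅ : ZFSet.{0})) := by
  refine AbsF.of_mem (fun M hM _ _ => hM.empty_mem) ?_
  exact (AbsP.true.not).congr (fun v => by simp)

theorem AbsF.upair {n : ℕ} {f g : (Fin n → ZFSet.{0}) → ZFSet.{0}} (hf : AbsF f)
    (hg : AbsF g) : AbsF (fun v => ({f v, g v} : ZFSet.{0})) := by
  refine AbsF.of_mem
    (fun M hM v hv => hM.upair_mem (hf.closed M hM v hv) (hg.closed M hM v hv)) ?_
  refine ((AbsP.eq (AbsF.proj 0) hf.weak).or (AbsP.eq (AbsF.proj 0) hg.weak)).congr ?_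
  intro w
  simp

theorem AbsF.sing {n : ℕ} {f : (Fin n → ZFSet.{0}) → ZFSet.{0}} (hf : AbsF f) :
    AbsF (fun v => ({f v} : ZFSet.{0})) := by
  have := AbsF.upair hf hf
  simpa using this

theorem AbsF.opair {n : ℕ} {f g : (Fin n → ZFSet.{0}) → ZFSet.{0}} (hf : AbsF f)
    (hg : AbsF g) : AbsF (fun v => ZFSet.pair (f v) (g v)) :=
  AbsF.upair (AbsF.sing hf) (AbsF.upair hf hg)

theorem AbsF.sUnion {n : ℕ} {f : (Fin n → ZFSet.{0}) → ZFSet.{0}} (hf : AbsF f) :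
    AbsF (fun v => ZFSet.sUnion (f v)) := by
  refine AbsF.of_mem (fun M hM v hv => hM.sUnion_mem (hf.closed M hM v hv)) ?_
  refine (AbsP.bex (R := fun w z => w 0 ∈ z) hf.weak
    (AbsP.memVar (Fin.succ 0) 0)).congr (fun w => ?_)
  rw [ZFSet.mem_sUnion]

theorem AbsF.union {n : ℕ} {f g : (Fin n → ZFSet.{0}) → ZFSet.{0}} (hf : AbsF f)
    (hg : AbsF g) : AbsF (fun v => f v ∪ g v) := by
  have := AbsF.sUnion (AbsF.upair hf hg)
  simpa using this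

theorem AbsF.ins {n : ℕ} {f g : (Fin n → ZFSet.{0}) → ZFSet.{0}} (hf : AbsF f)
    (hg : AbsF g) : AbsF (fun v => (Insert.insert (f v) (g v) : ZFSet.{0})) := by
  have := AbsF.union (AbsF.sing hf) hg
  simpa [ZFSet.insert_eq] using this

theorem AbsF.congr {n : ℕ} {f g : (Fin n → ZFSet.{0}) → ZFSet.{0}} (hf : AbsF f)
    (h : ∀ v, g v = f v) : AbsF g := by
  have : g = f := funext h
  rw [this]; exact hf

theorem AbsF.sep {n : ℕ} {f : (Fin n → ZFSet.{0}) → ZFSet.{0}}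
    {R : (Fin n → ZFSet.{0}) → ZFSet.{0} → Prop} (hf : AbsF f)
    (h : AbsP (fun w : Fin (n + 1) → ZFSet.{0} => R (fun i => w i.succ) (w 0))) :
    AbsF (fun v => ZFSet.sep (R v) (f v)) := by
  refine AbsF.of_mem ?_ ?_
  · intro M hM v hv
    have hfv := hf.closed M hM v hv
    obtain ⟨φ, hφ⟩ := h
    refine hM.mem_of_ext ?_ ?_
    · intro w hw
      exact hM.trans _ hfv _ (ZFSet.mem_sep.1 hw).1
    · obtain ⟨y, hy⟩ := hM.zfc.separation n φ (fun i => ⟨v i, hv i⟩) ⟨f v, hfv⟩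
      refine ⟨y, fun w => ?_⟩
      rw [hy, ZFSet.mem_sep, hφ M hM]
      simp
  · refine (AbsP.and (AbsP.mem (AbsF.proj 0) hf.weak) h).congr (fun w => ?_)
    rw [ZFSet.mem_sep]

theorem AbsF.img {n : ℕ} {f : (Fin n → ZFSet.{0}) → ZFSet.{0}}
    {h : (Fin n → ZFSet.{0}) → ZFSet.{0} → ZFSet.{0}} (hf : AbsF f)
    (hh : AbsF (fun w : Fin (n + 1) → ZFSet.{0} => h (fun i => w i.succ) (w 0))) :
    AbsF (fun v => im (f v) (h v)) := by
  refine AbsF.of_mem ?_ ?_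
  · intro M hM v hv
    have hfv := hf.closed M hM v hv
    have hcl : ∀ z, z ∈ M → h v z ∈ M := by
      intro z hz
      have := hh.closed M hM (Fin.cons z v : Fin (n + 1) → ZFSet.{0})
        (by intro i; refine Fin.cases ?_ (fun k => ?_) i <;> simp [hz, hv])
      simpa using this
    obtain ⟨φ, hφ⟩ := hh.graph
    have key : ∀ y z : M, φ.Realize (Fin.cons y (Fin.cons z (fun i => (⟨v i, hv i⟩ : M)))) ↔
        y.1 = h v z.1 := by
      intro y z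
      rw [hφ M hM]
      simp only [Fin.cons_zero, Fin.cons_succ]
    refine hM.mem_of_ext ?_ ?_
    · intro w hw
      obtain ⟨z, hz, rfl⟩ := mem_im.1 hw
      exact hcl z (hM.trans _ hfv _ hz)
    · obtain ⟨b, hb⟩ := hM.zfc.replacement n φ (fun i => ⟨v i, hv i⟩) ⟨f v, hfv⟩ (by
        intro z _
        refine ⟨⟨h v z.1, hcl _ z.2⟩, (key _ _).2 rfl, ?_⟩
        intro y hy
        exact Subtype.ext ((key _ _).1 hy))
      refine ⟨b, fun w => ?_⟩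
      rw [hb, mem_im]
      constructor
      · rintro ⟨z, hz, hw⟩
        exact ⟨z.1, hz, ((key _ _).1 hw).symm⟩
      · rintro ⟨z, hz, hw⟩
        exact ⟨⟨z, hM.trans _ hfv _ hz⟩, hz, (key _ _).2 hw.symm⟩
  · refine (AbsP.bex (R := fun w z => h (fun i => w i.succ) z = w 0) hf.weak ?_).congr
      (fun w => mem_im)
    refine AbsP.eq ?_ (AbsF.proj (Fin.succ 0))
    exact hh.reindex (Fin.cases 0 (fun i => i.succ.succ) : Fin (n + 1) → Fin (n + 2))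

end Pool.Agent.Lib.MP_1a1aec_lc
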