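import Mathlib

/-!
Definitions for the problem on the truth lemma for class forcing:
the first-order language of set theory, countable transitive models of ZFC,
notions of class forcing, names and their evaluation, generic filters,
generic extensions, the (semantic) forcing relation and the truth lemma.
-/

open FirstOrder

namespace Pool.Agent.Lib.MP_1a1aec_lc

/-- The only non-logical symbol of the language of set theory: one binary relation symbol. -/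
inductive MemSymb : ℕ → Type
  | mem : MemSymb 2

/-- The first-order language of set theory. -/
def LSet : Language := ⟨fun _ => Empty, MemSymb⟩

/-- Every class `N` of sets is a structure for the language of set theory: the symbol is
interpreted as the real membership relation between members of `N`. -/
instance structOn (N : Set ZFSet.{0}) : LSet.Structure N where
  funMap := fun f => f.elim
  RelMap := fun {_} r => match r with
    | .mem => fun v => (v 0 : ZFSet.{0}) ∈ (v 1 : ZFSet.{0})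

/-- `M ⊨ ZFC`, spelled out axiom by axiom; all set quantifiers range over `M`, and the two
schemes run over all first-order formulas, with parameters `a` from `M`. -/
structure ModelsZFC (M : Set ZFSet.{0}) : Prop where
  extensionality : ∀ x y : M, (∀ z : M, z.1 ∈ x.1 ↔ z.1 ∈ y.1) → x = y
  foundation : ∀ x : M, (∃ y : M, y.1 ∈ x.1) →
    ∃ y : M, y.1 ∈ x.1 ∧ ¬ ∃ z : M, z.1 ∈ x.1 ∧ z.1 ∈ y.1
  pairing : ∀ x y : M, ∃ z : M, ∀ w : M, w.1 ∈ z.1 ↔ w = x ∨ w = y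
  union : ∀ x : M, ∃ u : M, ∀ w : M, w.1 ∈ u.1 ↔ ∃ y : M, y.1 ∈ x.1 ∧ w.1 ∈ y.1
  powerset : ∀ x : M, ∃ p : M, ∀ w : M, w.1 ∈ p.1 ↔ ∀ z : M, z.1 ∈ w.1 → z.1 ∈ x.1
  infinity : ∃ x : M, (∃ e : M, (∀ z : M, z.1 ∉ e.1) ∧ e.1 ∈ x.1) ∧
    ∀ y : M, y.1 ∈ x.1 → ∃ s : M, (∀ w : M, w.1 ∈ s.1 ↔ w.1 ∈ y.1 ∨ w = y) ∧ s.1 ∈ x.1
  separation : ∀ (n : ℕ) (φ : LSet.Formula (Fin (n + 1))) (a : Fin n → M) (x : M),
    ∃ y : M, ∀ z : M, z.1 ∈ y.1 ↔ z.1 ∈ x.1 ∧ φ.Realize (Fin.cons z a)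
  replacement : ∀ (n : ℕ) (φ : LSet.Formula (Fin (n + 2))) (a : Fin n → M) (x : M),
    (∀ z : M, z.1 ∈ x.1 → ∃! y : M, φ.Realize (Fin.cons y (Fin.cons z a))) →
    ∃ b : M, ∀ y : M, y.1 ∈ b.1 ↔
      ∃ z : M, z.1 ∈ x.1 ∧ φ.Realize (Fin.cons y (Fin.cons z a))
  choice : ∀ x : M, (∀ y : M, y.1 ∈ x.1 → ∃ z : M, z.1 ∈ y.1) →
    (∀ y y' z : M, y.1 ∈ x.1 → y'.1 ∈ x.1 → z.1 ∈ y.1 → z.1 ∈ y'.1 → y = y') →
    ∃ c : M, ∀ y : M, y.1 ∈ x.1 → ∃! z : M, z.1 ∈ y.1 ∧ z.1 ∈ c.1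

/-- `M` is a countable transitive model of ZFC. -/
structure IsCTM (M : Set ZFSet.{0}) : Prop where
  countable : M.Countable
  transitive : ∀ x ∈ M, ∀ y ∈ x, y ∈ M
  zfc : ModelsZFC M

/-- A class `D` is definable over `(M, ∈)`, parameters from `M` allowed. -/
def DefinableOver (M D : Set ZFSet.{0}) : Prop :=
  ∃ (n : ℕ) (φ : LSet.Formula (Fin (n + 1))) (a : Fin n → M),
    ∀ x : ZFSet.{0}, x ∈ D ↔ ∃ hx : x ∈ M, φ.Realize (Fin.cons (⟨x, hx⟩ : M) a)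

/-- A notion of class forcing, taken uniformly over all models: two formulas without
parameters, one for the domain and one for the ordering. -/
structure Notion where
  /-- formula `π(v₀)` : `v₀` is a condition -/
  dom : LSet.Formula (Fin 1)
  /-- formula `λ(v₀, v₁)` : `v₀ ≤ v₁` -/
  le : LSet.Formula (Fin 2)

/-- The class of conditions `P^M`. -/
def Notion.P (Q : Notion) (M : Set ZFSet.{0}) : Set ZFSet.{0} :=
  {x | ∃ hx : x ∈ M, Q.dom.Realize (fun _ => (⟨x, hx⟩ : M))}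

/-- The relation `≤` interpreted in `M`. -/
def Notion.leM (Q : Notion) (M : Set ZFSet.{0}) (x y : ZFSet.{0}) : Prop :=
  ∃ (hx : x ∈ M) (hy : y ∈ M), Q.le.Realize (![⟨x, hx⟩, ⟨y, hy⟩] : Fin 2 → M)

/-- The two formulas define over `M` a (nonempty) partial order. -/
structure Notion.IsPartialOrderOver (Q : Notion) (M : Set ZFSet.{0}) : Prop where
  nonempty : (Q.P M).Nonempty
  refl : ∀ p ∈ Q.P M, Q.leM M p p
  trans : ∀ p ∈ Q.P M, ∀ q ∈ Q.P M, ∀ r ∈ Q.P M, Q.leM M p q → Q.leM M q r → Q.leM M p r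
  antisymm : ∀ p ∈ Q.P M, ∀ q ∈ Q.P M, Q.leM M p q → Q.leM M q p → p = q

/-- `G` is a `P^M`-generic filter over `M`: a filter on `P^M` that meets every dense subset of
`P^M` which is definable over `M`. -/
structure Notion.IsGeneric (Q : Notion) (M G : Set ZFSet.{0}) : Prop where
  subset : G ⊆ Q.P M
  nonempty : G.Nonempty
  upward : ∀ p ∈ G, ∀ q ∈ Q.P M, Q.leM M p q → q ∈ G
  directed : ∀ p ∈ G, ∀ q ∈ G, ∃ r ∈ G, Q.leM M r p ∧ Q.leM M r q
  meets : ∀ D : Set ZFSet.{0}, DefinableOver M D → D ⊆ Q.P M →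
    (∀ p ∈ Q.P M, ∃ d ∈ D, Q.leM M d p) → ∃ d ∈ D, d ∈ G

theorem rank_fst_lt {τ p σ : ZFSet.{0}} (h : ZFSet.pair τ p ∈ σ) : τ.rank < σ.rank := by
  have h1 : τ.rank < (ZFSet.pair τ p).rank := by
    have ha : τ ∈ ({τ} : ZFSet.{0}) := ZFSet.mem_singleton.2 rfl
    have hb : ({τ} : ZFSet.{0}) ∈ ZFSet.pair τ p := by
      simp [ZFSet.pair]
    exact (ZFSet.rank_lt_of_mem ha).trans (ZFSet.rank_lt_of_mem hb)
  exact h1.trans (ZFSet.rank_lt_of_mem h)

/-- `σ` is a `P`-name: every element of `σ` is an ordered pair `(τ, p)` with `τ` a `P`-name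
and `p ∈ P`. -/
def IsName (P : Set ZFSet.{0}) (σ : ZFSet.{0}) : Prop :=
  ∀ z ∈ σ, ∃ τ p : ZFSet.{0}, ∃ _ : z = ZFSet.pair τ p, p ∈ P ∧ IsName P τ
termination_by σ.rank
decreasing_by
  rename_i hz hp
  subst hp
  exact rank_fst_lt hz

theorem small_of_pairs (G : Set ZFSet.{0}) (σ : ZFSet.{0}) :
    Small.{0} {τ : ZFSet.{0} // ∃ p ∈ G, ZFSet.pair τ p ∈ σ} := by
  have hs : Small.{0} ((ZFSet.sUnion (ZFSet.sUnion σ)) : ZFSet.{0}) := inferInstance
  refine small_of_injective (β := ((ZFSet.sUnion (ZFSet.sUnion σ)) : ZFSet.{0}))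
    (f := fun t => ⟨t.1, ?_⟩) ?_
  · obtain ⟨p, -, hp⟩ := t.2
    refine ZFSet.mem_sUnion.2 ⟨{t.1}, ZFSet.mem_sUnion.2 ⟨_, hp, ?_⟩, ZFSet.mem_singleton.2 rfl⟩
    simp [ZFSet.pair]
  · intro a b hab
    have h2 := congrArg Subtype.val hab
    exact Subtype.ext h2

instance (G : Set ZFSet.{0}) (σ : ZFSet.{0}) :
    Small.{0} {τ : ZFSet.{0} // ∃ p ∈ G, ZFSet.pair τ p ∈ σ} := small_of_pairs G σ

/-- The evaluation `σ^G = {τ^G : (τ, p) ∈ σ for some p ∈ G}`. -/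
noncomputable def val (G : Set ZFSet.{0}) (σ : ZFSet.{0}) : ZFSet.{0} :=
  ZFSet.range (fun τ : {τ : ZFSet.{0} // ∃ p ∈ G, ZFSet.pair τ p ∈ σ} => val G τ.1)
termination_by σ.rank
decreasing_by
  obtain ⟨p, -, hp⟩ := τ.2
  exact rank_fst_lt hp

/-- `M^P`, the collection of `P`-names lying in `M`, for `P = P^M`. -/
def Notion.Name (Q : Notion) (M : Set ZFSet.{0}) : Type 1 :=
  {σ : ZFSet.{0} // σ ∈ M ∧ IsName (Q.P M) σ}

/-- The generic extension `M[G] = {σ^G : σ ∈ M^P}`. -/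
def Notion.ext (Q : Notion) (M G : Set ZFSet.{0}) : Set ZFSet.{0} :=
  Set.range (fun σ : Q.Name M => val G σ.1)

/-- The tuple of evaluated names `(σ₀^G, …)`, as elements of `M[G]`. -/
noncomputable def Notion.evalTuple (Q : Notion) (M G : Set ZFSet.{0}) {n : ℕ}
    (σ : Fin n → Q.Name M) : Fin n → Q.ext M G :=
  fun i => ⟨val G (σ i).1, Set.mem_range_self (σ i)⟩

/-- `M[G] ⊨ φ(σ₀^G, …, σ_{n-1}^G)`. -/
def Notion.Holds (Q : Notion) (M G : Set ZFSet.{0}) {n : ℕ} (φ : LSet.Formula (Fin n))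
    (σ : Fin n → Q.Name M) : Prop :=
  φ.Realize (Q.evalTuple M G σ)

/-- `p ⊩^M_P φ(σ₀, …, σ_{n-1})`: the statement holds in `M[G]` for every generic `G ∋ p`. -/
def Notion.Forces (Q : Notion) (M : Set ZFSet.{0}) (p : ZFSet.{0}) {n : ℕ}
    (φ : LSet.Formula (Fin n)) (σ : Fin n → Q.Name M) : Prop :=
  ∀ G : Set ZFSet.{0}, Q.IsGeneric M G → p ∈ G → Q.Holds M G φ σ

/-- `P^M` satisfies the truth lemma for `φ` over `M`. -/
def Notion.TruthLemma (Q : Notion) (M : Set ZFSet.{0}) {n : ℕ} (φ : LSet.Formula (Fin n)) :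
    Prop :=
  ∀ (σ : Fin n → Q.Name M) (G : Set ZFSet.{0}), Q.IsGeneric M G → Q.Holds M G φ σ →
    ∃ p ∈ G, Q.Forces M p φ σ

end Pool.Agent.Lib.MP_1a1aec_lc
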