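import Pool.Agent.Lib.MP_1a1aec_lc.Main

/-!
There is a notion of class forcing (two parameter-free formulas) whose truth lemma fails over
every countable transitive model of ZFC. In fact one formula `φ(v₀)` works for all models.

All definitions used in the statement are in `Pool.Agent.Lib.MP_1a1aec_lc.Defs`.
-/

open FirstOrder FirstOrder.Language

namespace Pool.Agent.Lib.MP_1a1aec_lc

/-- `φ(v₀)`: every element of `v₀` has two distinct elements. -/
def phi : LSet.Formula (Fin 1) :=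
  BoundedFormula.all
    ((memR.boundedFormula₂ (Term.var (Sum.inr 0)) (Term.var (Sum.inl 0))).imp
      (BoundedFormula.ex (BoundedFormula.ex
        ((memR.boundedFormula₂ (Term.var (Sum.inr 1)) (Term.var (Sum.inr 0))) ⊓
          ((memR.boundedFormula₂ (Term.var (Sum.inr 2)) (Term.var (Sum.inr 0))) ⊓
            (Term.bdEqual (Term.var (Sum.inr 1)) (Term.var (Sum.inr 2))).not)))))

theorem realize_phi (N : Set ZFSet.{0}) (v : Fin 1 → N) :
    phi.Realize v ↔ ∀ z : N, z.1 ∈ (v 0).1 → ∃ a b : N, a.1 ∈ z.1 ∧ b.1 ∈ z.1 ∧ a ≠ b := by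
  simp only [phi, Formula.Realize, BoundedFormula.realize_all, BoundedFormula.realize_imp,
    BoundedFormula.realize_ex, BoundedFormula.realize_inf, BoundedFormula.realize_not,
    BoundedFormula.realize_rel₂, BoundedFormula.realize_bdEqual, Term.realize_var]
  exact Iff.rfl

theorem nup_nA_nB_mem {M : Set ZFSet.{0}} (hM : TM M) (n : ℕ) :
    nA N0 (nat n) ∈ M ∧ nB N0 (nat n) ∈ M ∧ nup (nA N0 (nat n)) (nB N0 (nat n)) ∈ M := by
  have h1 : ZFSet.pair (nup (nA N0 (nat n)) (nB N0 (nat n))) one ∈ sig N0 :=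
    mem_im.2 ⟨nat n, nat_mem_om n, rfl⟩
  have h2 := (hM.of_pair_mem (hM.trans _ (sig_mem hM N0) _ h1)).1
  have h3 : ZFSet.pair (nA N0 (nat n)) one ∈ nup (nA N0 (nat n)) (nB N0 (nat n)) := by
    simp [nup]
  have h4 : ZFSet.pair (nB N0 (nat n)) one ∈ nup (nA N0 (nat n)) (nB N0 (nat n)) := by
    simp [nup]
  exact ⟨(hM.of_pair_mem (hM.trans _ h2 _ h3)).1, (hM.of_pair_mem (hM.trans _ h2 _ h4)).1, h2⟩

theorem isName_of_pair_mem {P : Set ZFSet.{0}} {σ τ p : ZFSet.{0}} (h : IsName P σ)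
    (h2 : ZFSet.pair τ p ∈ σ) : IsName P τ := by
  obtain ⟨τ', p', h3, -, h4⟩ := isName_iff.1 h _ h2
  rw [(ZFSet.pair_inj.1 h3).1]
  exact h4

theorem isName_nA_nB {M : Set ZFSet.{0}} (hM : TM M) (n : ℕ) :
    IsName (Q.P M) (nA N0 (nat n)) ∧ IsName (Q.P M) (nB N0 (nat n)) ∧
      IsName (Q.P M) (nup (nA N0 (nat n)) (nB N0 (nat n))) := by
  have h1 : ZFSet.pair (nup (nA N0 (nat n)) (nB N0 (nat n))) one ∈ sig N0 :=
    mem_im.2 ⟨nat n, nat_mem_om n, rfl⟩
  have h2 := isName_of_pair_mem (isName_sig hM N0) h1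
  exact ⟨isName_of_pair_mem h2 (p := one) (by simp [nup]),
    isName_of_pair_mem h2 (p := one) (by simp [nup]), h2⟩

/-- In `M[G]`, the statement `φ(σ)` says that no initial segment of the branch is bad. -/
theorem holds_iff {M : Set ZFSet.{0}} (hM : IsCTM M) [Countable M] {G : Set ZFSet.{0}}
    {F : ℕ → M} (hF : Branch G F) :
    Q.Holds M G phi (fun _ => ⟨sig N0, sig_mem hM.tm N0, isName_sig hM.tm N0⟩) ↔
      ∀ n, ¬ Bad N0 F n := by
  have hone : one ∈ G := (hF.sc F 0).2 (fun i hi => absurd hi (Nat.not_lt_zero i))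
  unfold Notion.Holds
  rw [realize_phi]
  have hv : ((Q.evalTuple M G (n := 1)
    (fun _ => ⟨sig N0, sig_mem hM.tm N0, isName_sig hM.tm N0⟩)) 0).1 = val G (sig N0) := rfl
  rw [hv]
  constructor
  · intro h n hbad
    have hz : val G (nup (nA N0 (nat n)) (nB N0 (nat n))) ∈ val G (sig N0) :=
      mem_val.2 ⟨_, one, hone, mem_im.2 ⟨nat n, nat_mem_om n, rfl⟩, rfl⟩
    obtain ⟨a, b, ha, hb, hab⟩ := h ⟨val G (nup (nA N0 (nat n)) (nB N0 (nat n))),
      ⟨⟨_, (nup_nA_nB_mem hM.tm n).2.2, (isName_nA_nB hM.tm n).2.2⟩, rfl⟩⟩ hz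
    have ha' : a.1 ∈ val G (nup (nA N0 (nat n)) (nB N0 (nat n))) := ha
    have hb' : b.1 ∈ val G (nup (nA N0 (nat n)) (nB N0 (nat n))) := hb
    rw [val_nup hone, (val_nA_eq_iff hF N0 n).2 hbad, ZFSet.mem_pair, or_self] at ha' hb'
    exact hab (Subtype.ext (ha'.trans hb'.symm))
  · intro h z hz
    obtain ⟨τ, p, -, h1, h2⟩ := mem_val.1 hz
    obtain ⟨n', hn', h3⟩ := mem_im.1 h1
    obtain ⟨n, rfl⟩ := mem_om.1 hn'
    obtain ⟨rfl, rfl⟩ := ZFSet.pair_inj.1 h3
    rw [val_nup hone] at h2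
    refine ⟨⟨val G (nA N0 (nat n)),
        ⟨⟨_, (nup_nA_nB_mem hM.tm n).1, (isName_nA_nB hM.tm n).1⟩, rfl⟩⟩,
      ⟨val G (nB N0 (nat n)),
        ⟨⟨_, (nup_nA_nB_mem hM.tm n).2.1, (isName_nA_nB hM.tm n).2.1⟩, rfl⟩⟩, ?_, ?_, ?_⟩
    · rw [← h2]; exact ZFSet.mem_pair.2 (Or.inl rfl)
    · rw [← h2]; exact ZFSet.mem_pair.2 (Or.inr rfl)
    · intro heq
      exact h n ((val_nA_eq_iff hF N0 n).1 (congrArg Subtype.val heq))

theorem truthLemma_fails {M : Set ZFSet.{0}} (hM : IsCTM M) : ¬ Q.TruthLemma M phi := by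
  have : Countable M := hM.countable
  have hTM := hM.tm
  intro hTL
  let e : M := ⟨∅, hTM.empty_mem⟩
  -- the good generic filter
  obtain ⟨G, hG, -, hGgood⟩ := exists_generic hM Good
    (fun x k hx D hD hDP hDd => good_extend hTM x k hx D hD hDP hDd) (fun _ => e) 0
    (fun n hn => absurd hn (Nat.not_lt_zero n))
  obtain ⟨F, hF⟩ := exists_branch hTM hG
  have hFgood : ∀ n, ¬ Bad N0 F n := by
    intro n
    obtain ⟨y, l, hl, hy, hyG⟩ := hGgood (n + 1)
    have hyF := (hF.sc y l).1 hyG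
    rw [← bad_congr (x := y) (fun i hi => hyF i (by omega))]
    exact hy n (by omega)
  obtain ⟨p, hpG, hp⟩ := hTL _ G hG ((holds_iff hM hF).2 hFgood)
  -- a bad extension of `p`
  obtain ⟨r, hr, h1, h2⟩ := hG.directed p hpG _ ((hF.sc F 0).2
    (fun i hi => absurd hi (Nat.not_lt_zero i)))
  obtain ⟨y, l, rfl, -, -⟩ := below_sc hTM (hG.subset hr) h2
  obtain ⟨c, hc⟩ := exists_bad hTM N0 y l
  obtain ⟨G', hG', hq, -⟩ := exists_generic hM (fun _ _ => True)
    (by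
      intro x k _ D _ hDP hDd
      obtain ⟨d, hd, hd'⟩ := hDd _ (sc_mem_P hTM x (k + 1))
      obtain ⟨z, m, rfl, hm, hz⟩ := below_sc hTM (hDP hd) hd'
      exact ⟨z, m, by omega, fun i hi => hz i (by omega), trivial, hd⟩)
    (Function.update y l c) (l + 1) trivial
  have hpG' : p ∈ G' := by
    refine hG'.upward _ hq p (hG.subset hpG) ?_
    refine (isPartialOrder hTM).trans _ (sc_mem_P hTM _ _) _ (sc_mem_P hTM y l) _
      (hG.subset hpG) ?_ h1
    refine (le_sc_sc hTM).2 ⟨by omega, fun i hi => ?_⟩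
    rw [Function.update_of_ne (by omega)]
  obtain ⟨F', hF'⟩ := exists_branch hTM hG'
  have h3 := (holds_iff hM hF').1 (hp G' hG' hpG') l
  have h4 := (hF'.sc _ _).1 hq
  rw [← bad_congr (x := Function.update y l c) (fun i hi => h4 i (by omega))] at h3
  exact h3 hc

end Pool.Agent.Lib.MP_1a1aec_lc
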