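import Pool.Agent.Lib.MP_1a1aec_lc.Notion

/-!
Generic filters for the notion of class forcing.
-/

open FirstOrder FirstOrder.Language

namespace Pool.Agent.Lib.MP_1a1aec_lc

instance : Countable LSet.Symbols := by
  have h1 : ∀ l, Countable (LSet.Functions l) := fun l =>
    (inferInstance : Countable Empty)
  have h2 : ∀ l, Countable (LSet.Relations l) := by
    intro l
    have : Subsingleton (LSet.Relations l) := by
      constructor
      intro a b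
      cases a; cases b; rfl
    exact inferInstance
  have h3 : Countable (Σ l, LSet.Functions l) := inferInstance
  have h4 : Countable (Σ l, LSet.Relations l) := inferInstance
  exact (inferInstance : Countable ((Σ l, LSet.Functions l) ⊕ (Σ l, LSet.Relations l)))

theorem TM.pair_mem {M : Set ZFSet.{0}} (hM : TM M) {x y : ZFSet.{0}} (hx : x ∈ M)
    (hy : y ∈ M) : ZFSet.pair x y ∈ M := by
  have := (AbsF.opair (AbsF.proj (n := 2) 0) (AbsF.proj 1)).closed M hM ![x, y]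
    (by intro i; fin_cases i; exacts [hx, hy])
  exact this

theorem TM.insert_mem {M : Set ZFSet.{0}} (hM : TM M) {x y : ZFSet.{0}} (hx : x ∈ M)
    (hy : y ∈ M) : insert x y ∈ M := by
  have := (AbsF.ins (AbsF.proj (n := 2) 0) (AbsF.proj 1)).closed M hM ![x, y]
    (by intro i; fin_cases i; exacts [hx, hy])
  exact this

theorem TM.singleton_mem {M : Set ZFSet.{0}} (hM : TM M) {x : ZFSet.{0}} (hx : x ∈ M) :
    ({x} : ZFSet.{0}) ∈ M := by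
  have := (AbsF.sing (AbsF.proj (n := 1) 0)).closed M hM (fun _ => x) (fun _ => hx)
  exact this

theorem TM.code_mem {M : Set ZFSet.{0}} (hM : TM M) {x : ℕ → ZFSet.{0}} {k : ℕ}
    (hx : ∀ i < k, x i ∈ M) : code x k ∈ M := by
  induction k with
  | zero => exact hM.empty_mem
  | succ k ih =>
    exact hM.insert_mem (hM.pair_mem (hM.nat_mem k) (hx k (Nat.lt_succ_self k)))
      (ih (fun i hi => hx i (hi.trans (Nat.lt_succ_self k))))

theorem TM.of_pair_mem {M : Set ZFSet.{0}} (hM : TM M) {x y : ZFSet.{0}}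
    (h : ZFSet.pair x y ∈ M) : x ∈ M ∧ y ∈ M := by
  have h1 : ({x} : ZFSet.{0}) ∈ M := hM.trans _ h _ (by simp [ZFSet.pair])
  have h2 : ({x, y} : ZFSet.{0}) ∈ M := hM.trans _ h _ (by simp [ZFSet.pair])
  exact ⟨hM.trans _ h1 _ (by simp), hM.trans _ h2 _ (by simp)⟩

variable {M : Set ZFSet.{0}}

/-- The code of a finite sequence of members of `M`. -/
def cd (x : ℕ → M) (k : ℕ) : ZFSet.{0} := code (fun i => (x i).1) k

/-- The strong condition given by a finite sequence of members of `M`. -/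
def sc (x : ℕ → M) (k : ℕ) : ZFSet.{0} := SC (cd x k)

theorem cd_mem (hM : TM M) (x : ℕ → M) (k : ℕ) : cd x k ∈ M :=
  hM.code_mem (fun i _ => (x i).2)

theorem sc_mem_M (hM : TM M) (x : ℕ → M) (k : ℕ) : sc x k ∈ M :=
  hM.pair_mem hM.empty_mem (cd_mem hM x k)

theorem sc_mem_P (hM : TM M) (x : ℕ → M) (k : ℕ) : sc x k ∈ Q.P M :=
  (mem_P hM).2 ⟨sc_mem_M hM x k, isCond_iff.2 (Or.inl ⟨k, _, rfl⟩)⟩

theorem wc_mem_M (hM : TM M) (i j : ℕ) : WC (nat i) (nat j) ∈ M :=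
  hM.pair_mem (hM.nat_mem 1) (hM.pair_mem (hM.nat_mem i) (hM.nat_mem j))

theorem wc_mem_P (hM : TM M) (i j : ℕ) : WC (nat i) (nat j) ∈ Q.P M :=
  (mem_P hM).2 ⟨wc_mem_M hM i j, isCond_iff.2 (Or.inr ⟨i, j, rfl⟩)⟩

theorem exists_typed (hM : TM M) {s : ZFSet.{0}} (hs : s ∈ M) {x : ℕ → ZFSet.{0}} {k : ℕ}
    (h : s = code x k) : ∃ y : ℕ → M, s = cd y k ∧ ∀ i < k, (y i).1 = x i := by
  have hx : ∀ i < k, x i ∈ M := by
    intro i hi
    have h1 : ZFSet.pair (nat i) (x i) ∈ s := by rw [h]; exact pair_mem_code.2 ⟨hi, rfl⟩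
    exact (hM.of_pair_mem (hM.trans _ hs _ h1)).2
  classical
  refine ⟨fun i => if hi : i < k then ⟨x i, hx i hi⟩ else ⟨∅, hM.empty_mem⟩, ?_, ?_⟩
  · rw [h]
    refine code_congr (fun i hi => ?_)
    simp [hi]
  · intro i hi
    simp [hi]

theorem P_cases (hM : TM M) {p : ZFSet.{0}} (hp : p ∈ Q.P M) :
    (∃ (x : ℕ → M) (k : ℕ), p = sc x k) ∨ ∃ i j : ℕ, p = WC (nat i) (nat j) := by
  obtain ⟨hpM, hc⟩ := (mem_P hM).1 hp
  rcases isCond_iff.1 hc with ⟨k, x, rfl⟩ | h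
  · left
    obtain ⟨y, hy, -⟩ := exists_typed hM (hM.of_pair_mem hpM).2 (x := x) (k := k) rfl
    exact ⟨y, k, by rw [sc, ← hy]⟩
  · exact Or.inr h

theorem le_sc_sc (hM : TM M) {x y : ℕ → M} {k l : ℕ} :
    Q.leM M (sc x k) (sc y l) ↔ l ≤ k ∧ ∀ i < l, x i = y i := by
  rw [leM_iff hM]
  unfold sc cd
  rw [leZ_SC_SC]
  constructor
  · rintro ⟨-, -, h, h2⟩; exact ⟨h, fun i hi => Subtype.ext (h2 i hi)⟩
  · rintro ⟨h, h2⟩
    exact ⟨sc_mem_M hM x k, sc_mem_M hM y l, h, fun i hi => by rw [h2 i hi]⟩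

theorem le_sc_wc (hM : TM M) {x : ℕ → M} {k i j : ℕ} :
    Q.leM M (sc x k) (WC (nat i) (nat j)) ↔ i < k ∧ j < k ∧ near (x i).1 (x j).1 := by
  rw [leM_iff hM]
  unfold sc cd
  rw [leZ_SC_WC]
  constructor
  · rintro ⟨-, -, h⟩; exact h
  · intro h
    exact ⟨sc_mem_M hM x k, wc_mem_M hM i j, h⟩

theorem le_wc (hM : TM M) {i j : ℕ} {q : ZFSet.{0}}
    (h : Q.leM M (WC (nat i) (nat j)) q) : q = WC (nat i) (nat j) :=
  leZ_WC ((leM_iff hM).1 h).2.2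

theorem sc_ne_wc {x : ℕ → M} {k i j : ℕ} : sc x k ≠ WC (nat i) (nat j) := SC_ne_WC

/-- Below a strong condition there are only strong conditions. -/
theorem below_sc (hM : TM M) {p : ZFSet.{0}} (hp : p ∈ Q.P M) {y : ℕ → M} {l : ℕ}
    (h : Q.leM M p (sc y l)) : ∃ (x : ℕ → M) (k : ℕ), p = sc x k ∧ l ≤ k ∧
      ∀ i < l, x i = y i := by
  rcases P_cases hM hp with ⟨x, k, rfl⟩ | ⟨i, j, rfl⟩
  · exact ⟨x, k, rfl, (le_sc_sc hM).1 h⟩
  · exact absurd (le_wc hM h) sc_ne_wc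

/-- Strong conditions are dense. -/
theorem exists_sc_le (hM : TM M) {p : ZFSet.{0}} (hp : p ∈ Q.P M) :
    ∃ (x : ℕ → M) (k : ℕ), Q.leM M (sc x k) p := by
  rcases P_cases hM hp with ⟨x, k, rfl⟩ | ⟨i, j, rfl⟩
  · exact ⟨x, k, (le_sc_sc hM).2 ⟨le_rfl, fun _ _ => rfl⟩⟩
  · refine ⟨fun _ => ⟨∅, hM.empty_mem⟩, max i j + 1, (le_sc_wc hM).2 ⟨?_, ?_, near_refl _⟩⟩
    · omega
    · omega

theorem isPartialOrder (hM : TM M) : Q.IsPartialOrderOver M := by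
  refine ⟨⟨_, sc_mem_P hM (fun _ => ⟨∅, hM.empty_mem⟩) 0⟩, ?_, ?_, ?_⟩
  · intro p hp
    have h := ((mem_P hM).1 hp).1
    exact (leM_iff hM).2 ⟨h, h, Or.inl rfl⟩
  · intro p hp q hq r hr hpq hqr
    rcases P_cases hM hr with ⟨z, m, rfl⟩ | ⟨i, j, rfl⟩
    · obtain ⟨y, l, rfl, h1, h2⟩ := below_sc hM hq hqr
      obtain ⟨x, k, rfl, h3, h4⟩ := below_sc hM hp hpq
      exact (le_sc_sc hM).2 ⟨h1.trans h3, fun i hi => (h4 i (by omega)).trans (h2 i hi)⟩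
    · rcases P_cases hM hq with ⟨y, l, rfl⟩ | ⟨i', j', rfl⟩
      · obtain ⟨x, k, rfl, h3, h4⟩ := below_sc hM hp hpq
        obtain ⟨h5, h6, h7⟩ := (le_sc_wc hM).1 hqr
        refine (le_sc_wc hM).2 ⟨by omega, by omega, ?_⟩
        rw [h4 i h5, h4 j h6]; exact h7
      · have := le_wc hM hqr
        rw [this]; exact hpq
  · intro p hp q hq hpq hqp
    rcases P_cases hM hq with ⟨y, l, rfl⟩ | ⟨i, j, rfl⟩
    · obtain ⟨x, k, rfl, h3, h4⟩ := below_sc hM hp hpq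
      have h5 := (le_sc_sc hM).1 hqp
      have : k = l := by omega
      subst this
      unfold sc cd
      rw [code_congr (fun i hi => by rw [h4 i hi])]
    · exact le_wc hM hqp

theorem definable_of_abs (hM : TM M) {n : ℕ} {R : (Fin (n + 1) → ZFSet.{0}) → Prop}
    (hR : AbsP R) (a : Fin n → M) :
    DefinableOver M {p | p ∈ Q.P M ∧ R (Fin.cons p (fun i => (a i).1))} := by
  have h1 : AbsP (fun v : Fin (n + 1) → ZFSet.{0} => IsCond (v 0) ∧ R v) :=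
    AbsP.and (AbsP.isCond (AbsF.proj 0)) hR
  obtain ⟨φ, hφ⟩ := h1
  refine ⟨n, φ, a, fun x => ?_⟩
  constructor
  · rintro ⟨hx, h⟩
    obtain ⟨hxM, hc⟩ := (mem_P hM).1 hx
    refine ⟨hxM, ?_⟩
    rw [hφ M hM, consval]
    exact ⟨hc, h⟩
  · rintro ⟨hxM, h⟩
    rw [hφ M hM, consval] at h
    exact ⟨(mem_P hM).2 ⟨hxM, h.1⟩, h.2⟩

theorem TM.toIsNonempty (hM : TM M) : Nonempty M := ⟨⟨∅, hM.empty_mem⟩⟩

/-- `G` is given by the branch `F`, an enumeration of `M`. -/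
structure Branch (G : Set ZFSet.{0}) (F : ℕ → M) : Prop where
  sc : ∀ (x : ℕ → M) (k : ℕ), sc x k ∈ G ↔ ∀ i < k, x i = F i
  surj : Function.Surjective F
  wc : ∀ i j : ℕ, WC (nat i) (nat j) ∈ G ↔ near (F i).1 (F j).1

theorem exists_long (hM : TM M) {G : Set ZFSet.{0}} (hG : Q.IsGeneric M G) (n : ℕ) :
    ∃ (x : ℕ → M) (k : ℕ), n ≤ k ∧ Pool.Agent.Lib.MP_1a1aec_lc.sc x k ∈ G := by
  have hR : AbsP (fun v : Fin 1 → ZFSet.{0} => ∃ a s, v 0 = ZFSet.pair a s ∧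
      (a = ∅ ∧ ∃ u ∈ ZFSet.sUnion (ZFSet.sUnion s), ZFSet.pair (nat n) u ∈ s)) := by
    refine AbsP.exPair (R := fun _ a s => a = ∅ ∧ ∃ u ∈ ZFSet.sUnion (ZFSet.sUnion s),
      ZFSet.pair (nat n) u ∈ s) (AbsF.proj 0) ?_
    refine AbsP.and (AbsP.eq (AbsF.proj _) AbsF.cEmpty) ?_
    refine AbsP.bex (R := fun v u => ZFSet.pair (nat n) u ∈ v 0) (AbsF.proj 0).sUnion.sUnion ?_
    exact AbsP.mem (AbsF.opair (AbsF.cNat n) (AbsF.proj _)) (AbsF.proj _)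
  obtain ⟨d, hd, hdG⟩ := hG.meets _ (definable_of_abs hM hR (fun i => i.elim0))
    (fun p hp => hp.1) (by
      intro p hp
      obtain ⟨x, k, hx⟩ := exists_sc_le hM hp
      refine ⟨Pool.Agent.Lib.MP_1a1aec_lc.sc x (k + n + 1), ⟨sc_mem_P hM _ _, ?_⟩, ?_⟩
      · have hmem := pair_mem_code (x := fun i => (x i).1) (k := k + n + 1) (i := n).2
          ⟨by omega, rfl⟩
        exact ⟨_, _, rfl, rfl, _, mem_ss_right hmem, hmem⟩
      · refine (isPartialOrder hM).trans _ (sc_mem_P hM _ _) _ (sc_mem_P hM x k) _ hp ?_ hx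
        exact (le_sc_sc hM).2 ⟨by omega, fun _ _ => rfl⟩)
  obtain ⟨hdP, a, s, h1, h2, u, -, h3⟩ := hd
  rcases P_cases hM hdP with ⟨x, k, rfl⟩ | ⟨i, j, rfl⟩
  · have h4 : ZFSet.pair ∅ (cd x k) = ZFSet.pair a s := h1
    obtain ⟨-, rfl⟩ := ZFSet.pair_inj.1 h4
    exact ⟨x, k, (pair_mem_code.1 h3).1.le, hdG⟩
  · have h4 : ZFSet.pair (nat 1) (ZFSet.pair (nat i) (nat j)) = ZFSet.pair a s := h1
    obtain ⟨h5, -⟩ := ZFSet.pair_inj.1 h4
    rw [h2] at h5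
    exact absurd h5 nat_one_ne

theorem exists_value (hM : TM M) {G : Set ZFSet.{0}} (hG : Q.IsGeneric M G) (c : M) :
    ∃ (x : ℕ → M) (k i : ℕ), i < k ∧ x i = c ∧ Pool.Agent.Lib.MP_1a1aec_lc.sc x k ∈ G := by
  have hR : AbsP (fun v : Fin 2 → ZFSet.{0} => ∃ a s, v 0 = ZFSet.pair a s ∧
      (a = ∅ ∧ ∃ u ∈ ZFSet.sUnion (ZFSet.sUnion s), ZFSet.pair u (v 1) ∈ s)) := by
    refine AbsP.exPair (R := fun v a s => a = ∅ ∧ ∃ u ∈ ZFSet.sUnion (ZFSet.sUnion s),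
      ZFSet.pair u (v 1) ∈ s) (AbsF.proj 0) ?_
    refine AbsP.and (AbsP.eq (AbsF.proj _) AbsF.cEmpty) ?_
    refine AbsP.bex (R := fun v u => ZFSet.pair u (v (Fin.succ (Fin.succ 1))) ∈ v 0)
      (AbsF.proj 0).sUnion.sUnion ?_
    exact AbsP.mem (AbsF.opair (AbsF.proj _) (AbsF.proj _)) (AbsF.proj _)
  obtain ⟨d, hd, hdG⟩ := hG.meets _ (definable_of_abs hM hR (fun _ => c))
    (fun p hp => hp.1) (by
      intro p hp
      obtain ⟨x, k, hx⟩ := exists_sc_le hM hp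
      refine ⟨Pool.Agent.Lib.MP_1a1aec_lc.sc (Function.update x k c) (k + 1),
        ⟨sc_mem_P hM _ _, ?_⟩, ?_⟩
      · have hmem := pair_mem_code (x := fun i => (Function.update x k c i).1) (k := k + 1)
          (i := k).2 ⟨by omega, rfl⟩
        refine ⟨_, _, rfl, rfl, nat k, ?_, ?_⟩
        · exact mem_ss_left hmem
        · simpa [cd] using hmem
      · refine (isPartialOrder hM).trans _ (sc_mem_P hM _ _) _ (sc_mem_P hM x k) _ hp ?_ hx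
        refine (le_sc_sc hM).2 ⟨by omega, fun i hi => ?_⟩
        rw [Function.update_of_ne (Nat.ne_of_lt hi)])
  obtain ⟨hdP, a, s, h1, h2, u, -, h3⟩ := hd
  rcases P_cases hM hdP with ⟨x, k, rfl⟩ | ⟨i, j, rfl⟩
  · have h4 : ZFSet.pair ∅ (cd x k) = ZFSet.pair a s := h1
    obtain ⟨-, rfl⟩ := ZFSet.pair_inj.1 h4
    obtain ⟨i, hi, h5⟩ := mem_code.1 h3
    obtain ⟨-, h6⟩ := ZFSet.pair_inj.1 h5
    exact ⟨x, k, i, hi, Subtype.ext h6.symm, hdG⟩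
  · have h4 : ZFSet.pair (nat 1) (ZFSet.pair (nat i) (nat j)) = ZFSet.pair a s := h1
    obtain ⟨h5, -⟩ := ZFSet.pair_inj.1 h4
    rw [h2] at h5
    exact absurd h5 nat_one_ne

theorem sc_compat (hM : TM M) {G : Set ZFSet.{0}} (hG : Q.IsGeneric M G) {x y : ℕ → M}
    {k l : ℕ} (hx : Pool.Agent.Lib.MP_1a1aec_lc.sc x k ∈ G)
    (hy : Pool.Agent.Lib.MP_1a1aec_lc.sc y l ∈ G) : ∀ i < k, i < l → x i = y i := by
  obtain ⟨r, hr, h1, h2⟩ := hG.directed _ hx _ hy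
  obtain ⟨z, m, rfl, h3, h4⟩ := below_sc hM (hG.subset hr) h1
  have h5 := (le_sc_sc hM).1 h2
  intro i hik hil
  rw [← h4 i hik, h5.2 i hil]

/-- Every generic filter comes from a branch. -/
theorem exists_branch (hM : TM M) {G : Set ZFSet.{0}} (hG : Q.IsGeneric M G) :
    ∃ F : ℕ → M, Branch G F := by
  choose X K hK hX using exists_long hM hG
  let F : ℕ → M := fun i => X (i + 1) i
  have hF : ∀ (x : ℕ → M) (k : ℕ), Pool.Agent.Lib.MP_1a1aec_lc.sc x k ∈ G →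
      ∀ i < k, x i = F i := by
    intro x k hx i hi
    exact sc_compat hM hG hx (hX (i + 1)) i hi (by have := hK (i + 1); omega)
  have hsc : ∀ (x : ℕ → M) (k : ℕ), Pool.Agent.Lib.MP_1a1aec_lc.sc x k ∈ G ↔
      ∀ i < k, x i = F i := by
    intro x k
    refine ⟨hF x k, fun h => ?_⟩
    refine hG.upward _ (hX k) _ (sc_mem_P hM x k) ((le_sc_sc hM).2 ⟨hK k, fun i hi => ?_⟩)
    rw [h i hi]
    exact hF _ _ (hX k) i (by have := hK k; omega)
  refine ⟨F, hsc, ?_, ?_⟩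
  · intro c
    obtain ⟨x, k, i, hi, rfl, hx⟩ := exists_value hM hG c
    exact ⟨i, (hF x k hx i hi).symm⟩
  · intro i j
    constructor
    · intro h
      obtain ⟨r, hr, h1, h2⟩ := hG.directed _ h _ (hX (max i j + 1))
      obtain ⟨z, m, rfl, h3, h4⟩ := below_sc hM (hG.subset hr) h2
      obtain ⟨h5, h6, h7⟩ := (le_sc_wc hM).1 h1
      rw [hF z m hr i h5, hF z m hr j h6] at h7
      exact h7
    · intro h
      refine hG.upward _ (hX (max i j + 1)) _ (wc_mem_P hM i j) ((le_sc_wc hM).2 ?_)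
      have hk := hK (max i j + 1)
      refine ⟨by omega, by omega, ?_⟩
      rw [hF _ _ (hX (max i j + 1)) i (by omega), hF _ _ (hX (max i j + 1)) j (by omega)]
      exact h

/-- Rasiowa-Sikorski with side condition. -/
theorem exists_generic (hM : IsCTM M) (Good : (ℕ → M) → ℕ → Prop)
    (hgood : ∀ (x : ℕ → M) (k : ℕ), Good x k → ∀ D : Set ZFSet.{0}, DefinableOver M D →
      D ⊆ Q.P M → (∀ p ∈ Q.P M, ∃ d ∈ D, Q.leM M d p) →
      ∃ (y : ℕ → M) (l : ℕ), k < l ∧ (∀ i < k, y i = x i) ∧ Good y l ∧ sc y l ∈ D)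
    (x₀ : ℕ → M) (k₀ : ℕ) (h₀ : Good x₀ k₀) :
    ∃ G : Set ZFSet.{0}, Q.IsGeneric M G ∧ sc x₀ k₀ ∈ G ∧
      ∀ m, ∃ (y : ℕ → M) (l : ℕ), m ≤ l ∧ Good y l ∧ sc y l ∈ G := by
  classical
  have hTM := hM.tm
  have hcM : Countable M := hM.countable
  let Ix : Type 1 := Σ n : ℕ, LSet.Formula (Fin (n + 1)) × (Fin n → M)
  have hIx : Countable Ix := inferInstance
  -- the sets to be met
  let DD : Ix → Set ZFSet.{0} := fun s =>
    {x | ∃ hx : x ∈ M, s.2.1.Realize (Fin.cons (⟨x, hx⟩ : M) s.2.2)}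
  have hIne : Nonempty Ix := ⟨⟨0, ⊥, fun i => i.elim0⟩⟩
  obtain ⟨e, he⟩ := exists_surjective_nat Ix
  let st : Type 1 := {p : (ℕ → M) × ℕ // Good p.1 p.2}
  have hstep : ∀ (n : ℕ) (s : st), ∃ t : st, s.1.2 < t.1.2 ∧
      (∀ i < s.1.2, t.1.1 i = s.1.1 i) ∧
      ((DD (e n) ⊆ Q.P M ∧ ∀ p ∈ Q.P M, ∃ d ∈ DD (e n), Q.leM M d p) →
        sc t.1.1 t.1.2 ∈ DD (e n)) := by
    intro n s
    by_cases hD : DD (e n) ⊆ Q.P M ∧ ∀ p ∈ Q.P M, ∃ d ∈ DD (e n), Q.leM M d p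
    · obtain ⟨y, l, h1, h2, h3, h4⟩ := hgood s.1.1 s.1.2 s.2 (DD (e n))
        ⟨(e n).1, (e n).2.1, (e n).2.2, fun x => Iff.rfl⟩ hD.1 hD.2
      exact ⟨⟨(y, l), h3⟩, h1, h2, fun _ => h4⟩
    · obtain ⟨y, l, h1, h2, h3, h4⟩ := hgood s.1.1 s.1.2 s.2 (Q.P M) (by
          have := definable_of_abs hTM (AbsP.true (n := 1)) (fun i => i.elim0)
          have h5 : {p | p ∈ Q.P M ∧ True} = Q.P M := by ext; simp
          rw [h5] at this
          exact this) le_rfl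
        (fun p hp => ⟨p, hp, (isPartialOrder hTM).refl p hp⟩)
      exact ⟨⟨(y, l), h3⟩, h1, h2, fun h => absurd h hD⟩
  choose next hn1 hn2 hn3 using hstep
  let S : ℕ → st := fun n => Nat.rec ⟨(x₀, k₀), h₀⟩ (fun n s => next n s) n
  have hS : ∀ n, S (n + 1) = next n (S n) := fun n => rfl
  have hk : ∀ n, n ≤ (S n).1.2 := by
    intro n
    induction n with
    | zero => exact Nat.zero_le _
    | succ n ih => rw [hS]; exact lt_of_le_of_lt ih (hn1 n (S n))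
  have hle : ∀ n m, n ≤ m → Q.leM M (sc (S m).1.1 (S m).1.2) (sc (S n).1.1 (S n).1.2) := by
    intro n m hnm
    induction m, hnm using Nat.le_induction with
    | base => exact (isPartialOrder hTM).refl _ (sc_mem_P hTM _ _)
    | succ m hm ih =>
      refine (isPartialOrder hTM).trans _ (sc_mem_P hTM _ _) _ (sc_mem_P hTM _ _) _
        (sc_mem_P hTM _ _) ?_ ih
      rw [hS]
      exact (le_sc_sc hTM).2 ⟨(hn1 m (S m)).le, hn2 m (S m)⟩
  let G : Set ZFSet.{0} := {p | p ∈ Q.P M ∧ ∃ n, Q.leM M (sc (S n).1.1 (S n).1.2) p}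
  have hSG : ∀ n, sc (S n).1.1 (S n).1.2 ∈ G :=
    fun n => ⟨sc_mem_P hTM _ _, n, (isPartialOrder hTM).refl _ (sc_mem_P hTM _ _)⟩
  refine ⟨G, ⟨fun p hp => hp.1, ⟨_, hSG 0⟩, ?_, ?_, ?_⟩, hSG 0, ?_⟩
  · rintro p ⟨hp, n, hn⟩ q hq hpq
    exact ⟨hq, n, (isPartialOrder hTM).trans _ (sc_mem_P hTM _ _) _ hp _ hq hn hpq⟩
  · rintro p ⟨hp, n, hn⟩ q ⟨hq, m, hm⟩
    refine ⟨_, hSG (max n m), ?_, ?_⟩
    · exact (isPartialOrder hTM).trans _ (sc_mem_P hTM _ _) _ (sc_mem_P hTM _ _) _ hp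
        (hle n _ (le_max_left _ _)) hn
    · exact (isPartialOrder hTM).trans _ (sc_mem_P hTM _ _) _ (sc_mem_P hTM _ _) _ hq
        (hle m _ (le_max_right _ _)) hm
  · rintro D ⟨n, φ, a, hD⟩ hDP hDd
    obtain ⟨j, hj⟩ := he ⟨n, φ, a⟩
    have hDD : DD (e j) = D := by
      ext x
      rw [hj]
      exact (hD x).symm
    refine ⟨sc (S (j + 1)).1.1 (S (j + 1)).1.2, ?_, hSG (j + 1)⟩
    have := hn3 j (S j) (by rw [hDD]; exact ⟨hDP, hDd⟩)
    rw [hDD] at this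
    rw [hS]
    exact this
  · intro m
    exact ⟨_, _, hk m, (S m).2, hSG m⟩

end Pool.Agent.Lib.MP_1a1aec_lc
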