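import Pool.Agent.Lib.MP_1a1aec_lc.Names

/-!
The truth lemma fails over every countable transitive model of ZFC.
-/

open FirstOrder FirstOrder.Language

namespace Pool.Agent.Lib.MP_1a1aec_lc

theorem abs_control {n : ℕ} {R : (Fin n → ZFSet.{0}) → Prop} (hR : AbsP R) :
    ∃ N : ℕ, ∀ (M : Set ZFSet.{0}) [Countable M], TM M → ∀ m ≥ N, ∀ (k : ℕ) (x x' : ℕ → M),
      TL M m k x = TL M m k x' → ∀ π : Fin n → ℕ, (∀ i, π i < k) →
        (R (fun i => (x (π i)).1) ↔ R (fun i => (x' (π i)).1)) := by
  obtain ⟨φ, hφ⟩ := hR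
  obtain ⟨N, hN⟩ := type_control φ
  refine ⟨N, fun M _ hM m hm k x x' h π hπ => ?_⟩
  have h1 := hN M m hm k x x' h π (fun i => i.elim0) hπ (fun i => i.elim0)
  rw [← hφ M hM (fun i => x (π i)), ← hφ M hM (fun i => x' (π i))]
  unfold Formula.Realize
  have hs : (fun i : Fin 0 => x (i.elim0)) = (default : Fin 0 → M) := Subsingleton.elim _ _
  have hs' : (fun i : Fin 0 => x' (i.elim0)) = (default : Fin 0 → M) := Subsingleton.elim _ _
  rw [hs, hs'] at h1
  exact h1

set_option linter.unusedSectionVars false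

variable {M : Set ZFSet.{0}} [Countable M]

theorem TL_update_congr {m k : ℕ} {x y : ℕ → M} (h : ∀ i < k, x i = y i) (z : M) :
    TL M m (k + 1) (Function.update x k z) = TL M m (k + 1) (Function.update y k z) := by
  refine TL_congr (fun i hi => ?_)
  by_cases hik : i = k
  · subst hik; simp
  · rw [Function.update_of_ne hik, Function.update_of_ne hik, h i (by omega)]

theorem bad_congr {N₀ n : ℕ} {x y : ℕ → M} (h : ∀ i ≤ n, x i = y i) :
    Bad N₀ x n ↔ Bad N₀ y n := by
  unfold Bad
  simp only [TL_update_congr (m := n + N₀) (fun i (hi : i < n) => h i hi.le), h n le_rfl]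

/-- Every tuple can be extended to a bad one. -/
theorem exists_bad (hM : TM M) (N₀ : ℕ) (x : ℕ → M) (k : ℕ) :
    ∃ c : M, Bad N₀ (Function.update x k c) k := by
  have hfin : (Set.range (fun z : M => TL M (k + N₀) (k + 1) (Function.update x k z))).Finite := by
    refine (TL_finite (M := M) (k + N₀) (k + 1)).subset ?_
    rintro _ ⟨z, rfl⟩
    exact ⟨_, rfl⟩
  -- a finite set of representatives
  have hset : ∀ S : Set ZFSet.{0}, S.Finite →
      S ⊆ (Set.range (fun z : M => TL M (k + N₀) (k + 1) (Function.update x k z))) →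
      ∃ c : M, ∀ t ∈ S, ∃ z : M, z.1 ∈ c.1 ∧
        TL M (k + N₀) (k + 1) (Function.update x k z) = t := by
    intro S hS
    induction S, hS using Set.Finite.induction_on with
    | empty =>
      intro _
      exact ⟨⟨∅, hM.empty_mem⟩, fun t ht => absurd ht (Set.notMem_empty t)⟩
    | @insert a S _ _ ih =>
      intro hsub
      obtain ⟨c, hc⟩ := ih (fun t ht => hsub (Set.mem_insert_of_mem _ ht))
      obtain ⟨z, hz⟩ := hsub (Set.mem_insert a S)
      refine ⟨⟨insert z.1 c.1, hM.insert_mem z.2 c.2⟩, ?_⟩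
      intro t ht
      rcases Set.mem_insert_iff.1 ht with rfl | ht
      · exact ⟨z, ZFSet.mem_insert _ _, hz⟩
      · obtain ⟨z', hz', h⟩ := hc t ht
        exact ⟨z', ZFSet.mem_insert_of_mem _ hz', h⟩
  obtain ⟨c, hc⟩ := hset _ hfin le_rfl
  refine ⟨c, fun z => ?_⟩
  obtain ⟨z', hz', h⟩ := hc _ ⟨z, rfl⟩
  refine ⟨z', ?_, ?_⟩
  · rw [Function.update_self]; exact Or.inl hz'
  · rw [Function.update_idem, Function.update_idem]; exact h

/-- The three test sets. -/
def test (hM : TM M) : Fin 3 → M :=
  ![⟨∅, hM.empty_mem⟩, ⟨{∅}, hM.singleton_mem hM.empty_mem⟩,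
    ⟨{{∅}}, hM.singleton_mem (hM.singleton_mem hM.empty_mem)⟩]

/-- From some level on, types distinguish the three test sets. -/
theorem exists_level : ∃ N₀ : ℕ, ∀ (M : Set ZFSet.{0}) [Countable M] (hM : TM M), ∀ m ≥ N₀,
    ∀ (k : ℕ) (x : ℕ → M) (i j : Fin 3), i ≠ j →
      TL M m (k + 1) (Function.update x k (test hM i)) ≠
        TL M m (k + 1) (Function.update x k (test hM j)) := by
  obtain ⟨N₁, h₁⟩ := abs_control (R := fun v : Fin 1 → ZFSet.{0} => v 0 = ∅)
    (AbsP.eq (AbsF.proj 0) AbsF.cEmpty)
  obtain ⟨N₂, h₂⟩ := abs_control (R := fun v : Fin 1 → ZFSet.{0} => v 0 = {∅})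
    (AbsP.eq (AbsF.proj 0) (AbsF.sing AbsF.cEmpty))
  refine ⟨max N₁ N₂, ?_⟩
  intro M _ hM m hm k x i j hij heq
  have e1 := h₁ M hM m (le_of_max_le_left hm) (k + 1) _ _ heq (fun _ => k) (fun _ => by omega)
  have e2 := h₂ M hM m (le_of_max_le_right hm) (k + 1) _ _ heq (fun _ => k) (fun _ => by omega)
  simp only [Function.update_self] at e1 e2
  have f0 : (test hM 0).1 = ∅ := rfl
  have f1 : (test hM 1).1 = {∅} := rfl
  have f2 : (test hM 2).1 = {{∅}} := rfl
  have g0 : ∀ u : ZFSet.{0}, ({u} : ZFSet.{0}) ≠ ∅ := by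
    intro u h
    have h1 : u ∈ ({u} : ZFSet.{0}) := ZFSet.mem_singleton.2 rfl
    rw [h] at h1
    exact ZFSet.notMem_empty _ h1
  have g1 : ({∅} : ZFSet.{0}) ≠ ∅ := g0 _
  have g2 : ({{∅}} : ZFSet.{0}) ≠ ∅ := g0 _
  have g3 : ({{∅}} : ZFSet.{0}) ≠ {∅} := by
    intro h
    exact g1 (ZFSet.singleton_inj.1 h)
  fin_cases i <;> fin_cases j <;>
    simp only [Fin.zero_eta, Fin.mk_one, Fin.reduceFinMk, f0, f1, f2, ne_eq, not_true_eq_false,
      true_iff, iff_true, g1, g2, g3] at hij e1 e2

/-- The level used in the definition of badness. -/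
noncomputable def N0 : ℕ := exists_level.choose

theorem N0_spec (M : Set ZFSet.{0}) [Countable M] (hM : TM M) (m : ℕ) (hm : N0 ≤ m) (k : ℕ)
    (x : ℕ → M) (i j : Fin 3) (hij : i ≠ j) :
    TL M m (k + 1) (Function.update x k (test hM i)) ≠
      TL M m (k + 1) (Function.update x k (test hM j)) :=
  exists_level.choose_spec M hM m hm k x i j hij

theorem not_bad_empty (hM : TM M) {x : ℕ → M} {n : ℕ} (hx : (x n).1 = ∅) : ¬ Bad N0 x n := by
  intro h
  obtain ⟨z₀, h0, h0'⟩ := h (test hM 0)
  obtain ⟨z₁, h1, h1'⟩ := h (test hM 1)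
  have hz : ∀ z : M, near z.1 (x n).1 → z.1 = ∅ := by
    intro z hz
    rcases hz with hz | hz
    · rw [hx] at hz; exact absurd hz (ZFSet.notMem_empty _)
    · rw [hz, hx]
  have : z₀ = z₁ := Subtype.ext (by rw [hz _ h0, hz _ h1])
  rw [this] at h0'
  exact N0_spec M hM (n + N0) (by omega) n x 0 1 (by decide) (h0'.symm.trans h1')

theorem not_bad_singleton (hM : TM M) {x : ℕ → M} {n : ℕ} {a : M} (hx : (x n).1 = {a.1}) :
    ¬ Bad N0 x n := by
  intro h
  choose z hz hz' using fun i => h (test hM i)
  have hcase : ∀ i, z i = a ∨ z i = x n := by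
    intro i
    rcases hz i with h1 | h1
    · left
      rw [hx, ZFSet.mem_singleton] at h1
      exact Subtype.ext h1
    · right
      exact Subtype.ext h1
  have key : ∀ i j : Fin 3, i ≠ j → z i ≠ z j := by
    intro i j hij h
    have h1 := hz' i
    rw [h, hz' j] at h1
    exact N0_spec M hM (n + N0) (by omega) n x j i hij.symm h1
  rcases hcase 0 with h0 | h0 <;> rcases hcase 1 with h1 | h1 <;> rcases hcase 2 with h2 | h2
  · exact key 0 1 (by decide) (h0.trans h1.symm)
  · exact key 0 1 (by decide) (h0.trans h1.symm)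
  · exact key 0 2 (by decide) (h0.trans h2.symm)
  · exact key 1 2 (by decide) (h1.trans h2.symm)
  · exact key 1 2 (by decide) (h1.trans h2.symm)
  · exact key 0 2 (by decide) (h0.trans h2.symm)
  · exact key 0 1 (by decide) (h0.trans h1.symm)
  · exact key 0 1 (by decide) (h0.trans h1.symm)

/-- Adding an element whose singleton is already in the tuple. -/
theorem TL_lift {t K : ℕ} {u u' : ℕ → M} (h : TL M (t + 1) K u = TL M (t + 1) K u') (a : M)
    {j : ℕ} (hj : j < K) (hu : (u j).1 = {a.1}) (hu' : (u' j).1 = {a.1}) :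
    TL M t (K + 1) (Function.update u K a) = TL M t (K + 1) (Function.update u' K a) := by
  obtain ⟨z', hz'⟩ := TL_succ_forth h a
  have h1 := TL_near hz' K (by omega) j (by omega)
  have h2 := TL_near hz' j (by omega) K (by omega)
  rw [Function.update_self, Function.update_self, Function.update_of_ne (Nat.ne_of_lt hj),
    Function.update_of_ne (Nat.ne_of_lt hj), hu, hu'] at h1
  rw [Function.update_self, Function.update_self, Function.update_of_ne (Nat.ne_of_lt hj),
    Function.update_of_ne (Nat.ne_of_lt hj), hu, hu'] at h2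
  have h3 : a.1 ∈ ({a.1} : ZFSet.{0}) := ZFSet.mem_singleton.2 rfl
  rw [mem_iff_near, h1, h2, ← mem_iff_near, ZFSet.mem_singleton] at h3
  have h4 : z' = a := Subtype.ext h3
  rw [h4] at hz'
  exact hz'

/-- The tuple `u ↾ K` followed by `c`. -/
def ext (u : ℕ → M) (K : ℕ) (c : ℕ → M) : ℕ → M := fun i => if i < K then u i else c (i - K)

theorem ext_lt (u : ℕ → M) {K : ℕ} (c : ℕ → M) {i : ℕ} (h : i < K) : ext u K c i = u i := by
  simp [ext, h]

theorem ext_ge (u : ℕ → M) (K : ℕ) (c : ℕ → M) (i : ℕ) : ext u K c (K + i) = c i := by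
  simp [ext]

theorem TL_lift_many {K : ℕ} {u u' : ℕ → M} (c : ℕ → M) (m : ℕ)
    (hc : ∀ i < m, ∃ j < K, (u j).1 = {(c i).1} ∧ (u' j).1 = {(c i).1}) :
    ∀ t, TL M (t + m) K u = TL M (t + m) K u' →
      TL M t (K + m) (ext u K c) = TL M t (K + m) (ext u' K c) := by
  induction m with
  | zero =>
    intro t h
    rw [TL_congr (k := K + 0) (x := ext u K c) (x' := u) (fun i hi => ext_lt u c hi),
      TL_congr (k := K + 0) (x := ext u' K c) (x' := u') (fun i hi => ext_lt u' c hi)]
    exact h
  | succ m ih =>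
    intro t h
    have h1 := ih (fun i hi => hc i (by omega)) (t + 1) (by
      rw [show t + 1 + m = t + (m + 1) by omega]; exact h)
    obtain ⟨j, hj, hu, hu'⟩ := hc m (by omega)
    have h2 := TL_lift h1 (c m) (j := j) (by omega) (by rw [ext_lt u c hj]; exact hu)
      (by rw [ext_lt u' c hj]; exact hu')
    have h3 : ∀ w : ℕ → M, Function.update (ext w K c) (K + m) (c m) = ext w K c := by
      intro w
      rw [Function.update_eq_self_iff, ext_ge]
    rw [h3, h3] at h2
    exact h2

theorem rank_entry_lt {y : ℕ → M} {l n : ℕ} (h : n < l) : (y n).1.rank < (sc y l).rank := by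
  have h1 : ZFSet.pair (nat n) (y n).1 ∈ cd y l := pair_mem_code.2 ⟨h, rfl⟩
  have h2 : (y n).1 ∈ ({nat n, (y n).1} : ZFSet.{0}) := by simp
  have h3 : ({nat n, (y n).1} : ZFSet.{0}) ∈ ZFSet.pair (nat n) (y n).1 := by simp [ZFSet.pair]
  have h4 : cd y l ∈ ({∅, cd y l} : ZFSet.{0}) := by simp
  have h5 : ({∅, cd y l} : ZFSet.{0}) ∈ sc y l := by simp [sc, SC, ZFSet.pair]
  exact (ZFSet.rank_lt_of_mem h2).trans ((ZFSet.rank_lt_of_mem h3).trans
    ((ZFSet.rank_lt_of_mem h1).trans ((ZFSet.rank_lt_of_mem h4).trans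
      (ZFSet.rank_lt_of_mem h5))))

theorem rank_near {x y : ZFSet.{0}} (h : near x y) : x.rank ≤ y.rank := by
  rcases h with h | h
  · exact (ZFSet.rank_lt_of_mem h).le
  · rw [h]

theorem exists_min_rank (D : Set ZFSet.{0}) (h : D.Nonempty) :
    ∃ p ∈ D, ∀ q ∈ D, p.rank ≤ q.rank := by
  obtain ⟨_, ⟨p, hp, rfl⟩, h2⟩ := WellFounded.has_min (wellFounded_lt (α := Ordinal.{0}))
    (ZFSet.rank '' D) (h.image _)
  exact ⟨p, hp, fun q hq => not_lt.1 (h2 _ ⟨q, hq, rfl⟩)⟩

/-- Good tuples: no initial segment is bad. -/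
def Good (x : ℕ → M) (k : ℕ) : Prop := ∀ n < k, ¬ Bad N0 x n

theorem absBelow : AbsP (fun v : Fin 3 → ZFSet.{0} => leZ (v 0) (SC (snocZ (v 2) (v 1)))) := by
  refine AbsP.leZ (AbsF.proj _) ?_
  exact AbsF.opair AbsF.cEmpty (AbsF.snocZ (AbsF.proj _) (AbsF.proj _))

/-- The key lemma: good tuples can be extended to good tuples in definable dense classes. -/
theorem good_extend (hM : TM M) (x : ℕ → M) (k : ℕ) (hx : Good x k) (D : Set ZFSet.{0})
    (hD : DefinableOver M D) (hDP : D ⊆ Q.P M)
    (hDd : ∀ p ∈ Q.P M, ∃ d ∈ D, Q.leM M d p) :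
    ∃ (y : ℕ → M) (l : ℕ), k < l ∧ (∀ i < k, y i = x i) ∧ Good y l ∧ sc y l ∈ D := by
  obtain ⟨m, φ, a, hDφ⟩ := hD
  obtain ⟨N₁, hN₁⟩ := type_control φ
  obtain ⟨N₂, hN₂⟩ := abs_control absBelow
  let e : M := ⟨∅, hM.empty_mem⟩
  let sing : M → M := fun c => ⟨{c.1}, hM.singleton_mem c.2⟩
  let a' : ℕ → M := fun i => if h : i < m then a ⟨i, h⟩ else e
  let x0 : ℕ → M := fun i => if i < k then x i else if i < k + m then sing (a' (i - k)) else e
  let k0 : ℕ := k + m + (m + 1 + N₁ + N₂)
  let s : M := ⟨cd x0 k0, cd_mem hM x0 k0⟩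
  let x1 : ℕ → M := Function.update x0 k0 (sing s)
  let c : ℕ → M := Function.update a' m s
  have hx1k : ∀ i < k, x1 i = x i := by
    intro i hi
    show Function.update x0 k0 (sing s) i = x i
    rw [Function.update_of_ne (by omega)]
    simp only [x0, hi, if_true]
  have hx1good : Good x1 (k0 + 1) := by
    intro n hn
    by_cases h1 : n < k
    · rw [bad_congr (y := x) (fun i hi => hx1k i (by omega))]
      exact hx n h1
    · by_cases h2 : n = k0
      · refine not_bad_singleton hM (a := s) ?_
        show (Function.update x0 k0 (sing s) n).1 = {s.1}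
        rw [h2, Function.update_self]
      · have h3 : x1 n = x0 n := Function.update_of_ne h2 _ _
        by_cases h4 : n < k + m
        · refine not_bad_singleton hM (a := a' (n - k)) ?_
          rw [h3]
          simp only [x0, h1, h4, if_false, if_true, sing]
        · refine not_bad_empty hM ?_
          rw [h3]
          simp only [x0, h1, h4, if_false, e]
  have hx1code : sc x1 (k0 + 1) = SC (snocZ s.1 ({s.1} : ZFSet.{0})) := by
    show SC (cd x1 (k0 + 1)) = SC (snocZ (code (fun i => (x0 i).1) k0) ({s.1} : ZFSet.{0}))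
    rw [snocZ_code]
    unfold cd
    congr 2
    funext i
    by_cases hi : i = k0
    · subst hi
      simp only [x1, Function.update_self, sing]
    · simp only [x1]
      rw [Function.update_of_ne hi, Function.update_of_ne hi]
  -- the minimal rank extension in D
  let DD : Set ZFSet.{0} := {p | p ∈ D ∧ Q.leM M p (sc x1 (k0 + 1))}
  have hne : DD.Nonempty := by
    obtain ⟨d, hd, hd'⟩ := hDd _ (sc_mem_P hM x1 (k0 + 1))
    exact ⟨d, hd, hd'⟩
  obtain ⟨p, hp, hmin⟩ := exists_min_rank DD hne
  obtain ⟨y, l, hpy, hl, hy⟩ := below_sc hM (hDP hp.1) hp.2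
  subst hpy
  have hyk0 : y k0 = sing s := by
    rw [hy k0 (by omega)]
    exact Function.update_self _ _ _
  have hypar : ∀ i < m, (y (k + i)).1 = {(a' i).1} := by
    intro i hi
    rw [hy (k + i) (by omega)]
    show (Function.update x0 k0 (sing s) (k + i)).1 = _
    rw [Function.update_of_ne (by omega)]
    have h1 : ¬ (k + i < k) := by omega
    have h2 : k + i < k + m := by omega
    simp only [x0, h1, h2, if_false, if_true, sing, Nat.add_sub_cancel_left]
  refine ⟨y, l, by omega, ?_, ?_, hp.1⟩
  · intro i hi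
    rw [hy i (by omega)]
    exact hx1k i hi
  · intro n hn
    by_cases hnk : n < k0 + 1
    · rw [bad_congr (y := x1) (fun i hi => hy i (by omega))]
      exact hx1good n hnk
    · intro hbad
      let z : M := ⟨sc y l, sc_mem_M hM y l⟩
      obtain ⟨z', hz', hTL⟩ := hbad z
      -- extend by the parameters and s
      have hcm : c m = s := Function.update_self _ _ _
      have hclt : ∀ i < m, c i = a' i := fun i hi => Function.update_of_ne (by omega) _ _
      have hlift := TL_lift_many (K := n + 1) (u := Function.update y n z')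
        (u' := Function.update y n z) c (m + 1) (by
          intro i hi
          by_cases him : i = m
          · subst him
            refine ⟨k0, by omega, ?_, ?_⟩
            · rw [Function.update_of_ne (by omega), hyk0, hcm]
            · rw [Function.update_of_ne (by omega), hyk0, hcm]
          · refine ⟨k + i, by omega, ?_, ?_⟩
            · rw [Function.update_of_ne (by omega), hypar i (by omega), hclt i (by omega)]
            · rw [Function.update_of_ne (by omega), hypar i (by omega), hclt i (by omega)])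
        (n + N0 - (m + 1)) (by
          rw [show n + N0 - (m + 1) + (m + 1) = n + N0 by omega]; exact hTL)
      -- transfer membership in D
      have hz'D : z'.1 ∈ D := by
        have h1 := hN₁ M (n + N0 - (m + 1)) (by omega) _ _ _ hlift
          (fun i => if i.1 = 0 then n else n + i.1) (fun i => i.elim0)
          (by
            intro i
            have := i.2
            by_cases h : i.1 = 0
            · simp only [h, if_true]; omega
            · simp only [h, if_false]; omega)
          (fun i => i.elim0)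
        have h2 : ∀ w : M, (fun i : Fin (m + 1) => ext (Function.update y n w) (n + 1) c
            (if i.1 = 0 then n else n + i.1)) = Fin.cons w a := by
          intro w
          funext i
          refine Fin.cases ?_ (fun j => ?_) i
          · simp only [Fin.val_zero, if_true, Fin.cons_zero]
            rw [ext_lt _ _ (by omega), Function.update_self]
          · have hj : ¬ ((j.succ : Fin (m + 1)).1 = 0) := by simp
            rw [if_neg hj, Fin.cons_succ, Fin.val_succ,
              show n + (j.1 + 1) = (n + 1) + j.1 by omega, ext_ge, hclt j.1 j.2]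
            simp only [a', j.2, dif_pos]
        rw [h2, h2] at h1
        have h3 : φ.Realize (Fin.cons z a) := by
          obtain ⟨_, h⟩ := (hDφ (sc y l)).1 hp.1
          exact h
        refine (hDφ z'.1).2 ⟨z'.2, ?_⟩
        unfold Formula.Realize at h3 ⊢
        have hs : (fun i : Fin 0 => ext (Function.update y n z') (n + 1) c (i.elim0)) =
            (default : Fin 0 → M) := Subsingleton.elim _ _
        have hs' : (fun i : Fin 0 => ext (Function.update y n z) (n + 1) c (i.elim0)) =
            (default : Fin 0 → M) := Subsingleton.elim _ _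
        rw [hs, hs'] at h1
        exact h1.2 h3
      have hz'le : leZ z'.1 (sc x1 (k0 + 1)) := by
        have h1 := hN₂ M hM (n + N0 - (m + 1)) (by omega) _ _ _ hlift
          ![n, k0, n + 1 + m] (by
            intro i
            fin_cases i
            · show n < n + 1 + (m + 1); omega
            · show k0 < n + 1 + (m + 1); omega
            · show n + 1 + m < n + 1 + (m + 1); omega)
        have h2 : ∀ w : M, (leZ (ext (Function.update y n w) (n + 1) c (![n, k0, n + 1 + m] 0)).1
            (SC (snocZ (ext (Function.update y n w) (n + 1) c (![n, k0, n + 1 + m] 2)).1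
              (ext (Function.update y n w) (n + 1) c (![n, k0, n + 1 + m] 1)).1))) ↔
            leZ w.1 (sc x1 (k0 + 1)) := by
          intro w
          have g0 : ext (Function.update y n w) (n + 1) c n = w := by
            rw [ext_lt _ _ (by omega), Function.update_self]
          have g1 : ext (Function.update y n w) (n + 1) c k0 = sing s := by
            rw [ext_lt _ _ (by omega), Function.update_of_ne (by omega), hyk0]
          have g2 : ext (Function.update y n w) (n + 1) c (n + 1 + m) = s := by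
            rw [ext_ge, hcm]
          simp only [Matrix.cons_val_zero, Matrix.cons_val_one, Matrix.cons_val]
          rw [g0, g1, g2, hx1code]
        have h3 : leZ z.1 (sc x1 (k0 + 1)) := ((leM_iff hM).1 hp.2).2.2
        exact (h2 z').1 (h1.2 ((h2 z).2 h3))
      have hz'DD : z'.1 ∈ DD :=
        ⟨hz'D, (leM_iff hM).2 ⟨z'.2, sc_mem_M hM x1 (k0 + 1), hz'le⟩⟩
      have h1 := hmin z'.1 hz'DD
      have h2 := rank_entry_lt (y := y) hn
      exact absurd ((rank_near hz').trans_lt h2) (not_lt.2 h1)

end Pool.Agent.Lib.MP_1a1aec_lc
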