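import Pool.Agent.Lib.MP_1a1aec_lc.Generic

/-!
The names for types of finite tuples of the generic enumeration.
-/

open FirstOrder FirstOrder.Language

namespace Pool.Agent.Lib.MP_1a1aec_lc

/-- The top strong condition. -/
def one : ZFSet.{0} := SC ∅

theorem one_eq {M : Set ZFSet.{0}} (x : ℕ → M) : one = sc x 0 := rfl

theorem mem_val {G : Set ZFSet.{0}} {σ u : ZFSet.{0}} :
    u ∈ val G σ ↔ ∃ τ p, p ∈ G ∧ ZFSet.pair τ p ∈ σ ∧ val G τ = u := by
  rw [val, ZFSet.mem_range]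
  constructor
  · rintro ⟨⟨τ, p, hp, h⟩, rfl⟩; exact ⟨τ, p, hp, h, rfl⟩
  · rintro ⟨τ, p, hp, h, rfl⟩; exact ⟨⟨τ, p, hp, h⟩, rfl⟩

theorem isName_iff {P : Set ZFSet.{0}} {σ : ZFSet.{0}} :
    IsName P σ ↔ ∀ z ∈ σ, ∃ τ p : ZFSet.{0}, z = ZFSet.pair τ p ∧ p ∈ P ∧ IsName P τ := by
  rw [IsName]
  constructor
  · intro h z hz
    obtain ⟨τ, p, h1, h2, h3⟩ := h z hz
    exact ⟨τ, p, h1, h2, h3⟩
  · intro h z hz
    obtain ⟨τ, p, h1, h2, h3⟩ := h z hz
    exact ⟨τ, p, h1, h2, h3⟩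

/-- Name for the unordered pair. -/
def nup (σ τ : ZFSet.{0}) : ZFSet.{0} := {ZFSet.pair σ one, ZFSet.pair τ one}

/-- Name for the ordered pair. -/
def nop (σ τ : ZFSet.{0}) : ZFSet.{0} := nup (nup σ σ) (nup σ τ)

/-- Names for Zermelo numerals. -/
def num : ℕ → ZFSet.{0}
  | 0 => ∅
  | n + 1 => {ZFSet.pair (num n) one}

theorem val_nup {G : Set ZFSet.{0}} (hG : one ∈ G) (σ τ : ZFSet.{0}) :
    val G (nup σ τ) = {val G σ, val G τ} := by
  ext u
  rw [mem_val, ZFSet.mem_pair]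
  constructor
  · rintro ⟨ρ, p, -, h, rfl⟩
    rcases ZFSet.mem_pair.1 h with h | h
    · exact Or.inl (by rw [(ZFSet.pair_inj.1 h).1])
    · exact Or.inr (by rw [(ZFSet.pair_inj.1 h).1])
  · rintro (rfl | rfl)
    · exact ⟨σ, one, hG, ZFSet.mem_pair.2 (Or.inl rfl), rfl⟩
    · exact ⟨τ, one, hG, ZFSet.mem_pair.2 (Or.inr rfl), rfl⟩

theorem val_nop {G : Set ZFSet.{0}} (hG : one ∈ G) (σ τ : ZFSet.{0}) :
    val G (nop σ τ) = ZFSet.pair (val G σ) (val G τ) := by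
  rw [nop, val_nup hG, val_nup hG, val_nup hG, ZFSet.pair, ZFSet.pair_eq_singleton]

theorem val_num {G : Set ZFSet.{0}} (hG : one ∈ G) (n : ℕ) : val G (num n) = zn n := by
  induction n with
  | zero =>
    ext u
    rw [mem_val]
    simp [num, zn]
  | succ n ih =>
    ext u
    rw [mem_val, zn, ZFSet.mem_singleton]
    constructor
    · rintro ⟨ρ, p, -, h, rfl⟩
      rw [num, ZFSet.mem_singleton] at h
      rw [(ZFSet.pair_inj.1 h).1, ih]
    · rintro rfl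
      exact ⟨num n, one, hG, ZFSet.mem_singleton.2 rfl, ih⟩

theorem IsName.up {P : Set ZFSet.{0}} (h1 : one ∈ P) {σ τ : ZFSet.{0}} (hσ : IsName P σ)
    (hτ : IsName P τ) : IsName P (nup σ τ) := by
  rw [isName_iff]
  intro z hz
  rcases ZFSet.mem_pair.1 hz with rfl | rfl
  · exact ⟨_, _, rfl, h1, hσ⟩
  · exact ⟨_, _, rfl, h1, hτ⟩

theorem IsName.op {P : Set ZFSet.{0}} (h1 : one ∈ P) {σ τ : ZFSet.{0}} (hσ : IsName P σ)
    (hτ : IsName P τ) : IsName P (nop σ τ) :=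
  IsName.up h1 (IsName.up h1 hσ hσ) (IsName.up h1 hσ hτ)

theorem isName_num {P : Set ZFSet.{0}} (h1 : one ∈ P) (n : ℕ) : IsName P (num n) := by
  induction n with
  | zero =>
    rw [isName_iff]
    intro z hz
    exact absurd hz (ZFSet.notMem_empty z)
  | succ n ih =>
    rw [isName_iff]
    intro z hz
    rw [num, ZFSet.mem_singleton] at hz
    exact ⟨_, _, hz, h1, ih⟩

/-! ### Absolute functions for the recursion -/

/-- The domain of a relation. -/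
noncomputable def domZ (s : ZFSet.{0}) : ZFSet.{0} :=
  ZFSet.sep (fun k => ∃ u ∈ ZFSet.sUnion (ZFSet.sUnion s), ZFSet.pair k u ∈ s)
    (ZFSet.sUnion (ZFSet.sUnion s))

/-- Application of a function to an argument. -/
noncomputable def app (X s : ZFSet.{0}) : ZFSet.{0} :=
  ZFSet.sUnion (ZFSet.sep (fun y => ZFSet.pair s y ∈ X) (ZFSet.sUnion (ZFSet.sUnion X)))

theorem app_eq {X s t : ZFSet.{0}} (h : ∀ y, ZFSet.pair s y ∈ X ↔ y = t) : app X s = t := by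
  have h1 : ZFSet.sep (fun y => ZFSet.pair s y ∈ X) (ZFSet.sUnion (ZFSet.sUnion X)) = {t} := by
    ext y
    rw [ZFSet.mem_sep, ZFSet.mem_singleton]
    constructor
    · exact fun hy => (h y).1 hy.2
    · intro hy
      have := (h y).2 hy
      exact ⟨mem_ss_right this, this⟩
  rw [app, h1, ZFSet.sUnion_singleton]

theorem AbsF.domZ {n : ℕ} {f : (Fin n → ZFSet.{0}) → ZFSet.{0}} (hf : AbsF f) :
    AbsF (fun v => domZ (f v)) := by
  unfold Pool.Agent.Lib.MP_1a1aec_lc.domZ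
  refine AbsF.sep (R := fun v k => ∃ u ∈ ZFSet.sUnion (ZFSet.sUnion (f v)),
    ZFSet.pair k u ∈ f v) hf.sUnion.sUnion ?_
  refine AbsP.bex (R := fun v u => ZFSet.pair (v 0) u ∈ f (fun i => v i.succ))
    hf.weak.sUnion.sUnion ?_
  exact AbsP.mem (AbsF.opair (AbsF.proj _) (AbsF.proj _)) hf.weak.weak

theorem AbsF.app {n : ℕ} {f g : (Fin n → ZFSet.{0}) → ZFSet.{0}} (hf : AbsF f)
    (hg : AbsF g) : AbsF (fun v => app (f v) (g v)) := by
  unfold Pool.Agent.Lib.MP_1a1aec_lc.app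
  refine AbsF.sUnion (AbsF.sep (R := fun v y => ZFSet.pair (g v) y ∈ f v)
    hf.sUnion.sUnion ?_)
  exact AbsP.mem (AbsF.opair hg.weak (AbsF.proj _)) hf.weak

/-- Adding one more entry. -/
noncomputable def snocZ (s i : ZFSet.{0}) : ZFSet.{0} := insert (ZFSet.pair (domZ s) i) s

theorem AbsF.snocZ {n : ℕ} {f g : (Fin n → ZFSet.{0}) → ZFSet.{0}} (hf : AbsF f)
    (hg : AbsF g) : AbsF (fun v => snocZ (f v) (g v)) :=
  AbsF.ins (AbsF.opair hf.domZ hg) hf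

theorem domZ_code (x : ℕ → ZFSet.{0}) (k : ℕ) : domZ (code x k) = nat k := by
  ext z
  rw [domZ, ZFSet.mem_sep, mem_nat]
  constructor
  · rintro ⟨-, u, -, h⟩
    obtain ⟨i, hi, h2⟩ := mem_code.1 h
    exact ⟨i, hi, (ZFSet.pair_inj.1 h2).1⟩
  · rintro ⟨i, hi, rfl⟩
    have h := pair_mem_code (x := x).2 ⟨hi, rfl⟩
    exact ⟨mem_ss_left h, _, mem_ss_right h, h⟩

theorem snocZ_code (x : ℕ → ZFSet.{0}) (k : ℕ) (z : ZFSet.{0}) :
    snocZ (code x k) z = code (Function.update x k z) (k + 1) := by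
  rw [snocZ, domZ_code, code]
  rw [Function.update_self]
  rw [code_congr (x := x) (y := Function.update x k z)]
  intro i hi
  rw [Function.update_of_ne (Nat.ne_of_lt hi)]

theorem app_code {x : ℕ → ZFSet.{0}} {k i : ℕ} (hi : i < k) :
    app (code x k) (nat i) = x i := by
  refine app_eq (fun y => ?_)
  rw [pair_mem_code]
  exact ⟨fun h => h.2, fun h => ⟨hi, h⟩⟩

/-- Codes of finite sequences of natural numbers. -/
def ncode (s : ℕ → ℕ) (k : ℕ) : ZFSet.{0} := code (fun i => nat (s i)) k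

theorem snocZ_ncode (s : ℕ → ℕ) (k i : ℕ) :
    snocZ (ncode s k) (nat i) = ncode (Function.update s k i) (k + 1) := by
  rw [ncode, snocZ_code, ncode]
  congr 1
  funext j
  by_cases h : j = k
  · subst h; simp
  · rw [Function.update_of_ne h, Function.update_of_ne h]

/-- The set of all finite sequences of natural numbers. -/
noncomputable def Sfin : ZFSet.{0} :=
  ZFSet.range (fun p : (ℕ → ℕ) × ℕ => ncode p.1 p.2)

theorem mem_Sfin {z : ZFSet.{0}} : z ∈ Sfin ↔ ∃ (s : ℕ → ℕ) (k : ℕ), z = ncode s k := by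
  rw [Sfin, ZFSet.mem_range]
  constructor
  · rintro ⟨⟨s, k⟩, rfl⟩; exact ⟨s, k, rfl⟩
  · rintro ⟨s, k, rfl⟩; exact ⟨⟨s, k⟩, rfl⟩

theorem mem_Sfin_iff {z : ZFSet.{0}} : z ∈ Sfin ↔
    IsSeq z ∧ ∀ w ∈ z, ∃ k u, w = ZFSet.pair k u ∧ u ∈ om := by
  rw [mem_Sfin]
  constructor
  · rintro ⟨s, k, rfl⟩
    refine ⟨isSeq_code _ _, ?_⟩
    intro w hw
    obtain ⟨i, hi, rfl⟩ := mem_code.1 hw
    exact ⟨_, _, rfl, nat_mem_om _⟩
  · rintro ⟨h1, h2⟩
    obtain ⟨k, x, rfl⟩ := h1.exists_code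
    have h3 : ∀ i, ∃ j : ℕ, i < k → x i = nat j := by
      intro i
      by_cases hi : i < k
      · obtain ⟨a, u, h4, h5⟩ := h2 _ (pair_mem_code (x := x).2 ⟨hi, rfl⟩)
        obtain ⟨-, rfl⟩ := ZFSet.pair_inj.1 h4
        obtain ⟨j, hj⟩ := mem_om.1 h5
        exact ⟨j, fun _ => hj.symm⟩
      · exact ⟨0, fun h => absurd h hi⟩
    choose s hs using h3
    exact ⟨s, k, code_congr hs⟩

theorem AbsF.cSfin {n : ℕ} : AbsF (fun _ : Fin n → ZFSet.{0} => Sfin) := by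
  have hprod : AbsF (fun _ : Fin 0 → ZFSet.{0} =>
      ZFSet.sUnion (im om (fun a => im om (fun b => ZFSet.pair a b)))) := by
    refine AbsF.sUnion (AbsF.img (h := fun _ a => im om (fun b => ZFSet.pair a b)) AbsF.cOm ?_)
    refine AbsF.img (h := fun v b => ZFSet.pair (v 0) b) AbsF.cOm ?_
    exact AbsF.opair (AbsF.proj _) (AbsF.proj _)
  have hR : AbsP (fun w : Fin (1 + 1) → ZFSet.{0} =>
      IsSeq (w 0) ∧ ∀ y ∈ w 0, ∃ k u, y = ZFSet.pair k u ∧ u ∈ om) := by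
    refine AbsP.and (AbsP.isSeq (AbsF.proj 0)) ?_
    refine AbsP.ball (R := fun w y => ∃ k u, y = ZFSet.pair k u ∧ u ∈ om) (AbsF.proj 0) ?_
    refine AbsP.exPair (R := fun _ _ u => u ∈ om) (AbsF.proj 0) ?_
    exact AbsP.mem (AbsF.proj _) AbsF.cOm
  refine AbsF.of_mem ?_ ?_
  · intro M hM v _
    have h1 := hprod.closed M hM (fun i => i.elim0) (fun i => i.elim0)
    obtain ⟨p, hp⟩ := hM.zfc.powerset ⟨_, h1⟩
    have h2 := (AbsF.sep (n := 1) (f := fun v => v 0)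
      (R := fun _ z => IsSeq z ∧ ∀ y ∈ z, ∃ k u, y = ZFSet.pair k u ∧ u ∈ om)
      (AbsF.proj 0) hR).closed M hM (fun _ => p.1) (fun _ => p.2)
    have h3 : ZFSet.sep (fun z => IsSeq z ∧ ∀ y ∈ z, ∃ k u, y = ZFSet.pair k u ∧ u ∈ om) p.1 =
        Sfin := by
      ext z
      rw [ZFSet.mem_sep, ← mem_Sfin_iff]
      constructor
      · exact fun h => h.2
      · intro h
        refine ⟨?_, h⟩
        obtain ⟨s, k, rfl⟩ := mem_Sfin.1 h
        have hM2 : ncode s k ∈ M := hM.code_mem (fun i _ => hM.nat_mem _)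
        refine (hp ⟨_, hM2⟩).2 ?_
        intro y hy
        obtain ⟨i, hi, hy'⟩ := mem_code.1 hy
        rw [hy']
        show ZFSet.pair (nat i) (nat (s i)) ∈
          ZFSet.sUnion (im om (fun a => im om (fun b => ZFSet.pair a b)))
        refine ZFSet.mem_sUnion.2 ⟨im om (fun b => ZFSet.pair (nat i) b), ?_, ?_⟩
        · exact mem_im.2 ⟨nat i, nat_mem_om i, rfl⟩
        · exact mem_im.2 ⟨nat (s i), nat_mem_om _, rfl⟩
    rw [← h3]
    exact h2
  · refine AbsP.congr (R := fun w : Fin (n + 1) → ZFSet.{0} =>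
      IsSeq (w 0) ∧ ∀ y ∈ w 0, ∃ k u, y = ZFSet.pair k u ∧ u ∈ om) ?_
      (fun w => mem_Sfin_iff)
    exact hR.reindex (fun _ => (0 : Fin (n + 1)))

theorem AbsF.cOne {n : ℕ} : AbsF (fun _ : Fin n → ZFSet.{0} => one) :=
  AbsF.opair AbsF.cEmpty AbsF.cEmpty

theorem AbsF.nup {n : ℕ} {f g : (Fin n → ZFSet.{0}) → ZFSet.{0}} (hf : AbsF f)
    (hg : AbsF g) : AbsF (fun v => nup (f v) (g v)) :=
  AbsF.upair (AbsF.opair hf AbsF.cOne) (AbsF.opair hg AbsF.cOne)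

theorem AbsF.nop {n : ℕ} {f g : (Fin n → ZFSet.{0}) → ZFSet.{0}} (hf : AbsF f)
    (hg : AbsF g) : AbsF (fun v => nop (f v) (g v)) :=
  AbsF.nup (AbsF.nup hf hf) (AbsF.nup hf hg)

theorem AbsF.WC {n : ℕ} {f g : (Fin n → ZFSet.{0}) → ZFSet.{0}} (hf : AbsF f)
    (hg : AbsF g) : AbsF (fun v => WC (f v) (g v)) :=
  AbsF.opair (AbsF.cNat 1) (AbsF.opair hf hg)

theorem AbsF.numSeq {n : ℕ} {f : (Fin n → ZFSet.{0}) → ZFSet.{0}} (hf : AbsF f) :
    AbsF (fun v => seqF num (f v)) := by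
  refine AbsF.seq (A := num) (h := fun x => {ZFSet.pair x one}) (fun n => rfl) ?_ ?_ hf
  · exact AbsF.cEmpty
  · exact AbsF.sing (AbsF.opair (AbsF.proj 0) AbsF.cOne)

/-- Name for the atomic type of the tuple `F ∘ s`. -/
noncomputable def T0 (s : ZFSet.{0}) : ZFSet.{0} :=
  ZFSet.sUnion (im (domZ s) (fun a => im (domZ s) (fun b =>
    ZFSet.pair (nop (seqF num a) (seqF num b)) (WC (app s a) (app s b)))))

theorem AbsF.T0 {n : ℕ} {f : (Fin n → ZFSet.{0}) → ZFSet.{0}} (hf : AbsF f) :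
    AbsF (fun v => T0 (f v)) := by
  unfold Pool.Agent.Lib.MP_1a1aec_lc.T0
  refine AbsF.sUnion (AbsF.img (h := fun v a => im (Pool.Agent.Lib.MP_1a1aec_lc.domZ (f v))
    (fun b => ZFSet.pair (Pool.Agent.Lib.MP_1a1aec_lc.nop (seqF num a) (seqF num b))
      (Pool.Agent.Lib.MP_1a1aec_lc.WC (Pool.Agent.Lib.MP_1a1aec_lc.app (f v) a)
        (Pool.Agent.Lib.MP_1a1aec_lc.app (f v) b)))) hf.domZ ?_)
  refine AbsF.img (h := fun w b => ZFSet.pair (Pool.Agent.Lib.MP_1a1aec_lc.nop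
      (seqF num (w 0)) (seqF num b))
      (Pool.Agent.Lib.MP_1a1aec_lc.WC (Pool.Agent.Lib.MP_1a1aec_lc.app
        (f (fun i => w i.succ)) (w 0))
        (Pool.Agent.Lib.MP_1a1aec_lc.app (f (fun i => w i.succ)) b))) hf.weak.domZ ?_
  refine AbsF.opair (AbsF.nop (AbsF.numSeq (AbsF.proj _)) (AbsF.numSeq (AbsF.proj _))) ?_
  exact AbsF.WC (AbsF.app hf.weak.weak (AbsF.proj _)) (AbsF.app hf.weak.weak (AbsF.proj _))

/-- One step of the recursion for the names of types. -/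
noncomputable def hstep (X : ZFSet.{0}) : ZFSet.{0} :=
  im Sfin (fun s => ZFSet.pair s (im om (fun i => ZFSet.pair (app X (snocZ s i)) one)))

theorem AbsF.hstep1 : AbsF (fun v : Fin 1 → ZFSet.{0} => hstep (v 0)) := by
  unfold hstep
  refine AbsF.img (h := fun v s => ZFSet.pair s
    (im om (fun i => ZFSet.pair (Pool.Agent.Lib.MP_1a1aec_lc.app (v 0)
      (Pool.Agent.Lib.MP_1a1aec_lc.snocZ s i)) one))) AbsF.cSfin ?_
  refine AbsF.opair (AbsF.proj 0) ?_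
  refine AbsF.img (h := fun v i => ZFSet.pair (Pool.Agent.Lib.MP_1a1aec_lc.app (v (Fin.succ 0))
      (Pool.Agent.Lib.MP_1a1aec_lc.snocZ (v 0) i)) one) AbsF.cOm ?_
  exact AbsF.opair (AbsF.app (AbsF.proj _) (AbsF.snocZ (AbsF.proj _) (AbsF.proj _))) AbsF.cOne

/-- `XX m` is the function assigning to a finite sequence `s` of natural numbers the name for
the `m`-type of `F ∘ s`. -/
noncomputable def XX : ℕ → ZFSet.{0}
  | 0 => im Sfin (fun s => ZFSet.pair s (T0 s))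
  | m + 1 => hstep (XX m)

theorem AbsF.cXX (m : ℕ) : AbsF (fun _ : Fin 0 → ZFSet.{0} => XX m) := by
  induction m with
  | zero =>
    refine AbsF.img (h := fun _ s => ZFSet.pair s (Pool.Agent.Lib.MP_1a1aec_lc.T0 s))
      AbsF.cSfin ?_
    exact AbsF.opair (AbsF.proj 0) (AbsF.T0 (AbsF.proj 0))
  | succ m ih => exact AbsF.comp1 AbsF.hstep1 ih

theorem AbsF.XXseq {n : ℕ} (N₀ : ℕ) {f : (Fin n → ZFSet.{0}) → ZFSet.{0}} (hf : AbsF f) :
    AbsF (fun v => seqF (fun m => XX (m + N₀)) (f v)) := by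
  refine AbsF.seq (A := fun m => XX (m + N₀)) (h := hstep) ?_ ?_ AbsF.hstep1 hf
  · intro m
    show XX (m + 1 + N₀) = hstep (XX (m + N₀))
    rw [show m + 1 + N₀ = (m + N₀) + 1 by omega]
    rfl
  · have := AbsF.cXX (0 + N₀)
    exact this

/-- The name of the `m`-type of `F ∘ s`. -/
noncomputable def tn (m : ℕ) (s : ℕ → ℕ) (k : ℕ) : ZFSet.{0} := app (XX m) (ncode s k)

theorem tn_zero (s : ℕ → ℕ) (k : ℕ) : tn 0 s k = T0 (ncode s k) := by
  refine app_eq (fun y => ?_)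
  rw [XX, mem_im]
  constructor
  · rintro ⟨z, -, h⟩
    obtain ⟨h1, h2⟩ := ZFSet.pair_inj.1 h
    rw [← h2, h1]
  · rintro rfl
    exact ⟨_, mem_Sfin.2 ⟨s, k, rfl⟩, rfl⟩

theorem tn_succ (m : ℕ) (s : ℕ → ℕ) (k : ℕ) : tn (m + 1) s k =
    im om (fun i => ZFSet.pair (app (XX m) (snocZ (ncode s k) i)) one) := by
  refine app_eq (fun y => ?_)
  rw [XX, hstep, mem_im]
  constructor
  · rintro ⟨z, -, h⟩
    obtain ⟨h1, h2⟩ := ZFSet.pair_inj.1 h
    rw [← h2, h1]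
  · rintro rfl
    exact ⟨_, mem_Sfin.2 ⟨s, k, rfl⟩, rfl⟩

theorem mem_tn_zero {s : ℕ → ℕ} {k : ℕ} {z : ZFSet.{0}} : z ∈ tn 0 s k ↔
    ∃ a < k, ∃ b < k, z = ZFSet.pair (nop (num a) (num b)) (WC (nat (s a)) (nat (s b))) := by
  rw [tn_zero, T0, ZFSet.mem_sUnion]
  have hdom : domZ (ncode s k) = nat k := domZ_code _ _
  rw [hdom]
  constructor
  · rintro ⟨w, hw, hz⟩
    obtain ⟨a', ha', rfl⟩ := mem_im.1 hw
    obtain ⟨b', hb', rfl⟩ := mem_im.1 hz
    obtain ⟨a, ha, rfl⟩ := mem_nat.1 ha'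
    obtain ⟨b, hb, rfl⟩ := mem_nat.1 hb'
    refine ⟨a, ha, b, hb, ?_⟩
    rw [seqF_nat, seqF_nat]
    unfold ncode
    rw [app_code ha, app_code hb]
  · rintro ⟨a, ha, b, hb, rfl⟩
    refine ⟨_, mem_im.2 ⟨nat a, nat_mem_of_lt ha, rfl⟩, mem_im.2 ⟨nat b, nat_mem_of_lt hb, ?_⟩⟩
    rw [seqF_nat, seqF_nat]
    unfold ncode
    rw [app_code ha, app_code hb]

theorem mem_tn_succ {m : ℕ} {s : ℕ → ℕ} {k : ℕ} {z : ZFSet.{0}} : z ∈ tn (m + 1) s k ↔
    ∃ i : ℕ, z = ZFSet.pair (tn m (Function.update s k i) (k + 1)) one := by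
  rw [tn_succ, mem_im]
  constructor
  · rintro ⟨i', hi', rfl⟩
    obtain ⟨i, rfl⟩ := mem_om.1 hi'
    exact ⟨i, by rw [snocZ_ncode]; rfl⟩
  · rintro ⟨i, rfl⟩
    exact ⟨nat i, nat_mem_om i, by rw [snocZ_ncode]; rfl⟩

theorem isName_tn {P : Set ZFSet.{0}} (h1 : one ∈ P)
    (h2 : ∀ i j : ℕ, WC (nat i) (nat j) ∈ P) (m : ℕ) :
    ∀ (s : ℕ → ℕ) (k : ℕ), IsName P (tn m s k) := by
  induction m with
  | zero =>
    intro s k
    rw [isName_iff]
    intro z hz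
    obtain ⟨a, -, b, -, rfl⟩ := mem_tn_zero.1 hz
    exact ⟨_, _, rfl, h2 _ _, IsName.op h1 (isName_num h1 a) (isName_num h1 b)⟩
  | succ m ih =>
    intro s k
    rw [isName_iff]
    intro z hz
    obtain ⟨i, rfl⟩ := mem_tn_succ.1 hz
    exact ⟨_, _, rfl, h1, ih _ _⟩

variable {M : Set ZFSet.{0}}

theorem val_tn [Countable M] {G : Set ZFSet.{0}} {F : ℕ → M} (hF : Branch G F) (m : ℕ) :
    ∀ (s : ℕ → ℕ) (k : ℕ), val G (tn m s k) = TL M m k (fun i => F (s i)) := by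
  have hone : one ∈ G := (hF.sc F 0).2 (fun i hi => absurd hi (Nat.not_lt_zero i))
  induction m with
  | zero =>
    intro s k
    ext u
    rw [mem_val, TL, ZFSet.mem_range]
    constructor
    · rintro ⟨τ, p, hp, h, rfl⟩
      obtain ⟨a, ha, b, hb, h3⟩ := mem_tn_zero.1 h
      obtain ⟨rfl, rfl⟩ := ZFSet.pair_inj.1 h3
      refine ⟨⟨(a, b), ha, hb, (hF.wc _ _).1 hp⟩, ?_⟩
      rw [val_nop hone, val_num hone, val_num hone]
    · rintro ⟨⟨⟨a, b⟩, ha, hb, h3⟩, rfl⟩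
      refine ⟨nop (num a) (num b), WC (nat (s a)) (nat (s b)), (hF.wc _ _).2 h3,
        mem_tn_zero.2 ⟨a, ha, b, hb, rfl⟩, ?_⟩
      rw [val_nop hone, val_num hone, val_num hone]
  | succ m ih =>
    intro s k
    have hupd : ∀ i : ℕ, (fun j => F (Function.update s k i j)) =
        Function.update (fun j => F (s j)) k (F i) := by
      intro i
      funext j
      by_cases h : j = k
      · subst h; simp
      · rw [Function.update_of_ne h, Function.update_of_ne h]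
    ext u
    rw [mem_val, mem_TL_succ]
    constructor
    · rintro ⟨τ, p, hp, h, rfl⟩
      obtain ⟨i, h3⟩ := mem_tn_succ.1 h
      obtain ⟨rfl, rfl⟩ := ZFSet.pair_inj.1 h3
      refine ⟨F i, ?_⟩
      rw [ih, hupd]
    · rintro ⟨z, rfl⟩
      obtain ⟨i, rfl⟩ := hF.surj z
      refine ⟨_, one, hone, mem_tn_succ.2 ⟨i, rfl⟩, ?_⟩
      rw [ih, hupd]

/-- The identity sequence of length `n`. -/
noncomputable def idN (n : ZFSet.{0}) : ZFSet.{0} := im n (fun k => ZFSet.pair k k)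

theorem idN_nat (n : ℕ) : idN (nat n) = ncode (fun i => i) n := by
  ext z
  rw [idN, mem_im, ncode, mem_code]
  constructor
  · rintro ⟨k', hk', rfl⟩
    obtain ⟨k, hk, rfl⟩ := mem_nat.1 hk'
    exact ⟨k, hk, rfl⟩
  · rintro ⟨k, hk, rfl⟩
    exact ⟨nat k, nat_mem_of_lt hk, rfl⟩

theorem AbsF.idN {n : ℕ} {f : (Fin n → ZFSet.{0}) → ZFSet.{0}} (hf : AbsF f) :
    AbsF (fun v => idN (f v)) := by
  unfold Pool.Agent.Lib.MP_1a1aec_lc.idN
  exact AbsF.img (h := fun _ k => ZFSet.pair k k) hf (AbsF.opair (AbsF.proj 0) (AbsF.proj 0))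

/-- Name for the set of types of the elements near `F n`, over `F ↾ n`. -/
noncomputable def nA (N₀ : ℕ) (n : ZFSet.{0}) : ZFSet.{0} :=
  im om (fun i => ZFSet.pair (app (seqF (fun m => XX (m + N₀)) n) (snocZ (idN n) i)) (WC i n))

/-- Name for the set of all types over `F ↾ n`. -/
noncomputable def nB (N₀ : ℕ) (n : ZFSet.{0}) : ZFSet.{0} :=
  im om (fun i => ZFSet.pair (app (seqF (fun m => XX (m + N₀)) n) (snocZ (idN n) i)) one)

/-- The name for which the truth lemma fails. -/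
noncomputable def sig (N₀ : ℕ) : ZFSet.{0} :=
  im om (fun n => ZFSet.pair (nup (nA N₀ n) (nB N₀ n)) one)

theorem AbsF.cSig (N₀ : ℕ) : AbsF (fun _ : Fin 0 → ZFSet.{0} => sig N₀) := by
  unfold sig
  refine AbsF.img (h := fun _ n => ZFSet.pair (Pool.Agent.Lib.MP_1a1aec_lc.nup (nA N₀ n)
    (nB N₀ n)) one) AbsF.cOm ?_
  refine AbsF.opair (AbsF.nup ?_ ?_) AbsF.cOne
  · unfold nA
    refine AbsF.img (h := fun v i => ZFSet.pair (Pool.Agent.Lib.MP_1a1aec_lc.app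
      (seqF (fun m => XX (m + N₀)) (v 0))
      (Pool.Agent.Lib.MP_1a1aec_lc.snocZ (Pool.Agent.Lib.MP_1a1aec_lc.idN (v 0)) i))
      (Pool.Agent.Lib.MP_1a1aec_lc.WC i (v 0))) AbsF.cOm ?_
    refine AbsF.opair (AbsF.app (AbsF.XXseq N₀ (AbsF.proj _)) ?_)
      (AbsF.WC (AbsF.proj _) (AbsF.proj _))
    exact AbsF.snocZ (AbsF.idN (AbsF.proj _)) (AbsF.proj _)
  · unfold nB
    refine AbsF.img (h := fun v i => ZFSet.pair (Pool.Agent.Lib.MP_1a1aec_lc.app
      (seqF (fun m => XX (m + N₀)) (v 0))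
      (Pool.Agent.Lib.MP_1a1aec_lc.snocZ (Pool.Agent.Lib.MP_1a1aec_lc.idN (v 0)) i))
      one) AbsF.cOm ?_
    refine AbsF.opair (AbsF.app (AbsF.XXseq N₀ (AbsF.proj _)) ?_) AbsF.cOne
    exact AbsF.snocZ (AbsF.idN (AbsF.proj _)) (AbsF.proj _)

theorem sig_mem (hM : TM M) (N₀ : ℕ) : sig N₀ ∈ M :=
  (AbsF.cSig N₀).closed M hM (fun i => i.elim0) (fun i => i.elim0)

theorem app_snoc (N₀ n i : ℕ) :
    app (seqF (fun m => XX (m + N₀)) (nat n)) (snocZ (idN (nat n)) (nat i)) =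
      tn (n + N₀) (Function.update (fun j => j) n i) (n + 1) := by
  rw [seqF_nat, idN_nat, snocZ_ncode]
  rfl

theorem isName_sig (hM : TM M) (N₀ : ℕ) : IsName (Q.P M) (sig N₀) := by
  have hone : one ∈ Q.P M := by
    have h := sc_mem_P hM (fun _ => ⟨∅, hM.empty_mem⟩) 0
    exact h
  have hwc : ∀ i j : ℕ, WC (nat i) (nat j) ∈ Q.P M := fun i j => wc_mem_P hM i j
  rw [isName_iff]
  intro z hz
  obtain ⟨n', hn', rfl⟩ := mem_im.1 hz
  obtain ⟨n, rfl⟩ := mem_om.1 hn'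
  refine ⟨_, _, rfl, hone, IsName.up hone ?_ ?_⟩
  · rw [isName_iff]
    intro w hw
    obtain ⟨i', hi', rfl⟩ := mem_im.1 hw
    obtain ⟨i, rfl⟩ := mem_om.1 hi'
    refine ⟨_, _, rfl, hwc i n, ?_⟩
    rw [app_snoc]
    exact isName_tn hone hwc _ _ _
  · rw [isName_iff]
    intro w hw
    obtain ⟨i', hi', rfl⟩ := mem_im.1 hw
    obtain ⟨i, rfl⟩ := mem_om.1 hi'
    refine ⟨_, _, rfl, hone, ?_⟩
    rw [app_snoc]
    exact isName_tn hone hwc _ _ _

/-- `F n` has near it representatives of all `(n + N₀)`-types over `F ↾ n`. -/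
def Bad [Countable M] (N₀ : ℕ) (x : ℕ → M) (n : ℕ) : Prop :=
  ∀ z : M, ∃ z' : M, near z'.1 (x n).1 ∧
    TL M (n + N₀) (n + 1) (Function.update x n z') =
      TL M (n + N₀) (n + 1) (Function.update x n z)

theorem mem_val_nA [Countable M] {G : Set ZFSet.{0}} {F : ℕ → M} (hF : Branch G F)
    (N₀ n : ℕ) {u : ZFSet.{0}} : u ∈ val G (nA N₀ (nat n)) ↔
      ∃ z : M, near z.1 (F n).1 ∧ TL M (n + N₀) (n + 1) (Function.update F n z) = u := by
  have hupd : ∀ i : ℕ, (fun j => F (Function.update (fun j => j) n i j)) =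
      Function.update F n (F i) := by
    intro i
    funext j
    by_cases h : j = n
    · subst h; simp
    · rw [Function.update_of_ne h, Function.update_of_ne h]
  rw [mem_val]
  constructor
  · rintro ⟨τ, p, hp, h, rfl⟩
    obtain ⟨i', hi', h3⟩ := mem_im.1 h
    obtain ⟨i, rfl⟩ := mem_om.1 hi'
    obtain ⟨rfl, rfl⟩ := ZFSet.pair_inj.1 h3
    refine ⟨F i, (hF.wc _ _).1 hp, ?_⟩
    rw [app_snoc, val_tn hF, hupd]
  · rintro ⟨z, hz, rfl⟩
    obtain ⟨i, rfl⟩ := hF.surj z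
    refine ⟨_, WC (nat i) (nat n), (hF.wc _ _).2 hz, mem_im.2 ⟨nat i, nat_mem_om i, rfl⟩, ?_⟩
    rw [app_snoc, val_tn hF, hupd]

theorem mem_val_nB [Countable M] {G : Set ZFSet.{0}} {F : ℕ → M} (hF : Branch G F)
    (N₀ n : ℕ) {u : ZFSet.{0}} : u ∈ val G (nB N₀ (nat n)) ↔
      ∃ z : M, TL M (n + N₀) (n + 1) (Function.update F n z) = u := by
  have hone : one ∈ G := (hF.sc F 0).2 (fun i hi => absurd hi (Nat.not_lt_zero i))
  have hupd : ∀ i : ℕ, (fun j => F (Function.update (fun j => j) n i j)) =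
      Function.update F n (F i) := by
    intro i
    funext j
    by_cases h : j = n
    · subst h; simp
    · rw [Function.update_of_ne h, Function.update_of_ne h]
  rw [mem_val]
  constructor
  · rintro ⟨τ, p, hp, h, rfl⟩
    obtain ⟨i', hi', h3⟩ := mem_im.1 h
    obtain ⟨i, rfl⟩ := mem_om.1 hi'
    obtain ⟨rfl, rfl⟩ := ZFSet.pair_inj.1 h3
    refine ⟨F i, ?_⟩
    rw [app_snoc, val_tn hF, hupd]
  · rintro ⟨z, rfl⟩
    obtain ⟨i, rfl⟩ := hF.surj z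
    refine ⟨_, one, hone, mem_im.2 ⟨nat i, nat_mem_om i, rfl⟩, ?_⟩
    rw [app_snoc, val_tn hF, hupd]

theorem val_nA_eq_iff [Countable M] {G : Set ZFSet.{0}} {F : ℕ → M} (hF : Branch G F)
    (N₀ n : ℕ) : val G (nA N₀ (nat n)) = val G (nB N₀ (nat n)) ↔ Bad N₀ F n := by
  constructor
  · intro h z
    have h1 : TL M (n + N₀) (n + 1) (Function.update F n z) ∈ val G (nA N₀ (nat n)) := by
      rw [h, mem_val_nB hF]
      exact ⟨z, rfl⟩
    rw [mem_val_nA hF] at h1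
    exact h1
  · intro h
    ext u
    rw [mem_val_nA hF, mem_val_nB hF]
    constructor
    · rintro ⟨z, -, hz⟩; exact ⟨z, hz⟩
    · rintro ⟨z, rfl⟩; exact h z

end Pool.Agent.Lib.MP_1a1aec_lc
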