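import Pool.Agent.Lib.MP_1a1aec_lc.Calc2

/-!
Natural numbers and recursion on them inside transitive models of ZFC.
-/

open FirstOrder FirstOrder.Language

namespace Pool.Agent.Lib.MP_1a1aec_lc

/-- von Neumann numerals -/
def nat : ℕ → ZFSet.{0}
  | 0 => ∅
  | n + 1 => insert (nat n) (nat n)

@[simp] theorem nat_zero : nat 0 = ∅ := rfl

theorem nat_succ (n : ℕ) : nat (n + 1) = insert (nat n) (nat n) := rfl

theorem mem_nat {n : ℕ} {x : ZFSet.{0}} : x ∈ nat n ↔ ∃ k < n, x = nat k := by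
  induction n with
  | zero => simp
  | succ n ih =>
    rw [nat_succ, ZFSet.mem_insert_iff, ih]
    constructor
    · rintro (h | ⟨k, hk, h⟩)
      · exact ⟨n, Nat.lt_succ_self n, h⟩
      · exact ⟨k, hk.trans (Nat.lt_succ_self n), h⟩
    · rintro ⟨k, hk, h⟩
      rcases Nat.lt_succ_iff_lt_or_eq.1 hk with hk | rfl
      · exact Or.inr ⟨k, hk, h⟩
      · exact Or.inl h

theorem nat_mem_of_lt {k n : ℕ} (h : k < n) : nat k ∈ nat n := mem_nat.2 ⟨k, h, rfl⟩

theorem nat_inj {m n : ℕ} : nat m = nat n ↔ m = n := by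
  refine ⟨fun h => ?_, fun h => by rw [h]⟩
  rcases lt_trichotomy m n with h1 | h1 | h1
  · exact absurd (h ▸ nat_mem_of_lt h1) (ZFSet.mem_irrefl _)
  · exact h1
  · exact absurd (h ▸ nat_mem_of_lt h1) (ZFSet.mem_irrefl _)

theorem nat_mem_iff {k n : ℕ} : nat k ∈ nat n ↔ k < n := by
  rw [mem_nat]
  constructor
  · rintro ⟨j, hj, h⟩
    rwa [nat_inj.1 h]
  · intro h; exact ⟨k, h, rfl⟩

/-- The set of natural numbers. -/
noncomputable def om : ZFSet.{0} := ZFSet.range nat

@[simp] theorem mem_om {x : ZFSet.{0}} : x ∈ om ↔ ∃ n, nat n = x := by simp [om]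

theorem nat_mem_om (n : ℕ) : nat n ∈ om := mem_om.2 ⟨n, rfl⟩

/-- An absolute description of natural numbers. -/
def IsNat (z : ZFSet.{0}) : Prop :=
  (∀ y ∈ z, ∀ x ∈ y, x ∈ z) ∧ ∀ y ∈ insert z z, y = ∅ ∨ ∃ u ∈ y, y = insert u u

theorem isNat_nat (n : ℕ) : IsNat (nat n) := by
  constructor
  · intro y hy x hx
    obtain ⟨k, hk, rfl⟩ := mem_nat.1 hy
    obtain ⟨j, hj, rfl⟩ := mem_nat.1 hx
    exact nat_mem_of_lt (hj.trans hk)
  · intro y hy
    rw [← nat_succ] at hy
    obtain ⟨k, hk, rfl⟩ := mem_nat.1 hy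
    cases k with
    | zero => exact Or.inl rfl
    | succ k => exact Or.inr ⟨nat k, nat_mem_of_lt (Nat.lt_succ_self k), rfl⟩

theorem IsNat.exists {z : ZFSet.{0}} (h : IsNat z) : ∃ n, nat n = z := by
  induction z using ZFSet.inductionOn with
  | _ z ih =>
    rcases h.2 z (ZFSet.mem_insert z z) with h0 | ⟨u, hu, hz⟩
    · exact ⟨0, h0.symm⟩
    · have hu' : IsNat u := by
        constructor
        · intro y hy x hx
          have h1 : y ∈ z := h.1 u hu y hy
          have h2 : x ∈ z := h.1 y h1 x hx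
          rw [hz, ZFSet.mem_insert_iff] at h2
          rcases h2 with h2 | h2
          · rw [h2] at hx
            exact absurd hx (ZFSet.mem_asymm hy)
          · exact h2
        · intro y hy
          rw [← hz] at hy
          exact h.2 y (ZFSet.mem_insert_of_mem _ hy)
      obtain ⟨n, hn⟩ := ih u hu hu'
      exact ⟨n + 1, by rw [nat_succ, hn, ← hz]⟩

theorem isNat_iff {z : ZFSet.{0}} : IsNat z ↔ z ∈ om := by
  rw [mem_om]
  constructor
  · exact fun h => h.exists
  · rintro ⟨n, rfl⟩; exact isNat_nat n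

theorem AbsP.isNat {n : ℕ} {f : (Fin n → ZFSet.{0}) → ZFSet.{0}} (hf : AbsF f) :
    AbsP (fun v => IsNat (f v)) := by
  unfold IsNat
  refine AbsP.and ?_ ?_
  · refine AbsP.ball (R := fun v y => ∀ x ∈ y, x ∈ f v) hf ?_
    refine AbsP.ball (R := fun w x => x ∈ f (fun i => w i.succ)) (AbsF.proj 0) ?_
    exact AbsP.mem (AbsF.proj 0) hf.weak.weak
  · refine AbsP.ball (R := fun v y => y = ∅ ∨ ∃ u ∈ y, y = insert u u) (AbsF.ins hf hf) ?_
    refine AbsP.or (AbsP.eq (AbsF.proj 0) AbsF.cEmpty) ?_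
    refine AbsP.bex (R := fun w u => w 0 = insert u u) (AbsF.proj 0) ?_
    exact AbsP.eq (AbsF.proj (Fin.succ 0)) (AbsF.ins (AbsF.proj 0) (AbsF.proj 0))

theorem TM.nat_mem {M : Set ZFSet.{0}} (hM : TM M) (n : ℕ) : nat n ∈ M := by
  induction n with
  | zero => exact hM.empty_mem
  | succ n ih =>
    have := (AbsF.ins (AbsF.proj (n := 1) 0) (AbsF.proj 0)).closed M hM (fun _ => nat n)
      (fun _ => ih)
    exact this

theorem TM.om_mem {M : Set ZFSet.{0}} (hM : TM M) : om ∈ M := by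
  obtain ⟨x, ⟨e, he, hex⟩, hx⟩ := hM.zfc.infinity
  have hall : ∀ n, nat n ∈ x.1 := by
    intro n
    induction n with
    | zero =>
      have : e.1 = ∅ := by
        rw [ZFSet.eq_empty]
        intro z hz
        exact he ⟨z, hM.trans _ e.2 _ hz⟩ hz
      rw [nat_zero, ← this]; exact hex
    | succ n ih =>
      obtain ⟨s, hs, hsx⟩ := hx ⟨nat n, hM.nat_mem n⟩ ih
      have : s.1 = nat (n + 1) := by
        ext w
        rw [nat_succ, ZFSet.mem_insert_iff]
        constructor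
        · intro hw
          rcases (hs ⟨w, hM.trans _ s.2 _ hw⟩).1 hw with h | h
          · exact Or.inr h
          · exact Or.inl (Subtype.ext_iff.1 h)
        · rintro (h | h)
          · exact (hs ⟨w, h ▸ hM.nat_mem n⟩).2 (Or.inr (Subtype.ext h))
          · exact (hs ⟨w, hM.trans _ (hM.nat_mem n) _ h⟩).2 (Or.inl h)
      rw [← this]; exact hsx
  have h1 := (AbsF.sep (n := 1) (R := fun _ z => IsNat z) (AbsF.proj 0)
    (AbsP.isNat (AbsF.proj 0))).closed M hM (fun _ => x.1) (fun _ => x.2)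
  have h2 : ZFSet.sep (fun z => IsNat z) x.1 = om := by
    ext z
    rw [ZFSet.mem_sep, isNat_iff]
    constructor
    · exact fun h => h.2
    · intro h
      obtain ⟨n, rfl⟩ := mem_om.1 h
      exact ⟨hall n, h⟩
  rw [← h2]
  exact h1

theorem AbsF.cOm {n : ℕ} : AbsF (fun _ : Fin n → ZFSet.{0} => om) := by
  refine AbsF.of_mem (fun M hM _ _ => hM.om_mem) ?_
  exact (AbsP.isNat (AbsF.proj 0)).congr (fun w => isNat_iff.symm)

theorem AbsF.cNat {n : ℕ} (k : ℕ) : AbsF (fun _ : Fin n → ZFSet.{0} => nat k) := by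
  induction k with
  | zero => exact AbsF.cEmpty
  | succ k ih => exact AbsF.ins ih ih

open Classical in
/-- The function on natural numbers (as sets) given by a sequence; `∅` elsewhere. -/
noncomputable def seqF (A : ℕ → ZFSet.{0}) (x : ZFSet.{0}) : ZFSet.{0} :=
  if h : ∃ n, nat n = x then A h.choose else ∅

@[simp] theorem seqF_nat (A : ℕ → ZFSet.{0}) (n : ℕ) :
    seqF A (nat n) = A n := by
  have h : ∃ k, nat k = nat n :=
    ⟨n, rfl⟩
  rw [seqF, dif_pos h]
  congr 1
  exact nat_inj.1 h.choose_spec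

end Pool.Agent.Lib.MP_1a1aec_lc
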