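import Pool.Agent.Lib.MP_1a1aec_lc.Defs

/-!
Ehrenfeucht-Fraisse types over a class of sets, coded as sets.
-/

open FirstOrder FirstOrder.Language

namespace Pool.Agent.Lib.MP_1a1aec_lc

/-- `x ∈ y ∨ x = y` -/
def near (x y : ZFSet.{0}) : Prop := x ∈ y ∨ x = y

theorem near_refl (x : ZFSet.{0}) : near x x := Or.inr rfl

theorem eq_iff_near {x y : ZFSet.{0}} : x = y ↔ near x y ∧ near y x := by
  constructor
  · rintro rfl; exact ⟨near_refl _, near_refl _⟩
  · rintro ⟨h1 | h1, h2 | h2⟩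
    · exact absurd h2 (ZFSet.mem_asymm h1)
    · exact h2.symm
    · exact h1
    · exact h1

theorem mem_iff_near {x y : ZFSet.{0}} : x ∈ y ↔ near x y ∧ ¬ near y x := by
  constructor
  · intro h
    refine ⟨Or.inl h, ?_⟩
    rintro (h2 | h2)
    · exact ZFSet.mem_asymm h h2
    · rw [h2] at h; exact ZFSet.mem_irrefl _ h
  · rintro ⟨h1 | h1, h2⟩
    · exact h1
    · rw [h1] at h2; exact absurd (near_refl _) h2

/-- Zermelo numerals. -/
def zn : ℕ → ZFSet.{0}
  | 0 => ∅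
  | n + 1 => {zn n}

theorem zn_inj : ∀ {m n : ℕ}, zn m = zn n ↔ m = n
  | 0, 0 => by simp
  | 0, n + 1 => by
    simp only [zn]
    constructor
    · intro h
      exact absurd (h ▸ ZFSet.mem_singleton.2 rfl : zn n ∈ (∅ : ZFSet.{0})) (ZFSet.notMem_empty _)
    · intro h; omega
  | m + 1, 0 => by
    simp only [zn]
    constructor
    · intro h
      exact absurd (h.symm ▸ ZFSet.mem_singleton.2 rfl : zn m ∈ (∅ : ZFSet.{0}))
        (ZFSet.notMem_empty _)
    · intro h; omega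
  | m + 1, n + 1 => by
    simp only [zn, ZFSet.singleton_inj]
    rw [zn_inj]
    omega

/-- The `m`-type of the tuple `(x 0, …, x (k-1))` in `(M, ∈)`. -/
noncomputable def TL (M : Set ZFSet.{0}) [Countable M] : ℕ → ℕ → (ℕ → M) → ZFSet.{0}
  | 0, k, x => ZFSet.range
      (fun p : {p : ℕ × ℕ // p.1 < k ∧ p.2 < k ∧ near (x p.1).1 (x p.2).1} =>
        ZFSet.pair (zn p.1.1) (zn p.1.2))
  | m + 1, k, x => ZFSet.range (fun z : M => TL M m (k + 1) (Function.update x k z))

variable {M : Set ZFSet.{0}} [Countable M]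

theorem mem_TL_zero {k : ℕ} {x : ℕ → M} {a b : ℕ} :
    ZFSet.pair (zn a) (zn b) ∈ TL M 0 k x ↔ a < k ∧ b < k ∧ near (x a).1 (x b).1 := by
  rw [TL, ZFSet.mem_range]
  constructor
  · rintro ⟨⟨⟨c, d⟩, h⟩, h2⟩
    simp only [ZFSet.pair_inj, zn_inj] at h2
    obtain ⟨rfl, rfl⟩ := h2
    exact h
  · intro h
    exact ⟨⟨(a, b), h⟩, rfl⟩

theorem mem_TL_succ {m k : ℕ} {x : ℕ → M} {t : ZFSet.{0}} :
    t ∈ TL M (m + 1) k x ↔ ∃ z : M, TL M m (k + 1) (Function.update x k z) = t := by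
  rw [TL, ZFSet.mem_range]

theorem TL_succ_forth {m k : ℕ} {x x' : ℕ → M} (h : TL M (m + 1) k x = TL M (m + 1) k x')
    (z : M) : ∃ z' : M, TL M m (k + 1) (Function.update x k z) =
      TL M m (k + 1) (Function.update x' k z') := by
  have : TL M m (k + 1) (Function.update x k z) ∈ TL M (m + 1) k x' := by
    rw [← h]; exact mem_TL_succ.2 ⟨z, rfl⟩
  obtain ⟨z', hz'⟩ := mem_TL_succ.1 this
  exact ⟨z', hz'.symm⟩

theorem TL_congr {m : ℕ} : ∀ {k : ℕ} {x x' : ℕ → M}, (∀ i < k, x i = x' i) →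
    TL M m k x = TL M m k x' := by
  induction m with
  | zero =>
    intro k x x' h
    ext t
    rw [TL, TL, ZFSet.mem_range, ZFSet.mem_range]
    constructor
    · rintro ⟨⟨p, h1, h2, h3⟩, rfl⟩
      exact ⟨⟨p, h1, h2, by rw [← h _ h1, ← h _ h2]; exact h3⟩, rfl⟩
    · rintro ⟨⟨p, h1, h2, h3⟩, rfl⟩
      exact ⟨⟨p, h1, h2, by rw [h _ h1, h _ h2]; exact h3⟩, rfl⟩
  | succ m ih =>
    intro k x x' h
    ext t
    rw [mem_TL_succ, mem_TL_succ]
    have : ∀ z : M, TL M m (k + 1) (Function.update x k z) =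
        TL M m (k + 1) (Function.update x' k z) := by
      intro z
      apply ih
      intro i hi
      rcases Nat.lt_succ_iff_lt_or_eq.1 hi with hi | rfl
      · rw [Function.update_of_ne (Nat.ne_of_lt hi), Function.update_of_ne (Nat.ne_of_lt hi), h i hi]
      · simp
    simp only [this]

theorem TL_near {m : ℕ} : ∀ {k : ℕ} {x x' : ℕ → M}, TL M m k x = TL M m k x' →
    ∀ a < k, ∀ b < k, (near (x a).1 (x b).1 ↔ near (x' a).1 (x' b).1) := by
  induction m with
  | zero =>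
    intro k x x' h a ha b hb
    have h1 := mem_TL_zero (x := x) (k := k) (a := a) (b := b)
    have h2 := mem_TL_zero (x := x') (k := k) (a := a) (b := b)
    rw [h] at h1
    constructor
    · intro h3; exact (h2.1 (h1.2 ⟨ha, hb, h3⟩)).2.2
    · intro h3; exact (h1.1 (h2.2 ⟨ha, hb, h3⟩)).2.2
  | succ m ih =>
    intro k x x' h a ha b hb
    obtain ⟨z', hz'⟩ := TL_succ_forth h (x 0)
    have := ih hz' a (by omega) b (by omega)
    rwa [Function.update_of_ne (by omega), Function.update_of_ne (by omega),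
      Function.update_of_ne (by omega), Function.update_of_ne (by omega)] at this

theorem TL_finite (m : ℕ) : ∀ k : ℕ, (Set.range (fun x : ℕ → M => TL M m k x)).Finite := by
  induction m with
  | zero =>
    intro k
    let g : Set (Fin k × Fin k) → ZFSet.{0} := fun s =>
      ZFSet.range (fun p : {p : ℕ × ℕ // ∃ q ∈ s, p = ((q.1 : ℕ), (q.2 : ℕ))} =>
        ZFSet.pair (zn p.1.1) (zn p.1.2))
    refine (Set.finite_range g).subset ?_
    rintro _ ⟨x, rfl⟩
    refine ⟨{q | near (x q.1).1 (x q.2).1}, ?_⟩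
    ext t
    simp only [g, TL, ZFSet.mem_range]
    constructor
    · rintro ⟨⟨p, q, hq, rfl⟩, rfl⟩
      exact ⟨⟨(q.1, q.2), q.1.2, q.2.2, hq⟩, rfl⟩
    · rintro ⟨⟨p, h1, h2, h3⟩, rfl⟩
      exact ⟨⟨p, ⟨⟨p.1, h1⟩, ⟨p.2, h2⟩⟩, h3, rfl⟩, rfl⟩
  | succ m ih =>
    intro k
    have hA := ih (k + 1)
    have hsub : (Set.range (fun x : ℕ → M => TL M (m + 1) k x)) ⊆
        (fun t : ZFSet.{0} => {u | u ∈ t}) ⁻¹'
          {s | s ⊆ Set.range (fun x : ℕ → M => TL M m (k + 1) x)} := by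
      rintro _ ⟨x, rfl⟩
      intro u hu
      obtain ⟨z, hz⟩ := mem_TL_succ.1 hu
      exact ⟨_, hz⟩
    refine Set.Finite.subset ?_ hsub
    refine Set.Finite.preimage ?_ hA.finite_subsets
    intro a _ b _ hab
    ext u
    exact Set.ext_iff.1 hab u

theorem term_pos {α : Type} {m : ℕ} (t : LSet.Term (α ⊕ Fin m)) :
    ∃ s : α ⊕ Fin m, ∀ (N : Set ZFSet.{0}) (v : α ⊕ Fin m → N), t.realize v = v s := by
  cases t with
  | var s => exact ⟨s, fun N v => rfl⟩
  | func f _ => exact f.elim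

/-- Types control formulas. -/
theorem type_control {α : Type} {m : ℕ} (φ : LSet.BoundedFormula α m) :
    ∃ N : ℕ, ∀ (M : Set ZFSet.{0}) [Countable M], ∀ n ≥ N, ∀ (k : ℕ) (x x' : ℕ → M),
      TL M n k x = TL M n k x' → ∀ (π : α → ℕ) (ρ : Fin m → ℕ), (∀ i, π i < k) →
        (∀ i, ρ i < k) →
        (φ.Realize (fun i => x (π i)) (fun i => x (ρ i)) ↔
          φ.Realize (fun i => x' (π i)) (fun i => x' (ρ i))) := by
  induction φ with
  | falsum => exact ⟨0, fun M _ n _ k x x' _ π ρ _ _ => Iff.rfl⟩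
  | @equal m t₁ t₂ =>
    refine ⟨0, fun M _ n _ k x x' h π ρ hπ hρ => ?_⟩
    obtain ⟨s₁, hs₁⟩ := term_pos t₁
    obtain ⟨s₂, hs₂⟩ := term_pos t₂
    simp only [BoundedFormula.Realize]
    rw [hs₁, hs₂, hs₁, hs₂, Subtype.ext_iff, Subtype.ext_iff, eq_iff_near, eq_iff_near]
    have key : ∀ s : α ⊕ Fin m, ∃ a < k, ∀ y : ℕ → M,
        Sum.elim (fun i => y (π i)) (fun i => y (ρ i)) s = y a := by
      rintro (i | i)
      · exact ⟨π i, hπ i, fun y => rfl⟩
      · exact ⟨ρ i, hρ i, fun y => rfl⟩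
    obtain ⟨a, ha, ha'⟩ := key s₁
    obtain ⟨b, hb, hb'⟩ := key s₂
    rw [ha', hb', ha', hb']
    rw [TL_near h a ha b hb, TL_near h b hb a ha]
  | @rel m l R ts =>
    refine ⟨0, fun M _ n _ k x x' h π ρ hπ hρ => ?_⟩
    cases R with
    | mem =>
      obtain ⟨s₁, hs₁⟩ := term_pos (ts 0)
      obtain ⟨s₂, hs₂⟩ := term_pos (ts 1)
      have hr : ∀ v : α ⊕ Fin m → M,
          (Structure.RelMap (L := LSet) (M := M) MemSymb.mem (fun i => (ts i).realize v) ↔
            (v s₁).1 ∈ (v s₂).1) := by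
        intro v
        rw [← hs₁ M v, ← hs₂ M v]
        exact Iff.rfl
      have key : ∀ s : α ⊕ Fin m, ∃ a < k, ∀ y : ℕ → M,
          Sum.elim (fun i => y (π i)) (fun i => y (ρ i)) s = y a := by
        rintro (i | i)
        · exact ⟨π i, hπ i, fun y => rfl⟩
        · exact ⟨ρ i, hρ i, fun y => rfl⟩
      obtain ⟨a, ha, ha'⟩ := key s₁
      obtain ⟨b, hb, hb'⟩ := key s₂
      simp only [BoundedFormula.Realize]
      refine (hr _).trans (Iff.trans ?_ (hr _).symm)
      rw [ha', hb', ha', hb', mem_iff_near, mem_iff_near]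
      rw [TL_near h a ha b hb, TL_near h b hb a ha]
  | imp φ ψ ih₁ ih₂ =>
    obtain ⟨N₁, h₁⟩ := ih₁
    obtain ⟨N₂, h₂⟩ := ih₂
    refine ⟨max N₁ N₂, fun M _ n hn k x x' h π ρ hπ hρ => ?_⟩
    simp only [BoundedFormula.Realize]
    rw [h₁ M n (le_of_max_le_left hn) k x x' h π ρ hπ hρ,
      h₂ M n (le_of_max_le_right hn) k x x' h π ρ hπ hρ]
  | @all m φ ih =>
    obtain ⟨N, hN⟩ := ih
    refine ⟨N + 1, fun M _ n hn k x x' h π ρ hπ hρ => ?_⟩
    obtain ⟨n, rfl⟩ : ∃ n', n = n' + 1 := ⟨n - 1, by omega⟩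
    have main : ∀ y y' : ℕ → M, TL M (n + 1) k y = TL M (n + 1) k y' →
        (∀ a, φ.Realize (fun i => y (π i)) (Fin.snoc (fun i => y (ρ i)) a)) →
        ∀ a', φ.Realize (fun i => y' (π i)) (Fin.snoc (fun i => y' (ρ i)) a') := by
      intro y y' hy hall a'
      obtain ⟨a, ha⟩ := TL_succ_forth hy.symm a'
      have h1 := hN M n (by omega) (k + 1) _ _ ha π (Fin.snoc (α := fun _ => ℕ) ρ k)
        (fun i => (hπ i).trans (Nat.lt_succ_self k)) (by
          intro i
          refine Fin.lastCases ?_ (fun j => ?_) i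
          · simp
          · simpa using (hρ j).trans (Nat.lt_succ_self k))
      have e1 : ∀ (u : ℕ → M) (b : M), (fun i => Function.update u k b (π i)) =
          (fun i => u (π i)) := by
        intro u b
        funext i
        rw [Function.update_of_ne (Nat.ne_of_lt (hπ i))]
      have e2 : ∀ (u : ℕ → M) (b : M),
          (fun i => Function.update u k b (Fin.snoc (α := fun _ => ℕ) ρ k i)) =
          (Fin.snoc (fun i => u (ρ i)) b : Fin (m + 1) → M) := by
        intro u b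
        funext i
        refine Fin.lastCases ?_ (fun j => ?_) i
        · simp
        · simp only [Fin.snoc_castSucc]
          rw [Function.update_of_ne (Nat.ne_of_lt (hρ j))]
      rw [e1, e1, e2, e2] at h1
      exact h1.2 (hall a)
    exact ⟨main x x' h, main x' x h.symm⟩

end Pool.Agent.Lib.MP_1a1aec_lc
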