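import Pool.Agent.Lib.MP_1a1aec_lc.Rec
import Pool.Agent.Lib.MP_1a1aec_lc.Types

/-!
The notion of class forcing.
-/

open FirstOrder FirstOrder.Language

namespace Pool.Agent.Lib.MP_1a1aec_lc

/-- The finite sequence `(x 0, …, x (k-1))` as a function on the numeral `k`. -/
def code (x : ℕ → ZFSet.{0}) : ℕ → ZFSet.{0}
  | 0 => ∅
  | k + 1 => insert (ZFSet.pair (nat k) (x k)) (code x k)

theorem mem_code {x : ℕ → ZFSet.{0}} {k : ℕ} {z : ZFSet.{0}} :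
    z ∈ code x k ↔ ∃ i < k, z = ZFSet.pair (nat i) (x i) := by
  induction k with
  | zero => simp [code]
  | succ k ih =>
    rw [code, ZFSet.mem_insert_iff, ih]
    constructor
    · rintro (h | ⟨i, hi, h⟩)
      · exact ⟨k, Nat.lt_succ_self k, h⟩
      · exact ⟨i, hi.trans (Nat.lt_succ_self k), h⟩
    · rintro ⟨i, hi, h⟩
      rcases Nat.lt_succ_iff_lt_or_eq.1 hi with hi | rfl
      · exact Or.inr ⟨i, hi, h⟩
      · exact Or.inl h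

theorem pair_mem_code {x : ℕ → ZFSet.{0}} {k i : ℕ} {u : ZFSet.{0}} :
    ZFSet.pair (nat i) u ∈ code x k ↔ i < k ∧ u = x i := by
  rw [mem_code]
  constructor
  · rintro ⟨j, hj, h⟩
    obtain ⟨h1, h2⟩ := ZFSet.pair_inj.1 h
    obtain rfl := nat_inj.1 h1
    exact ⟨hj, h2⟩
  · rintro ⟨hi, rfl⟩
    exact ⟨i, hi, rfl⟩

theorem code_congr {x y : ℕ → ZFSet.{0}} {k : ℕ} (h : ∀ i < k, x i = y i) :
    code x k = code y k := by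
  ext z
  rw [mem_code, mem_code]
  constructor
  · rintro ⟨i, hi, rfl⟩; exact ⟨i, hi, by rw [h i hi]⟩
  · rintro ⟨i, hi, rfl⟩; exact ⟨i, hi, by rw [h i hi]⟩

theorem code_subset_iff {x y : ℕ → ZFSet.{0}} {k l : ℕ} :
    (∀ z ∈ code y l, z ∈ code x k) ↔ l ≤ k ∧ ∀ i < l, x i = y i := by
  constructor
  · intro h
    have h1 : ∀ i < l, i < k ∧ y i = x i := by
      intro i hi
      exact pair_mem_code.1 (h _ (pair_mem_code.2 ⟨hi, rfl⟩))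
    refine ⟨?_, fun i hi => (h1 i hi).2.symm⟩
    by_contra hlk
    exact lt_irrefl k (h1 k (by omega)).1
  · rintro ⟨h1, h2⟩ z hz
    obtain ⟨i, hi, rfl⟩ := mem_code.1 hz
    exact mem_code.2 ⟨i, by omega, by rw [h2 i hi]⟩

theorem mem_ss_left {k u s : ZFSet.{0}} (h : ZFSet.pair k u ∈ s) :
    k ∈ ZFSet.sUnion (ZFSet.sUnion s) := by
  refine ZFSet.mem_sUnion.2 ⟨{k}, ZFSet.mem_sUnion.2 ⟨_, h, ?_⟩, by simp⟩
  simp [ZFSet.pair]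

theorem mem_ss_right {k u s : ZFSet.{0}} (h : ZFSet.pair k u ∈ s) :
    u ∈ ZFSet.sUnion (ZFSet.sUnion s) := by
  refine ZFSet.mem_sUnion.2 ⟨{k, u}, ZFSet.mem_sUnion.2 ⟨_, h, ?_⟩, by simp⟩
  simp [ZFSet.pair]

/-- `s` is a function whose domain is a natural number (absolute form). -/
def IsSeq (s : ZFSet.{0}) : Prop :=
  ∃ n ∈ om, (∀ z ∈ s, ∃ k u, z = ZFSet.pair k u ∧ k ∈ n) ∧
    ∀ k ∈ n, ∃ u ∈ ZFSet.sUnion (ZFSet.sUnion s), ZFSet.pair k u ∈ s ∧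
      ∀ u' ∈ ZFSet.sUnion (ZFSet.sUnion s), ZFSet.pair k u' ∈ s → u' = u

theorem isSeq_code (x : ℕ → ZFSet.{0}) (k : ℕ) : IsSeq (code x k) := by
  refine ⟨nat k, nat_mem_om k, ?_, ?_⟩
  · intro z hz
    obtain ⟨i, hi, rfl⟩ := mem_code.1 hz
    exact ⟨_, _, rfl, nat_mem_of_lt hi⟩
  · intro j hj
    obtain ⟨i, hi, rfl⟩ := mem_nat.1 hj
    have h := pair_mem_code (x := x).2 ⟨hi, rfl⟩
    refine ⟨x i, mem_ss_right h, h, ?_⟩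
    intro u' _ hu'
    exact (pair_mem_code.1 hu').2

theorem IsSeq.exists_code {s : ZFSet.{0}} (h : IsSeq s) : ∃ k x, s = code x k := by
  obtain ⟨n, hn, h1, h2⟩ := h
  obtain ⟨k, rfl⟩ := mem_om.1 hn
  have h3 : ∀ i : ℕ, ∃ u, i < k → (ZFSet.pair (nat i) u ∈ s ∧
      ∀ u', ZFSet.pair (nat i) u' ∈ s → u' = u) := by
    intro i
    by_cases hi : i < k
    · obtain ⟨u, -, hu, hu'⟩ := h2 _ (nat_mem_of_lt hi)
      exact ⟨u, fun _ => ⟨hu, fun u' h' => hu' u' (mem_ss_right h') h'⟩⟩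
    · exact ⟨∅, fun h => absurd h hi⟩
  choose x hx using h3
  refine ⟨k, x, ?_⟩
  ext z
  rw [mem_code]
  constructor
  · intro hz
    obtain ⟨j, u, rfl, hj⟩ := h1 z hz
    obtain ⟨i, hi, rfl⟩ := mem_nat.1 hj
    exact ⟨i, hi, by rw [(hx i hi).2 u hz]⟩
  · rintro ⟨i, hi, rfl⟩
    exact (hx i hi).1

theorem AbsP.isSeq {n : ℕ} {f : (Fin n → ZFSet.{0}) → ZFSet.{0}} (hf : AbsF f) :
    AbsP (fun v => IsSeq (f v)) := by
  unfold IsSeq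
  refine AbsP.bex (R := fun v n => (∀ z ∈ f v, ∃ k u, z = ZFSet.pair k u ∧ k ∈ n) ∧
    ∀ k ∈ n, ∃ u ∈ ZFSet.sUnion (ZFSet.sUnion (f v)), ZFSet.pair k u ∈ f v ∧
      ∀ u' ∈ ZFSet.sUnion (ZFSet.sUnion (f v)), ZFSet.pair k u' ∈ f v → u' = u)
    AbsF.cOm ?_
  refine AbsP.and ?_ ?_
  · refine AbsP.ball (R := fun v z => ∃ k u, z = ZFSet.pair k u ∧ k ∈ v 0) hf.weak ?_
    refine AbsP.exPair (R := fun v k _ => k ∈ v (Fin.succ 0)) (AbsF.proj 0) ?_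
    exact AbsP.mem (AbsF.proj _) (AbsF.proj _)
  · refine AbsP.ball (R := fun v k => ∃ u ∈ ZFSet.sUnion (ZFSet.sUnion (f (fun i => v i.succ))),
      ZFSet.pair k u ∈ f (fun i => v i.succ) ∧
      ∀ u' ∈ ZFSet.sUnion (ZFSet.sUnion (f (fun i => v i.succ))),
        ZFSet.pair k u' ∈ f (fun i => v i.succ) → u' = u) (AbsF.proj 0) ?_
    refine AbsP.bex (R := fun v u => ZFSet.pair (v 0) u ∈ f (fun i => v i.succ.succ) ∧
      ∀ u' ∈ ZFSet.sUnion (ZFSet.sUnion (f (fun i => v i.succ.succ))),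
        ZFSet.pair (v 0) u' ∈ f (fun i => v i.succ.succ) → u' = u) hf.weak.weak.sUnion.sUnion ?_
    refine AbsP.and (AbsP.mem (AbsF.opair (AbsF.proj _) (AbsF.proj _)) hf.weak.weak.weak) ?_
    refine AbsP.ball (R := fun v u' =>
        ZFSet.pair (v (Fin.succ 0)) u' ∈ f (fun i => v i.succ.succ.succ) → u' = v 0)
        hf.weak.weak.weak.sUnion.sUnion ?_
    refine AbsP.imp (AbsP.mem (AbsF.opair (AbsF.proj _) (AbsF.proj _))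
      hf.weak.weak.weak.weak) ?_
    exact AbsP.eq (AbsF.proj _) (AbsF.proj _)

/-- The sequence `s` decides `s(i) ∈ s(j) ∨ s(i) = s(j)` positively. -/
def Hold (s i j : ZFSet.{0}) : Prop :=
  ∃ x ∈ ZFSet.sUnion (ZFSet.sUnion s), ∃ y ∈ ZFSet.sUnion (ZFSet.sUnion s),
    ZFSet.pair i x ∈ s ∧ ZFSet.pair j y ∈ s ∧ (x ∈ y ∨ x = y)

theorem hold_code {x : ℕ → ZFSet.{0}} {k i j : ℕ} :
    Hold (code x k) (nat i) (nat j) ↔ i < k ∧ j < k ∧ near (x i) (x j) := by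
  constructor
  · rintro ⟨u, -, v, -, h1, h2, h3⟩
    obtain ⟨h4, rfl⟩ := pair_mem_code.1 h1
    obtain ⟨h5, rfl⟩ := pair_mem_code.1 h2
    exact ⟨h4, h5, h3⟩
  · rintro ⟨h1, h2, h3⟩
    have h4 := pair_mem_code (x := x).2 ⟨h1, rfl⟩
    have h5 := pair_mem_code (x := x).2 ⟨h2, rfl⟩
    exact ⟨_, mem_ss_right h4, _, mem_ss_right h5, h4, h5, h3⟩

theorem AbsP.hold {n : ℕ} {f g h : (Fin n → ZFSet.{0}) → ZFSet.{0}} (hf : AbsF f)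
    (hg : AbsF g) (hh : AbsF h) : AbsP (fun v => Hold (f v) (g v) (h v)) := by
  unfold Hold
  refine AbsP.bex (R := fun v x => ∃ y ∈ ZFSet.sUnion (ZFSet.sUnion (f v)),
    ZFSet.pair (g v) x ∈ f v ∧ ZFSet.pair (h v) y ∈ f v ∧ (x ∈ y ∨ x = y)) hf.sUnion.sUnion ?_
  refine AbsP.bex (R := fun v y => ZFSet.pair (g (fun i => v i.succ)) (v 0) ∈
    f (fun i => v i.succ) ∧ ZFSet.pair (h (fun i => v i.succ)) y ∈ f (fun i => v i.succ) ∧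
      (v 0 ∈ y ∨ v 0 = y)) hf.weak.sUnion.sUnion ?_
  refine AbsP.and ?_ (AbsP.and ?_ (AbsP.or ?_ ?_))
  · exact AbsP.mem (AbsF.opair hg.weak.weak (AbsF.proj _)) hf.weak.weak
  · exact AbsP.mem (AbsF.opair hh.weak.weak (AbsF.proj _)) hf.weak.weak
  · exact AbsP.mem (AbsF.proj _) (AbsF.proj _)
  · exact AbsP.eq (AbsF.proj _) (AbsF.proj _)

/-- Strong conditions. -/
def SC (s : ZFSet.{0}) : ZFSet.{0} := ZFSet.pair ∅ s

/-- Weak conditions. -/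
def WC (i j : ZFSet.{0}) : ZFSet.{0} := ZFSet.pair (nat 1) (ZFSet.pair i j)

theorem nat_one_ne : nat 1 ≠ ∅ := by
  intro h
  have : nat 1 = nat 0 := h
  exact absurd (nat_inj.1 this) (by omega)

theorem SC_inj {s t : ZFSet.{0}} : SC s = SC t ↔ s = t := by
  unfold SC
  rw [ZFSet.pair_inj]
  simp

theorem SC_ne_WC {s i j : ZFSet.{0}} : SC s ≠ WC i j := by
  intro h
  exact nat_one_ne (ZFSet.pair_inj.1 h).1.symm

/-- Being a condition. -/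
def IsCond (p : ZFSet.{0}) : Prop :=
  ∃ a b, p = ZFSet.pair a b ∧ ((a = ∅ ∧ IsSeq b) ∨
    (a = nat 1 ∧ ∃ i j, b = ZFSet.pair i j ∧ (i ∈ om ∧ j ∈ om)))

theorem isCond_iff {p : ZFSet.{0}} :
    IsCond p ↔ (∃ k x, p = SC (code x k)) ∨ ∃ i j : ℕ, p = WC (nat i) (nat j) := by
  constructor
  · rintro ⟨a, b, rfl, ⟨rfl, h⟩ | ⟨rfl, i, j, rfl, hi, hj⟩⟩
    · obtain ⟨k, x, rfl⟩ := h.exists_code
      exact Or.inl ⟨k, x, rfl⟩
    · obtain ⟨i, rfl⟩ := mem_om.1 hi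
      obtain ⟨j, rfl⟩ := mem_om.1 hj
      exact Or.inr ⟨i, j, rfl⟩
  · rintro (⟨k, x, rfl⟩ | ⟨i, j, rfl⟩)
    · exact ⟨_, _, rfl, Or.inl ⟨rfl, isSeq_code x k⟩⟩
    · exact ⟨_, _, rfl, Or.inr ⟨rfl, _, _, rfl, nat_mem_om i, nat_mem_om j⟩⟩

theorem AbsP.isCond {n : ℕ} {f : (Fin n → ZFSet.{0}) → ZFSet.{0}} (hf : AbsF f) :
    AbsP (fun v => IsCond (f v)) := by
  unfold IsCond
  refine AbsP.exPair (R := fun _ a b => (a = ∅ ∧ IsSeq b) ∨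
    (a = nat 1 ∧ ∃ i j, b = ZFSet.pair i j ∧ (i ∈ om ∧ j ∈ om))) hf ?_
  refine AbsP.or (AbsP.and (AbsP.eq (AbsF.proj _) AbsF.cEmpty) (AbsP.isSeq (AbsF.proj _))) ?_
  refine AbsP.and (AbsP.eq (AbsF.proj _) (AbsF.cNat 1)) ?_
  refine AbsP.exPair (R := fun _ i j => i ∈ om ∧ j ∈ om) (AbsF.proj 0) ?_
  exact AbsP.and (AbsP.mem (AbsF.proj _) AbsF.cOm) (AbsP.mem (AbsF.proj _) AbsF.cOm)

/-- The ordering. -/
def leZ (p q : ZFSet.{0}) : Prop :=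
  p = q ∨ ∃ a s, p = ZFSet.pair a s ∧ (a = ∅ ∧ ∃ b t, q = ZFSet.pair b t ∧
    ((b = ∅ ∧ ∀ z ∈ t, z ∈ s) ∨ (b = nat 1 ∧ ∃ i j, t = ZFSet.pair i j ∧ Hold s i j)))

theorem AbsP.leZ {n : ℕ} {f g : (Fin n → ZFSet.{0}) → ZFSet.{0}} (hf : AbsF f)
    (hg : AbsF g) : AbsP (fun v => leZ (f v) (g v)) := by
  unfold Pool.Agent.Lib.MP_1a1aec_lc.leZ
  refine AbsP.or (AbsP.eq hf hg) ?_
  refine AbsP.exPair (R := fun v a s => a = ∅ ∧ ∃ b t, g v = ZFSet.pair b t ∧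
    ((b = ∅ ∧ ∀ z ∈ t, z ∈ s) ∨ (b = nat 1 ∧ ∃ i j, t = ZFSet.pair i j ∧ Hold s i j))) hf ?_
  refine AbsP.and (AbsP.eq (AbsF.proj _) AbsF.cEmpty) ?_
  refine AbsP.exPair (R := fun v b t =>
    ((b = ∅ ∧ ∀ z ∈ t, z ∈ v 0) ∨ (b = nat 1 ∧ ∃ i j, t = ZFSet.pair i j ∧ Hold (v 0) i j)))
    hg.weak.weak ?_
  refine AbsP.or (AbsP.and (AbsP.eq (AbsF.proj _) AbsF.cEmpty) ?_)
    (AbsP.and (AbsP.eq (AbsF.proj _) (AbsF.cNat 1)) ?_)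
  · refine AbsP.ball (R := fun v z => z ∈ v (Fin.succ (Fin.succ 0))) (AbsF.proj 0) ?_
    exact AbsP.mem (AbsF.proj _) (AbsF.proj _)
  · refine AbsP.exPair (R := fun v i j => Hold (v (Fin.succ (Fin.succ 0))) i j)
      (AbsF.proj 0) ?_
    exact AbsP.hold (AbsF.proj _) (AbsF.proj _) (AbsF.proj _)

theorem leZ_SC_SC {x y : ℕ → ZFSet.{0}} {k l : ℕ} :
    leZ (SC (code x k)) (SC (code y l)) ↔ l ≤ k ∧ ∀ i < l, x i = y i := by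
  rw [← code_subset_iff]
  constructor
  · rintro (h | ⟨a, s, h, -, b, t, h', h2 | ⟨h2, -⟩⟩)
    · rw [SC_inj.1 h]; exact fun _ h => h
    · obtain ⟨-, rfl⟩ := ZFSet.pair_inj.1 h
      obtain ⟨-, rfl⟩ := ZFSet.pair_inj.1 h'
      exact h2.2
    · obtain ⟨h3, -⟩ := ZFSet.pair_inj.1 h'
      rw [h2] at h3
      exact absurd h3.symm nat_one_ne
  · intro h
    exact Or.inr ⟨_, _, rfl, rfl, _, _, rfl, Or.inl ⟨rfl, h⟩⟩

theorem leZ_SC_WC {x : ℕ → ZFSet.{0}} {k i j : ℕ} :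
    leZ (SC (code x k)) (WC (nat i) (nat j)) ↔ i < k ∧ j < k ∧ near (x i) (x j) := by
  rw [← hold_code]
  constructor
  · rintro (h | ⟨a, s, h, -, b, t, h', ⟨h2, -⟩ | ⟨-, i', j', h2, h3⟩⟩)
    · exact absurd h SC_ne_WC
    · obtain ⟨h3, -⟩ := ZFSet.pair_inj.1 h'
      rw [h2] at h3
      exact absurd h3 nat_one_ne
    · obtain ⟨-, rfl⟩ := ZFSet.pair_inj.1 h
      obtain ⟨-, h4⟩ := ZFSet.pair_inj.1 h'
      rw [← h4] at h2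
      obtain ⟨rfl, rfl⟩ := ZFSet.pair_inj.1 h2
      exact h3
  · intro h
    exact Or.inr ⟨_, _, rfl, rfl, _, _, rfl, Or.inr ⟨rfl, _, _, rfl, h⟩⟩

theorem leZ_WC {i j q : ZFSet.{0}} (h : leZ (WC i j) q) : q = WC i j := by
  rcases h with h | ⟨a, s, h, h2, -⟩
  · exact h.symm
  · obtain ⟨h3, -⟩ := ZFSet.pair_inj.1 h
    rw [h2] at h3
    exact absurd h3 nat_one_ne

theorem absCond : AbsP (fun v : Fin 1 → ZFSet.{0} => IsCond (v 0)) :=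
  AbsP.isCond (AbsF.proj 0)

theorem absLe : AbsP (fun v : Fin 2 → ZFSet.{0} => leZ (v 0) (v 1)) :=
  AbsP.leZ (AbsF.proj 0) (AbsF.proj 1)

/-- The notion of class forcing. -/
noncomputable def Q : Notion := ⟨absCond.choose, absLe.choose⟩

theorem mem_P {M : Set ZFSet.{0}} (hM : TM M) {p : ZFSet.{0}} :
    p ∈ Q.P M ↔ p ∈ M ∧ IsCond p := by
  constructor
  · rintro ⟨hp, h⟩
    exact ⟨hp, (absCond.choose_spec M hM (fun _ => ⟨p, hp⟩)).1 h⟩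
  · rintro ⟨hp, h⟩
    exact ⟨hp, (absCond.choose_spec M hM (fun _ => ⟨p, hp⟩)).2 h⟩

theorem leM_iff {M : Set ZFSet.{0}} (hM : TM M) {p q : ZFSet.{0}} :
    Q.leM M p q ↔ p ∈ M ∧ q ∈ M ∧ leZ p q := by
  constructor
  · rintro ⟨hp, hq, h⟩
    exact ⟨hp, hq, (absLe.choose_spec M hM ![⟨p, hp⟩, ⟨q, hq⟩]).1 h⟩
  · rintro ⟨hp, hq, h⟩
    exact ⟨hp, hq, (absLe.choose_spec M hM ![⟨p, hp⟩, ⟨q, hq⟩]).2 h⟩

end Pool.Agent.Lib.MP_1a1aec_lc
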