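import Pool.Agent.Lib.MP_1a1aec_lc.Nat

/-!
Recursion on natural numbers inside transitive models of ZFC.
-/

open FirstOrder FirstOrder.Language

namespace Pool.Agent.Lib.MP_1a1aec_lc

theorem AbsF.comp1 {n : ℕ} {F : ZFSet.{0} → ZFSet.{0}}
    (hF : AbsF (fun v : Fin 1 → ZFSet.{0} => F (v 0)))
    {f : (Fin n → ZFSet.{0}) → ZFSet.{0}} (hf : AbsF f) : AbsF (fun v => F (f v)) := by
  refine ⟨fun M hM v hv => hF.closed M hM (fun _ => f v) (fun _ => hf.closed M hM v hv), ?_⟩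
  refine AbsP.subst (R := fun w z => w 0 = F z) hf.weak ?_
  exact hF.graph.reindex (Fin.cases (Fin.succ 0) (fun _ => 0) : Fin 2 → Fin (n + 2))

theorem AbsF.comp2 {n : ℕ} {F : ZFSet.{0} → ZFSet.{0} → ZFSet.{0}}
    (hF : AbsF (fun v : Fin 2 → ZFSet.{0} => F (v 0) (v 1)))
    {f g : (Fin n → ZFSet.{0}) → ZFSet.{0}} (hf : AbsF f) (hg : AbsF g) :
    AbsF (fun v => F (f v) (g v)) := by
  refine ⟨fun M hM v hv => hF.closed M hM ![f v, g v] ?_, ?_⟩
  · intro i
    fin_cases i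
    · exact hf.closed M hM v hv
    · exact hg.closed M hM v hv
  refine AbsP.subst (R := fun w z => w 0 = F z (g (fun i => w i.succ))) hf.weak ?_
  refine AbsP.subst (R := fun w z => w (Fin.succ 0) = F (w 0) z) hg.weak.weak ?_
  exact hF.graph.reindex (Fin.cases (Fin.succ (Fin.succ 0))
    (Fin.cases (Fin.succ 0) (fun _ => 0)) : Fin 3 → Fin (n + 3))

theorem mem_sUnion_pair_left (x y : ZFSet.{0}) : x ∈ ZFSet.sUnion (ZFSet.pair x y) := by
  refine ZFSet.mem_sUnion.2 ⟨{x}, ?_, by simp⟩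
  simp [ZFSet.pair]

theorem mem_sUnion_pair_right (x y : ZFSet.{0}) : y ∈ ZFSet.sUnion (ZFSet.pair x y) := by
  refine ZFSet.mem_sUnion.2 ⟨{x, y}, ?_, by simp⟩
  simp [ZFSet.pair]

/-- `z` is an ordered pair `(a, b)` satisfying `R a b`. -/
theorem AbsP.exPair {n : ℕ} {f : (Fin n → ZFSet.{0}) → ZFSet.{0}} (hf : AbsF f)
    {R : (Fin n → ZFSet.{0}) → ZFSet.{0} → ZFSet.{0} → Prop}
    (h : AbsP (fun w : Fin (n + 2) → ZFSet.{0} =>
      R (fun i => w i.succ.succ) (w (Fin.succ 0)) (w 0))) :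
    AbsP (fun v => ∃ a b, f v = ZFSet.pair a b ∧ R v a b) := by
  have h1 : AbsP (fun v => ∃ a ∈ ZFSet.sUnion (f v), ∃ b ∈ ZFSet.sUnion (f v),
      f v = ZFSet.pair a b ∧ R v a b) := by
    refine AbsP.bex (R := fun v a => ∃ b ∈ ZFSet.sUnion (f v), f v = ZFSet.pair a b ∧ R v a b)
      (AbsF.sUnion hf) ?_
    refine AbsP.bex (R := fun w b => f (fun i => w i.succ) = ZFSet.pair (w 0) b ∧
      R (fun i => w i.succ) (w 0) b) (AbsF.sUnion hf.weak) ?_
    refine AbsP.and (AbsP.eq hf.weak.weak (AbsF.opair (AbsF.proj (Fin.succ 0)) (AbsF.proj 0))) h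
  refine h1.congr (fun v => ?_)
  constructor
  · rintro ⟨a, b, h1, h2⟩
    exact ⟨a, by rw [h1]; exact mem_sUnion_pair_left a b, b,
      by rw [h1]; exact mem_sUnion_pair_right a b, h1, h2⟩
  · rintro ⟨a, -, b, -, h1, h2⟩
    exact ⟨a, b, h1, h2⟩

/-- Attempts at the recursion. -/
def Att (a₀ : ZFSet.{0}) (h : ZFSet.{0} → ZFSet.{0}) (g : ZFSet.{0}) : Prop :=
  ∀ z ∈ g, z = ZFSet.pair ∅ a₀ ∨ ∃ w ∈ g, ∃ k u, w = ZFSet.pair k u ∧
    z = ZFSet.pair (insert k k) (h u)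

theorem insert_inj_nat {k : ZFSet.{0}} {n : ℕ} (h : nat (n + 1) = insert k k) : k = nat n := by
  have hk : k ∈ nat (n + 1) := by rw [h]; exact ZFSet.mem_insert k k
  obtain ⟨j, hj, rfl⟩ := mem_nat.1 hk
  rw [← nat_succ, nat_inj] at h
  have : j = n := by omega
  rw [this]

theorem Att.val {A : ℕ → ZFSet.{0}} {h : ZFSet.{0} → ZFSet.{0}}
    (hA : ∀ n, A (n + 1) = h (A n)) {g : ZFSet.{0}} (hg : Att (A 0) h g) (n : ℕ)
    (y : ZFSet.{0}) (hy : ZFSet.pair (nat n) y ∈ g) : y = A n := by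
  induction n generalizing y with
  | zero =>
    rcases hg _ hy with h0 | ⟨w, -, k, u, -, h0⟩
    · exact (ZFSet.pair_inj.1 h0).2
    · have := (ZFSet.pair_inj.1 h0).1
      rw [nat_zero] at this
      exact absurd (this ▸ ZFSet.mem_insert k k) (ZFSet.notMem_empty k)
  | succ n ih =>
    rcases hg _ hy with h0 | ⟨w, hw, k, u, rfl, h0⟩
    · have := (ZFSet.pair_inj.1 h0).1
      rw [nat_succ] at this
      exact absurd (this ▸ ZFSet.mem_insert (nat n) (nat n)) (ZFSet.notMem_empty _)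
    · obtain ⟨h1, h2⟩ := ZFSet.pair_inj.1 h0
      have hk := insert_inj_nat h1
      subst hk
      rw [h2, ih u hw, hA]

/-- The canonical attempts. -/
def attSet (A : ℕ → ZFSet.{0}) : ℕ → ZFSet.{0}
  | 0 => {ZFSet.pair ∅ (A 0)}
  | n + 1 => insert (ZFSet.pair (nat (n + 1)) (A (n + 1))) (attSet A n)

theorem mem_attSet (A : ℕ → ZFSet.{0}) (n : ℕ) : ZFSet.pair (nat n) (A n) ∈ attSet A n := by
  cases n with
  | zero => simp [attSet]
  | succ n => exact ZFSet.mem_insert _ _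

theorem att_attSet {A : ℕ → ZFSet.{0}} {h : ZFSet.{0} → ZFSet.{0}}
    (hA : ∀ n, A (n + 1) = h (A n)) (n : ℕ) : Att (A 0) h (attSet A n) := by
  induction n with
  | zero =>
    intro z hz
    exact Or.inl (ZFSet.mem_singleton.1 hz)
  | succ n ih =>
    intro z hz
    rcases ZFSet.mem_insert_iff.1 hz with h0 | h0
    · refine Or.inr ⟨_, ZFSet.mem_insert_of_mem _ (mem_attSet A n), nat n, A n, rfl, ?_⟩
      rw [h0, hA, nat_succ]
    · rcases ih z h0 with h1 | ⟨w, hw, h1⟩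
      · exact Or.inl h1
      · exact Or.inr ⟨w, ZFSet.mem_insert_of_mem _ hw, h1⟩

theorem AbsF.seq1 {A : ℕ → ZFSet.{0}} {h : ZFSet.{0} → ZFSet.{0}}
    (hA : ∀ n, A (n + 1) = h (A n)) (h0 : AbsF (fun _ : Fin 0 → ZFSet.{0} => A 0))
    (hh : AbsF (fun v : Fin 1 → ZFSet.{0} => h (v 0))) :
    AbsF (fun v : Fin 1 → ZFSet.{0} => seqF A (v 0)) := by
  have hAM : ∀ M : Set ZFSet.{0}, TM M → ∀ n, A n ∈ M := by
    intro M hM n
    induction n with
    | zero => exact h0.closed M hM (fun i => i.elim0) (fun i => i.elim0)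
    | succ n ih =>
      rw [hA]
      exact hh.closed M hM (fun _ => A n) (fun _ => ih)
  have hattM : ∀ M : Set ZFSet.{0}, TM M → ∀ n, attSet A n ∈ M := by
    intro M hM n
    have hp : ∀ k, ZFSet.pair (nat k) (A k) ∈ M := by
      intro k
      exact (AbsF.opair (AbsF.proj (n := 2) 0) (AbsF.proj 1)).closed M hM
        ![nat k, A k]
        (by intro i; fin_cases i
            · exact hM.nat_mem k
            · exact hAM M hM k)
    induction n with
    | zero =>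
      exact (AbsF.sing (AbsF.proj (n := 1) 0)).closed M hM
        (fun _ => ZFSet.pair ∅ (A 0)) (fun _ => hp 0)
    | succ n ih =>
      exact (AbsF.ins (AbsF.proj (n := 2) 0) (AbsF.proj 1)).closed M hM
        ![ZFSet.pair (nat (n + 1)) (A (n + 1)), attSet A n]
        (by intro i; fin_cases i
            · exact hp (n + 1)
            · exact ih)
  constructor
  · intro M hM v hv
    by_cases hx : ∃ n, nat n = v 0
    · obtain ⟨n, hn⟩ := hx
      simp only [← hn, seqF_nat]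
      exact hAM M hM n
    · simp only [seqF, dif_neg hx]
      exact hM.empty_mem
  · -- the graph
    have hatt : ∀ {m : ℕ} {f : (Fin m → ZFSet.{0}) → ZFSet.{0}}, AbsF f →
        AbsP (fun v => Att (A 0) h (f v)) := by
      intro m f hf
      unfold Att
      have h0' : ∀ {m : ℕ}, AbsF (fun _ : Fin m → ZFSet.{0} => A 0) := by
        intro m
        exact h0.reindex (fun i => i.elim0)
      refine AbsP.ball (R := fun v z => z = ZFSet.pair ∅ (A 0) ∨ ∃ w ∈ f v, ∃ k u,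
        w = ZFSet.pair k u ∧ z = ZFSet.pair (insert k k) (h u)) hf ?_
      refine AbsP.or (AbsP.eq (AbsF.proj 0) (AbsF.opair AbsF.cEmpty h0')) ?_
      refine AbsP.bex (R := fun v w => ∃ k u,
        w = ZFSet.pair k u ∧ v 0 = ZFSet.pair (insert k k) (h u)) hf.weak ?_
      refine AbsP.exPair (R := fun v k u => v (Fin.succ 0) = ZFSet.pair (insert k k) (h u))
        (AbsF.proj 0) ?_
      refine AbsP.eq (AbsF.proj _) (AbsF.opair (AbsF.ins (AbsF.proj _) (AbsF.proj _)) ?_)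
      exact AbsF.comp1 hh (AbsF.proj 0)
    have hex : AbsP (fun w : Fin 2 → ZFSet.{0} =>
        ∃ g, w 1 ∈ om ∧ Att (A 0) h g ∧ ZFSet.pair (w 1) (w 0) ∈ g) := by
      refine AbsP.exM (R := fun w g => w 1 ∈ om ∧ Att (A 0) h g ∧
        ZFSet.pair (w 1) (w 0) ∈ g) ?_ ?_
      · refine AbsP.and (AbsP.mem (AbsF.proj _) AbsF.cOm) (AbsP.and (hatt (AbsF.proj 0)) ?_)
        exact AbsP.mem (AbsF.opair (AbsF.proj _) (AbsF.proj _)) (AbsF.proj 0)
      · rintro M hM v hv g ⟨h1, h2, h3⟩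
        obtain ⟨n, hn⟩ := mem_om.1 h1
        refine ⟨attSet A n, hattM M hM n, h1, att_attSet hA n, ?_⟩
        rw [← hn] at h3 ⊢
        rw [h2.val hA n _ h3]
        exact mem_attSet A n
    refine (hex.or ((AbsP.mem (AbsF.proj (n := 2) 1) AbsF.cOm).not.and
      (AbsP.eq (AbsF.proj 0) AbsF.cEmpty))).congr ?_
    intro w
    have hw1 : (fun i : Fin 1 => w i.succ) 0 = w 1 := rfl
    constructor
    · intro hw
      by_cases hx : w 1 ∈ om
      · left
        obtain ⟨n, hn⟩ := mem_om.1 hx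
        refine ⟨attSet A n, hx, att_attSet hA n, ?_⟩
        have : w 0 = A n := by
          rw [hw]
          show seqF A (w 1) = A n
          rw [← hn, seqF_nat]
        rw [this, ← hn]
        exact mem_attSet A n
      · right
        refine ⟨hx, ?_⟩
        rw [hw]
        show seqF A (w 1) = ∅
        rw [mem_om] at hx
        simp [seqF, hx]
    · rintro (⟨g, h1, h2, h3⟩ | ⟨h1, h2⟩)
      · obtain ⟨n, hn⟩ := mem_om.1 h1
        show w 0 = seqF A (w 1)
        rw [← hn] at h3 ⊢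
        rw [seqF_nat]
        exact h2.val hA n _ h3
      · show w 0 = seqF A (w 1)
        rw [mem_om] at h1
        rw [h2]
        simp [seqF, h1]

theorem AbsF.seq {n : ℕ} {A : ℕ → ZFSet.{0}} {h : ZFSet.{0} → ZFSet.{0}}
    (hA : ∀ n, A (n + 1) = h (A n)) (h0 : AbsF (fun _ : Fin 0 → ZFSet.{0} => A 0))
    (hh : AbsF (fun v : Fin 1 → ZFSet.{0} => h (v 0)))
    {f : (Fin n → ZFSet.{0}) → ZFSet.{0}} (hf : AbsF f) : AbsF (fun v => seqF A (f v)) :=
  AbsF.comp1 (AbsF.seq1 hA h0 hh) hf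

end Pool.Agent.Lib.MP_1a1aec_lc
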